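import Pool.Agent.SCG.Iface

/-!
# Project SCG (architect helper40), module Hom: harmonic chains and homology

`nohom_iff`: `NoHom M` holds iff the harmonic chains vanish (`VV M`).
-/

namespace SCG

open SNG Finset SCS
open scoped InnerProductSpace

variable {V : Type} [Fintype V] [LinearOrder V] {M : CoxeterMatrix V}

omit [LinearOrder V] in
private theorem sq_sum {α : Type} {f : Finset V → α → ℝ} (h : ∀ T, Summable fun g => f T g ^ 2) :
    Summable fun q : Finset V × α => f q.1 q.2 ^ 2 := by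
  rw [summable_prod_of_nonneg (fun q => sq_nonneg _)]
  exact ⟨fun T => h T, (hasSum_fintype _).summable⟩

omit [LinearOrder V] in
private theorem norm_eq {α : Type} (f : Ell (Finset V × α)) :
    ‖f‖ ^ 2 = ∑ T : Finset V, ∑' g, f (T, g) ^ 2 := by
  rw [ell_norm_sq, (ell_summable f).tsum_prod, tsum_fintype]

omit [LinearOrder V] in
theorem sqch_iff {j : ℕ} {f : HW M} : SqCh M j (fun T g => f (T, g)) ↔ f ∈ CC M univ j := by
  rw [mem_CC]
  constructor
  · intro h
    exact ⟨fun T hT => h.supp T fun h1 => hT ⟨subset_univ T, h1⟩, h.alt⟩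
  · intro h
    exact ⟨fun T hT => h.1 T fun h1 => hT h1.2, h.2,
      fun T => (ell_summable f).comp_injective (i := fun g => (T, g)) fun a b hab =>
        congrArg Prod.snd hab⟩

theorem nohom_iff : NoHom M ↔ VV M := by
  constructor
  · intro h j
    rw [eq_bot_iff]
    intro f hf
    rw [mem_HH] at hf
    obtain ⟨h1, h2, h3⟩ := hf
    rw [Submodule.mem_bot]
    by_contra hne
    have hpos : 0 < ‖f‖ ^ 2 := by positivity
    obtain ⟨k, hk, hlt⟩ := h j (fun T g => f (T, g)) (sqch_iff.2 h1) (fun T g => by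
      have h4 := bD_apply f T g
      rw [h2] at h4
      exact h4.symm) _ hpos
    obtain ⟨F, hF⟩ : ∃ F : HW M, ∀ T g, F (T, g) = k T g := ⟨mkE _ (sq_sum hk.sq), fun _ _ => rfl⟩
    have hFk : (fun T g => F (T, g)) = k := by
      funext T g
      exact hF T g
    have h4 : F ∈ CC M univ (j + 1) := by
      rw [← sqch_iff, hFk]
      exact hk
    have h5 : ‖f - bD M F‖ ^ 2 < ‖f‖ ^ 2 := by
      rw [norm_eq]
      refine lt_of_eq_of_lt ?_ hlt
      refine sum_congr rfl fun T _ => tsum_congr fun g => ?_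
      rw [ell_sub, bD_apply, hFk]
    have h6 : ⟪bD M F, f⟫_ℝ = 0 := h3 F h4
    have h7 : ‖f - bD M F‖ ^ 2 = ‖f‖ ^ 2 + ‖bD M F‖ ^ 2 := by
      have h8 : ⟪f, bD M F⟫_ℝ = 0 := by
        rw [real_inner_comm]
        exact h6
      rw [← real_inner_self_eq_norm_sq, inner_sub_sub_self, h6, h8,
        real_inner_self_eq_norm_sq, real_inner_self_eq_norm_sq]
      ring
    nlinarith [sq_nonneg ‖bD M F‖]
  · intro h j f hf hz ε hε
    obtain ⟨F, hF⟩ : ∃ F : HW M, ∀ T g, F (T, g) = f T g := ⟨mkE _ (sq_sum hf.sq), fun _ _ => rfl⟩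
    have hFf : (fun T g => F (T, g)) = f := by
      funext T g
      exact hF T g
    have h1 : F ∈ CC M univ j ⊓ kr (bD M) := by
      refine ⟨?_, ?_⟩
      · have h2 := hf
        rw [← hFf] at h2
        exact sqch_iff.1 h2
      · refine mem_kr.2 (ell_ext ?_)
        rintro ⟨T, g⟩
        rw [bD_apply, hFf]
        exact hz T g
    rw [cyc_eq, h j, sup_bot_eq] at h1
    have h2 : F ∈ closure ((im (bD M) (CC M univ (j + 1)) : Submodule ℝ (HW M)) : Set (HW M)) := h1
    obtain ⟨y, hy, hd⟩ := Metric.mem_closure_iff.1 h2 (Real.sqrt ε) (Real.sqrt_pos.2 hε)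
    obtain ⟨k, hk, rfl⟩ := mem_im.1 hy
    refine ⟨fun T g => k (T, g), sqch_iff.2 hk, ?_⟩
    have h3 : ‖F - bD M k‖ ^ 2 < ε := by
      rw [dist_eq_norm] at hd
      calc ‖F - bD M k‖ ^ 2 < Real.sqrt ε ^ 2 := by
            exact pow_lt_pow_left₀ hd (norm_nonneg _) two_ne_zero
        _ = ε := Real.sq_sqrt hε.le
    rw [norm_eq] at h3
    refine lt_of_eq_of_lt ?_ h3
    refine sum_congr rfl fun T _ => tsum_congr fun g => ?_
    rw [ell_sub, bD_apply, hF]

/-- The order does not matter. -/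
theorem vv_order {X : Type} [Fintype X] {G : CoxeterMatrix X} (i1 i2 : LinearOrder X)
    (h : @VV X _ i1 G) : @VV X _ i2 G := by
  intro j
  have h1 := @hh_to X X G G _ i2 _ i1 (Function.Embedding.refl X) (fun _ _ => rfl) h j
  rwa [map_refl] at h1

/-- The restriction to `S` with the inherited order. -/
theorem zg_iff_nohom {V : Type} [LinearOrder V] {M : CoxeterMatrix V} {S : Finset V} :
    ZG M S ↔ NoHom (sub M S) := by
  rw [nohom_iff]
  constructor
  · intro h
    exact h inferInstance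
  · intro h i
    exact vv_order _ i h

end SCG
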