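import Pool.Agent.SCG.ShR
import Pool.Agent.SCG.Hom

/-!
# Project SCG (architect helper40), module Fin: final assembly
-/

namespace SCG

open SNG Finset SCS

section ext

variable {ι V : Type}

open Classical in
/-- the labels on all finite sets -/
private noncomputable def exf (M : CoxeterMatrix V) (φ : V → Finset ι) (σ τ : Finset ι) : ℕ :=
  if σ = τ then 1 else if h : (∃ x, φ x = σ) ∧ ∃ y, φ y = τ then M h.1.choose h.2.choose
    else if σ < τ ∨ τ < σ then 2 else 0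

private theorem exf_self (M : CoxeterMatrix V) (φ : V → Finset ι) (σ : Finset ι) :
    exf M φ σ σ = 1 := if_pos rfl

private theorem exf_in {M : CoxeterMatrix V} {φ : V → Finset ι} (hi : Function.Injective φ)
    (x y : V) : exf M φ (φ x) (φ y) = M x y := by
  unfold exf
  by_cases h : φ x = φ y
  · rw [if_pos h, hi h]
    exact (M.diagonal y).symm
  · have h2 : (∃ x', φ x' = φ x) ∧ ∃ y', φ y' = φ y := ⟨⟨x, rfl⟩, y, rfl⟩
    rw [if_neg h, dif_pos h2, hi h2.1.choose_spec, hi h2.2.choose_spec]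

private theorem exf_out {M : CoxeterMatrix V} {φ : V → Finset ι} {σ τ : Finset ι} (h : σ ≠ τ)
    (h2 : ¬ ((∃ x, φ x = σ) ∧ ∃ y, φ y = τ)) :
    exf M φ σ τ = (open Classical in if σ < τ ∨ τ < σ then 2 else 0) := by
  unfold exf
  rw [if_neg h, dif_neg h2]

private noncomputable def exM (M : CoxeterMatrix V) {φ : V → Finset ι}
    (hi : Function.Injective φ) : CoxeterMatrix (Finset ι) where
  M := Matrix.of fun σ τ => exf M φ σ τ
  isSymm := by
    classical
    ext σ τ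
    change exf M φ τ σ = exf M φ σ τ
    by_cases h : σ = τ
    · rw [h]
    · by_cases h2 : (∃ x, φ x = σ) ∧ ∃ y, φ y = τ
      · obtain ⟨⟨x, rfl⟩, y, rfl⟩ := h2
        rw [exf_in hi, exf_in hi, M.symmetric]
      · rw [exf_out h h2, exf_out (Ne.symm h) fun h3 => h2 ⟨h3.2, h3.1⟩]
        simp only [or_comm]
  diagonal σ := exf_self M φ σ
  off_diagonal σ τ h := by
    classical
    change exf M φ σ τ ≠ 1
    by_cases h2 : (∃ x, φ x = σ) ∧ ∃ y, φ y = τ
    · obtain ⟨⟨x, rfl⟩, y, rfl⟩ := h2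
      rw [exf_in hi]
      exact M.off_diagonal x y fun h3 => h (by rw [h3])
    · rw [exf_out h h2]
      split_ifs <;> norm_num

end ext

/-- The theorem for labelled barycentric subdivisions. -/
theorem shell_nohom {ι : Type} [DecidableEq ι] {n m : ℕ} {F : Fin m → Finset ι} (h : ShS n m F)
    (hn : Odd n) (hm : 0 < m) {V : Type} [Fintype V] [LinearOrder V] (M : CoxeterMatrix V)
    (φ : V → Finset ι) (hi : Function.Injective φ)
    (hr : ∀ τ, (∃ v, φ v = τ) ↔ τ.Nonempty ∧ ∃ i, τ ⊆ F i)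
    (h0 : ∀ x y, x ≠ y → ¬ φ x ⊂ φ y → ¬ φ y ⊂ φ x → M x y = 0)
    (h2 : ∀ x y, φ x ⊂ φ y → Odd (φ y).card → M x y = 2) : NoHom M := by
  classical
  have hin : ∀ x y, exM M hi (φ x) (φ y) = M x y := fun x y => exf_in hi x y
  have hout : ∀ σ τ : Finset ι, σ ≠ τ → ¬ ((∃ x, φ x = σ) ∧ ∃ y, φ y = τ) →
      exM M hi σ τ = if σ < τ ∨ τ < σ then 2 else 0 := by
    intro σ τ h3 h4
    refine (exf_out h3 h4).trans ?_
    congr 1
  rw [nohom_iff, vv_iff_zg, zg_image (G' := exM M hi) φ (fun x _ y _ hxy => hi hxy)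
    fun x _ y _ => hin x y]
  have e : univ.image φ = fc F := by
    ext τ
    rw [mem_fc, ← hr, mem_image]
    simp
  rw [e]
  refine rl_zg ?_ (rl_fc ?_ h hn hm)
  · intro σ τ hne h3 h4
    by_cases h5 : (∃ x, φ x = σ) ∧ ∃ y, φ y = τ
    · obtain ⟨⟨x, rfl⟩, y, rfl⟩ := h5
      rw [hin]
      exact h0 x y (fun h6 => hne (by rw [h6])) h3 h4
    · rw [hout σ τ hne h5, if_neg]
      rintro (h6 | h6)
      · exact h3 h6
      · exact h4 h6
  · intro τ σ _ hlt ho
    by_cases h5 : (∃ x, φ x = τ) ∧ ∃ y, φ y = σ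
    · obtain ⟨⟨x, rfl⟩, y, rfl⟩ := h5
      rw [hin, M.symmetric]
      exact h2 y x hlt ho
    · rw [hout τ σ hlt.ne' h5, if_pos (Or.inr hlt)]

/-- The connected sum theorem. -/
theorem csum_nohom {V : Type} [LinearOrder V] (M : CoxeterMatrix V) {A B : Finset V} {c : V}
    (hcA : c ∉ A) (hcB : c ∉ B) (hc2 : ∀ x ∈ A ∩ B, M c x = 2)
    (hc0 : ∀ x ∈ A ∪ B, x ∉ A ∩ B → M c x = 0) (hn : ∀ x ∈ A \ B, ∀ y ∈ B \ A, M x y = 0)
    (h1 : NoHom (sub M (insert c A))) (h2 : NoHom (sub M (insert c B))) :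
    NoHom (sub M (A ∪ B)) := by
  rw [← zg_iff_nohom] at h1 h2 ⊢
  exact zg_csum hcA hcB hc2 hc0 (fun x hx hx' y hy hy' =>
    hn x (mem_sdiff.2 ⟨hx, hx'⟩) y (mem_sdiff.2 ⟨hy, hy'⟩)) h1 h2

end SCG
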