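import Pool.Agent.SCG.Cox

/-!
# Project SCG (architect helper40), module Geo: the order of a product of two generators

Theorem: for `a ≠ b` the order of `gn M a * gn M b` is exactly `M a b` (`orderOf = 0` means infinite
order).  Proof by the geometric representation.  `E = V →₀ ℝ`, `α_s = single s 1`, `f_s : E →ₗ ℝ` with
`f_s α_t = 2 k s t`, `k s s = 1`, `k s t = - cos (π / M s t)` if `s ≠ t`, `M s t ≠ 0`, and `k s t = -1` if
`M s t = 0` (symmetric).  `r_s = Module.reflection` for `f_s α_s = 2`.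
Relations: `(r_s r_t) ^ (M s t) = 1`.  Clear for `s = t` and for `M s t = 0`.  If `M s t = 2`,
`f_s α_t = f_t α_s = 0` and `r_s, r_t` commute.  If `m = M s t ≥ 3`: `Module.reflection_mul_reflection_pow`
(Mathlib) with `τ = f_s α_t * f_t α_s - 2 = 4 cos² (π/m) - 2 = 2 cos θ`, `θ = 2 π / m`, `sin θ ≠ 0`, and
`S_k (2 cos θ) * sin θ = sin ((k + 1) θ)` (`Polynomial.Chebyshev.U_real_cos` or similar, `S` versus `U`).
For even `m`, `S_(m/2 - 1)(τ) = 0`; for odd `m`, `S_((m-1)/2)(τ) + S_((m-3)/2)(τ) = 2 sin (m θ / 2) cos (θ/2) /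
sin θ = 0`: both correction terms vanish (integer division in the formula).
So there is `ρ : M.Group →* (E ≃ₗ[ℝ] E)` with `ρ (gn M s) = r_s` (`M.toCoxeterSystem.lift`).
Order: let `n > 0`, `(gn a * gn b) ^ n = 1`, `m = M a b`.  Then `(r_a r_b) ^ n α_a = α_a`.
* `m ≥ 3`: `Module.reflection_mul_reflection_pow_apply_self`: the coefficient of `α_b` is
  `- S_(n-1)(τ) * f_b α_a` with `f_b α_a = - 2 cos (π/m) ≠ 0`, so `sin (n θ) = 0`; the coefficient of `α_a` is
  `S_n(τ) + S_(n-1)(τ) = S_n (τ) = sin ((n+1) θ) / sin θ = cos (n θ)` so `cos (n θ) = 1`, `n θ ∈ 2 π ℤ`, `m ∣ n`.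
* `m = 2`: `r_a r_b α_a = - α_a`, so `n` is even.
* `m = 0`: `τ = 2`, `S_k (2) = k + 1` and the coefficient of `α_b` is `2 n ≠ 0`: impossible.
* `m = 1` is impossible for `a ≠ b` (`CoxeterMatrix.off_diagonal`).
Together with `(gn a * gn b) ^ (M a b) = 1` this gives `orderOf (gn a * gn b) = M a b`.
-/

namespace SCG

variable {V : Type}

open Module Polynomial.Chebyshev

/-- The bilinear form on the basis (twice the usual one). -/
noncomputable def kk (M : CoxeterMatrix V) (s t : V) : ℝ :=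
  -2 * Real.cos (Real.pi / (M s t : ℝ))

theorem kk_self (M : CoxeterMatrix V) (s : V) : kk M s s = 2 := by
  simp [kk]

theorem kk_symm (M : CoxeterMatrix V) (s t : V) : kk M s t = kk M t s := by
  simp [kk, M.symmetric s t]

/-- The coroot of `s`. -/
noncomputable def cr (M : CoxeterMatrix V) (s : V) : Dual ℝ (V →₀ ℝ) :=
  Finsupp.linearCombination ℝ (fun t => kk M s t)

theorem cr_single (M : CoxeterMatrix V) (s t : V) :
    cr M s (Finsupp.single t 1) = kk M s t := by
  simp [cr]

theorem cr_self (M : CoxeterMatrix V) (s : V) :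
    cr M s (Finsupp.single s 1) = 2 := by
  rw [cr_single, kk_self]

/-- The reflection of `s`. -/
noncomputable def rf (M : CoxeterMatrix V) (s : V) : (V →₀ ℝ) ≃ₗ[ℝ] (V →₀ ℝ) :=
  reflection (cr_self M s)

theorem tau_eq (M : CoxeterMatrix V) (s t : V) :
    cr M s (Finsupp.single t 1) * cr M t (Finsupp.single s 1) - 2
      = 2 * Real.cos (2 * Real.pi / (M s t : ℝ)) := by
  rw [cr_single, cr_single, kk_symm M t s, kk, mul_div_assoc, Real.cos_two_mul]
  ring

theorem S_ne (m : ℕ) (hm : 3 ≤ m) : Real.sin (2 * Real.pi / (m : ℝ)) ≠ 0 := by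
  have hm' : (3 : ℝ) ≤ (m : ℝ) := by exact_mod_cast hm
  apply ne_of_gt
  apply Real.sin_pos_of_pos_of_lt_pi
  · have := Real.pi_pos
    positivity
  · rw [div_lt_iff₀ (by linarith)]
    nlinarith [Real.pi_pos]

theorem S_even {m k : ℕ} (hm : 3 ≤ m) (hk : m = 2 * k) :
    (S ℝ ((k : ℤ) - 1)).eval (2 * Real.cos (2 * Real.pi / (m : ℝ))) = 0 := by
  have h := S_two_mul_real_cos (2 * Real.pi / (m : ℝ)) ((k : ℤ) - 1)
  have h2 : Real.sin ((((k : ℤ) - 1 : ℤ) + 1) * (2 * Real.pi / (m : ℝ))) = 0 := by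
    have hk0 : (k : ℝ) ≠ 0 := by
      have : 0 < k := by omega
      positivity
    have : ((((k : ℤ) - 1 : ℤ) : ℝ) + 1) * (2 * Real.pi / (m : ℝ)) = Real.pi := by
      rw [hk]
      push_cast
      field_simp
      ring
    rw [this, Real.sin_pi]
  rw [h2] at h
  exact (mul_eq_zero.1 h).resolve_right (S_ne m hm)

theorem S_odd {m k : ℕ} (hm : 3 ≤ m) (hk : m = 2 * k + 1) :
    (S ℝ (k : ℤ)).eval (2 * Real.cos (2 * Real.pi / (m : ℝ)))
      + (S ℝ ((k : ℤ) - 1)).eval (2 * Real.cos (2 * Real.pi / (m : ℝ))) = 0 := by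
  have h := S_two_mul_real_cos (2 * Real.pi / (m : ℝ)) ((k : ℤ) - 1)
  have h' := S_two_mul_real_cos (2 * Real.pi / (m : ℝ)) (k : ℤ)
  have h2 : Real.sin ((((k : ℤ) : ℝ) + 1) * (2 * Real.pi / (m : ℝ)))
      = - Real.sin (((((k : ℤ) - 1 : ℤ) : ℝ) + 1) * (2 * Real.pi / (m : ℝ))) := by
    have hm0 : (m : ℝ) ≠ 0 := by
      have : 0 < m := by omega
      positivity
    have : (((k : ℤ) : ℝ) + 1) * (2 * Real.pi / (m : ℝ)) =
        2 * Real.pi - ((((k : ℤ) - 1 : ℤ) : ℝ) + 1) * (2 * Real.pi / (m : ℝ)) := by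
      have hmr : (m : ℝ) = 2 * k + 1 := by exact_mod_cast hk
      push_cast
      field_simp
      rw [hmr]
      ring
    rw [this, Real.sin_two_pi_sub]
  have h3 : ((S ℝ (k : ℤ)).eval (2 * Real.cos (2 * Real.pi / (m : ℝ)))
      + (S ℝ ((k : ℤ) - 1)).eval (2 * Real.cos (2 * Real.pi / (m : ℝ))))
      * Real.sin (2 * Real.pi / (m : ℝ)) = 0 := by
    rw [add_mul, h, h', h2]
    ring
  exact (mul_eq_zero.1 h3).resolve_right (S_ne m hm)

theorem rf_rel (M : CoxeterMatrix V) (s t : V) : (rf M s * rf M t) ^ M s t = 1 := by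
  classical
  by_cases hst : s = t
  · subst hst
    rw [M.diagonal, pow_one]
    ext1 z
    simp [rf, LinearEquiv.mul_apply, involutive_reflection (cr_self M s) _]
  · have h1 : M s t ≠ 1 := M.off_diagonal s t hst
    apply LinearEquiv.ext
    intro z
    rw [rf, rf, reflection_mul_reflection_pow_apply (cr_self M s) (cr_self M t) (M s t) z
      _ (tau_eq M s t).symm, LinearEquiv.coe_one, id]
    rcases Nat.lt_or_ge (M s t) 3 with h | h
    · have h' : M s t = 0 ∨ M s t = 2 := by omega
      rcases h' with h' | h'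
      · rw [h']
        simp
      · have e1 : cr M s (Finsupp.single t 1) = 0 := by
          rw [cr_single, kk, h']
          simp
        have e2 : cr M t (Finsupp.single s 1) = 0 := by
          rw [cr_single, kk_symm, kk, h']
          simp
        rw [h', e1, e2]
        norm_num [S_eval_neg_two]
        module
    · rcases Nat.even_or_odd' (M s t) with ⟨k, hk | hk⟩
      · have e1 : ((M s t : ℤ) - 2) / 2 = (k : ℤ) - 1 := by omega
        have e2 : ((M s t : ℤ) - 1) / 2 = (k : ℤ) - 1 := by omega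
        rw [e1, e2, S_even h hk]
        simp
      · have e1 : ((M s t : ℤ) - 2) / 2 = (k : ℤ) - 1 := by omega
        have e2 : ((M s t : ℤ) - 1) / 2 = (k : ℤ) := by omega
        have e3 : ((M s t : ℤ) - 3) / 2 = (k : ℤ) - 1 := by omega
        have e4 : ((M s t : ℤ)) / 2 = (k : ℤ) := by omega
        rw [e1, e2, e3, e4, S_odd h hk]
        simp

/-- The geometric representation. -/
noncomputable def geo (M : CoxeterMatrix V) : M.Group →* ((V →₀ ℝ) ≃ₗ[ℝ] (V →₀ ℝ)) :=
  M.toCoxeterSystem.lift ⟨rf M, fun s t => rf_rel M s t⟩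

theorem geo_gn (M : CoxeterMatrix V) (s : V) : geo M (gn M s) = rf M s :=
  M.toCoxeterSystem.lift_apply_simple _ s

theorem dvd_of_pow (M : CoxeterMatrix V) {a b : V} (hab : a ≠ b) (n : ℕ)
    (h : (rf M a * rf M b) ^ n = 1) : M a b ∣ n := by
  classical
  have h0 : ((rf M a * rf M b) ^ n) (Finsupp.single a 1) = Finsupp.single a 1 := by
    rw [h]
    simp
  rw [rf, rf, reflection_mul_reflection_pow_apply_self (cr_self M a) (cr_self M b) n
    _ (tau_eq M a b).symm] at h0
  have hcr : cr M b (Finsupp.single a 1) = -2 * Real.cos (Real.pi / (M a b : ℝ)) := by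
    rw [cr_single, kk_symm, kk]
  rw [hcr] at h0
  have ha := DFunLike.congr_fun h0 a
  have hb := DFunLike.congr_fun h0 b
  simp only [Finsupp.add_apply, Finsupp.smul_apply, Finsupp.single_eq_same,
    Finsupp.single_eq_of_ne hab, Finsupp.single_eq_of_ne hab.symm, smul_eq_mul, mul_one,
    mul_zero, add_zero, zero_add] at ha hb
  have h1 : M a b ≠ 1 := M.off_diagonal a b hab
  rcases Nat.lt_or_ge (M a b) 3 with h | h
  · have h' : M a b = 0 ∨ M a b = 2 := by omega
    rcases h' with h' | h'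
    · rw [h'] at ha hb
      simp at ha hb
      rw [h', hb]
    · rw [h'] at ha hb ⊢
      have e : 2 * Real.cos (2 * Real.pi / ((2 : ℕ) : ℝ)) = -2 := by
        norm_num
      rw [e, S_eval_neg_two, S_eval_neg_two] at ha
      by_contra hc
      have hn : Odd n := by
        rw [← Nat.not_even_iff_odd, even_iff_two_dvd]
        exact hc
      have hz : Odd (n : ℤ) := by exact_mod_cast hn
      have hz' : Even ((n : ℤ) - 1) := by
        obtain ⟨j, hj⟩ := hz
        exact ⟨j, by omega⟩
      rw [Int.negOnePow_odd _ hz, Int.negOnePow_even _ hz'] at ha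
      push_cast at ha
      norm_num at ha
  · have hm0 : (M a b : ℝ) ≠ 0 := by
      have : 0 < M a b := by omega
      positivity
    have hcos : Real.cos (Real.pi / (M a b : ℝ)) ≠ 0 := by
      apply ne_of_gt
      have hm' : (3 : ℝ) ≤ (M a b : ℝ) := by exact_mod_cast h
      apply Real.cos_pos_of_mem_Ioo
      constructor
      · have : 0 < Real.pi / (M a b : ℝ) := by
          have := Real.pi_pos
          positivity
        linarith [Real.pi_pos]
      · rw [div_lt_div_iff₀ (by linarith) (by norm_num)]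
        nlinarith [Real.pi_pos]
    have hS : (S ℝ ((n : ℤ) - 1)).eval (2 * Real.cos (2 * Real.pi / (M a b : ℝ))) = 0 := by
      rcases mul_eq_zero.1 hb with h2 | h2
      · exact h2
      · exfalso
        apply hcos
        linarith
    rw [hS, add_zero] at ha
    have g1 := S_two_mul_real_cos (2 * Real.pi / (M a b : ℝ)) ((n : ℤ) - 1)
    have g2 := S_two_mul_real_cos (2 * Real.pi / (M a b : ℝ)) (n : ℤ)
    rw [hS, zero_mul] at g1
    rw [ha, one_mul] at g2
    push_cast at g1 g2
    rw [sub_add_cancel] at g1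
    rw [add_mul, one_mul, Real.sin_add, ← g1, zero_mul, zero_add] at g2
    have g3 : Real.cos (n * (2 * Real.pi / (M a b : ℝ))) = 1 := by
      exact mul_right_cancel₀ (S_ne (M a b) h) (by rw [one_mul]; exact g2.symm)
    obtain ⟨k, hk⟩ := (Real.cos_eq_one_iff _).1 g3
    have hk' : (k : ℝ) * (M a b : ℝ) = n := by
      have hpi := Real.pi_ne_zero
      field_simp at hk
      linarith
    have hk2 : k * (M a b : ℤ) = n := by exact_mod_cast hk'
    have : (M a b : ℤ) ∣ (n : ℤ) := ⟨k, by rw [← hk2]; ring⟩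
    exact_mod_cast this

theorem orderOf_gn (M : CoxeterMatrix V) {a b : V} (hab : a ≠ b) :
    orderOf (gn M a * gn M b) = M a b := by
  apply Nat.dvd_antisymm
  · exact orderOf_dvd_of_pow_eq_one (M.toCoxeterSystem.simple_mul_simple_pow a b)
  · apply dvd_of_pow M hab
    rw [← geo_gn, ← geo_gn, ← map_mul, ← map_pow, pow_orderOf_eq_one, map_one]

end SCG
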