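import Pool.Agent.SCG.Loc

/-!
# Project SCG (architect helper40), module Cone1: harmonic chains of cones
-/

namespace SCG

open SNG Finset SCS
open scoped InnerProductSpace

/-- A cone over a spherical set is spherical. -/
theorem sph_insert {V : Type} [DecidableEq V] {G : CoxeterMatrix V} {T : Finset V} {c : V}
    (hc : ∀ y ∈ T, G c y = 2) (hT : Sph G T) : Sph G (insert c T) := by
  have h1 : ∀ x ∈ WT G ((insert c T : Finset V) : Set V),
      x ∈ (WT G (T : Set V) : Set G.Group) ∪ (fun y => y * gn G c) '' (WT G (T : Set V) : Set G.Group) := by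
    have hcom : ∀ x ∈ WT G (T : Set V), x * gn G c = gn G c * x := by
      intro x hx
      refine Subgroup.closure_induction (p := fun x _ => x * gn G c = gn G c * x) ?_ ?_ ?_ ?_ hx
      · rintro _ ⟨s, hs, rfl⟩
        exact (gn_comm (hc s (Finset.mem_coe.1 hs))).symm
      · rw [one_mul, mul_one]
      · intro a b _ _ ha hb
        rw [mul_assoc, hb, ← mul_assoc, ha, mul_assoc]
      · intro a _ ha
        have h2 : a⁻¹ * (a * gn G c) * a⁻¹ = a⁻¹ * (gn G c * a) * a⁻¹ := by rw [ha]
        rw [← mul_assoc, inv_mul_cancel, one_mul, ← mul_assoc, mul_assoc _ a, mul_inv_cancel,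
          mul_one] at h2
        exact h2.symm
    intro x hx
    refine Subgroup.closure_induction (p := fun x _ =>
      x ∈ (WT G (T : Set V) : Set G.Group) ∪
        (fun y => y * gn G c) '' (WT G (T : Set V) : Set G.Group)) ?_ ?_ ?_ ?_ hx
    · rintro _ ⟨s, hs, rfl⟩
      rcases Finset.mem_insert.1 (Finset.mem_coe.1 hs) with h2 | h2
      · right
        exact ⟨1, Subgroup.one_mem _, by rw [h2]; exact one_mul _⟩
      · left
        exact Subgroup.subset_closure ⟨s, Finset.mem_coe.2 h2, rfl⟩
    · left
      exact Subgroup.one_mem _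
    · intro a b _ _ ha hb
      rcases ha with ha | ⟨a', ha, rfl⟩ <;> rcases hb with hb | ⟨b', hb, rfl⟩
      · left
        exact Subgroup.mul_mem _ ha hb
      · right
        exact ⟨a * b', Subgroup.mul_mem _ ha hb, mul_assoc _ _ _⟩
      · right
        refine ⟨a' * b, Subgroup.mul_mem _ ha hb, ?_⟩
        change a' * b * gn G c = a' * gn G c * b
        rw [mul_assoc, hcom b hb, mul_assoc]
      · left
        have e : a' * gn G c * (b' * gn G c) = a' * b' := by
          rw [hcom b' hb, mul_assoc, ← mul_assoc (gn G c), gn_mul_self, one_mul]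
        change a' * gn G c * (b' * gn G c) ∈ _
        rw [e]
        exact Subgroup.mul_mem _ ha hb
    · intro a _ ha
      rcases ha with ha | ⟨a', ha, rfl⟩
      · left
        exact Subgroup.inv_mem _ ha
      · right
        refine ⟨a'⁻¹, Subgroup.inv_mem _ ha, ?_⟩
        change a'⁻¹ * gn G c = (a' * gn G c)⁻¹
        rw [mul_inv_rev, gn_inv, hcom _ (Subgroup.inv_mem _ ha)]
  exact Set.Finite.subset (Set.Finite.union hT (Set.Finite.image _ hT)) h1

variable {V : Type} [Fintype V] [LinearOrder V] {G : CoxeterMatrix V}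

omit [Fintype V] in
private theorem sg_insert' {T : Finset V} {x s : V} (hx : x ∉ T) :
    sg (insert x T) s = if x < s then - sg T s else sg T s := by
  unfold sg
  rw [Finset.filter_insert]
  split_ifs with h
  · rw [Finset.card_insert_of_notMem (fun h1 => hx (Finset.mem_filter.1 h1).1), pow_succ]
    ring
  · rfl

omit [Fintype V] in
private theorem sg_sq' (T : Finset V) (s : V) : sg T s * sg T s = 1 := by
  unfold sg
  rw [← pow_add, ← two_mul, pow_mul]
  norm_num

omit [Fintype V] in
private theorem sg_swap' {T' : Finset V} {s c : V} (hs : s ∉ T') (hc : c ∉ T') (hsc : s ≠ c) :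
    sg (insert c T') s * sg (insert s T') c = - (sg T' s * sg T' c) := by
  rw [sg_insert' hc, sg_insert' hs]
  rcases lt_or_gt_of_ne hsc with h | h
  · rw [if_neg (not_lt.2 h.le), if_pos h]
    ring
  · rw [if_pos h, if_neg (not_lt.2 h.le)]
    ring

/-- the homotopy -/
private theorem hom_ok (c : V) : PullOk (fun q : Finset V × G.Group => (q.1.erase c, q.2))
    (fun q => if c ∈ q.1 then sg (q.1.erase c) c else 0) := by
  refine ⟨fun q => ?_, fun x y hx hy h => ?_⟩
  · change |if c ∈ q.1 then sg (q.1.erase c) c else 0| ≤ 1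
    split_ifs
    · exact (abs_sg _ _).le
    · simp
  · have hx' : c ∈ x.1 := by
      by_contra h1
      exact hx (if_neg h1)
    have hy' : c ∈ y.1 := by
      by_contra h1
      exact hy (if_neg h1)
    change (x.1.erase c, x.2) = (y.1.erase c, y.2) at h
    obtain ⟨h1, h2⟩ := Prod.mk.injEq .. ▸ h
    refine Prod.ext ?_ h2
    rw [← Finset.insert_erase hx', ← Finset.insert_erase hy', h1]

private theorem diff_mem {Y : Finset V} {c : V} (hc : ∀ y ∈ Y, G c y = 2) {j : ℕ}
    {f : HW G} (hf : f ∈ HH G (insert c Y) j) : f - rt (gn G c) f ∈ HH G (insert c Y) j := by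
  refine Submodule.sub_mem _ hf (rt_HH' (fun s hs => ?_) hf)
  rcases Finset.mem_insert.1 hs with rfl | hs
  · rfl
  · exact (gn_comm (hc s hs)).symm

private theorem bd0 {f : HW G} (h : bD G f = 0) (T : Finset V) (g : G.Group) :
    bdry (fun T g => f (T, g)) T g = 0 := by
  rw [← bD_apply, h]
  rfl

private theorem diff_zero {Y : Finset V} {c : V} (hcY : c ∉ Y) (hc : ∀ y ∈ Y, G c y = 2) {j : ℕ}
    {f : HW G} (hf : f ∈ HH G (insert c Y) j) : f - rt (gn G c) f = 0 := by
  obtain ⟨h, hh⟩ : ∃ h : HW G, h = f - rt (gn G c) f := ⟨_, rfl⟩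
  have hH : h ∈ HH G (insert c Y) j := by
    rw [hh]
    exact diff_mem hc hf
  have h2 := bd0 (mem_kr.1 hH.1.2)
  obtain ⟨a1, a2⟩ := mem_CC.1 hH.1.1
  -- behaviour under `c`
  have hcc : ∀ T g, h (T, g * gn G c) = - h (T, g) := by
    intro T g
    rw [hh, ell_sub, ell_sub, rt_apply, rt_apply]
    show f (T, g * gn G c) - f (T, g * gn G c * gn G c) = - (f (T, g) - f (T, g * gn G c))
    rw [mul_assoc, gn_mul_self, mul_one]
    ring
  obtain ⟨k, hk⟩ : ∃ k : HW G, ∀ U g, k (U, g) =
      if c ∈ U then sg (U.erase c) c * h (U.erase c, g) else 0 := by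
    refine ⟨pull (fun q : Finset V × G.Group => (q.1.erase c, q.2))
      (fun q => if c ∈ q.1 then sg (q.1.erase c) c else 0) h, fun U g => ?_⟩
    rw [pull_apply (hom_ok c)]
    split_ifs with hU
    · rfl
    · exact zero_mul _
  have hkC : k ∈ CC G (insert c Y) (j + 1) := by
    refine mem_CC.2 ⟨?_, ?_⟩
    · intro U hU g
      rw [hk]
      split_ifs with hcU
      · rw [a1 (U.erase c), mul_zero]
        rintro ⟨b1, b2, b3⟩
        apply hU
        have b4 : U.erase c ⊆ Y := by
          intro x hx
          rcases Finset.mem_insert.1 (b1 hx) with h4 | h4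
          · exact absurd h4 (Finset.ne_of_mem_erase hx)
          · exact h4
        refine ⟨?_, ?_, ?_⟩
        · rw [← Finset.insert_erase hcU]
          exact Finset.insert_subset_insert c b4
        · rw [← Finset.insert_erase hcU]
          exact sph_insert (fun y hy => hc y (b4 hy)) b2
        · rw [← Finset.insert_erase hcU, Finset.card_insert_of_notMem (Finset.notMem_erase _ _), b3]
      · rfl
    · intro U s hs g
      rw [hk, hk]
      split_ifs with hcU
      · by_cases hsc : s = c
        · rw [hsc, hcc]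
          ring
        · rw [a2 (U.erase c) s (Finset.mem_erase.2 ⟨hsc, hs⟩)]
          ring
      · rw [neg_zero]
  have hbk : bD G k = h := by
    refine ell_ext fun q => ?_
    obtain ⟨T, g⟩ := q
    rw [bD_apply]
    unfold bdry
    by_cases hcT : c ∈ T
    · have hT : insert c (T.erase c) = T := Finset.insert_erase hcT
      have hcT' : c ∉ T.erase c := Finset.notMem_erase _ _
      have e1 : ∀ s ∈ Tᶜ, sg T s * k (insert s T, g) =
          - sg (T.erase c) c * (sg (T.erase c) s * h (insert s (T.erase c), g)) := by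
        intro s hs
        have hsT : s ∉ T := Finset.mem_compl.1 hs
        have hsc : s ≠ c := fun h4 => hsT (h4 ▸ hcT)
        have hsT' : s ∉ T.erase c := fun h4 => hsT (Finset.mem_of_mem_erase h4)
        have e2 : (insert s T).erase c = insert s (T.erase c) :=
          Finset.erase_insert_of_ne hsc
        rw [hk, if_pos (Finset.mem_insert_of_mem hcT), e2]
        have e3 := sg_swap' hsT' hcT' hsc
        rw [hT] at e3
        calc sg T s * (sg (insert s (T.erase c)) c * h (insert s (T.erase c), g))
            = (sg T s * sg (insert s (T.erase c)) c) * h (insert s (T.erase c), g) := by ring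
          _ = _ := by rw [e3]; ring
      rw [Finset.sum_congr rfl e1, ← Finset.mul_sum]
      have e4 := h2 (T.erase c) g
      unfold bdry at e4
      have e5 : (T.erase c)ᶜ = insert c Tᶜ := by
        rw [Finset.compl_erase]
      rw [e5, Finset.sum_insert (by simpa using hcT), hT] at e4
      have e6 : ∑ s ∈ Tᶜ, sg (T.erase c) s * h (insert s (T.erase c), g) =
          - (sg (T.erase c) c * h (T, g)) := by linarith
      rw [e6]
      calc - sg (T.erase c) c * - (sg (T.erase c) c * h (T, g))
          = (sg (T.erase c) c * sg (T.erase c) c) * h (T, g) := by ring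
        _ = h (T, g) := by rw [sg_sq', one_mul]
    · rw [Finset.sum_eq_single c]
      · show sg T c * k (insert c T, g) = h (T, g)
        rw [hk, if_pos (Finset.mem_insert_self _ _), Finset.erase_insert hcT, ← mul_assoc, sg_sq',
          one_mul]
      · intro s _ hsc
        show sg T s * k (insert s T, g) = 0
        rw [hk, if_neg, mul_zero]
        intro h4
        rcases Finset.mem_insert.1 h4 with h4 | h4
        · exact hsc h4.symm
        · exact hcT h4
      · intro h4
        exact absurd (Finset.mem_compl.2 hcT) h4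
  have horth : ⟪bD G k, h⟫_ℝ = 0 := (Submodule.mem_orthogonal _ _).1 hH.2 _ ⟨k, hkC, rfl⟩
  rw [hbk] at horth
  rw [← hh]
  exact inner_self_eq_zero.1 horth

theorem hh_cone_iff {Y : Finset V} {c : V} (hcY : c ∉ Y) (hc : ∀ y ∈ Y, G c y = 2) {j : ℕ}
    {f : HW G} : f ∈ HH G (insert c Y) j ↔ f ∈ HH G Y j ∧ rt (gn G c) f = f := by
  constructor
  · intro hf
    have hR : rt (gn G c) f = f := (sub_eq_zero.1 (diff_zero hcY hc hf)).symm
    refine ⟨?_, hR⟩
    obtain ⟨a1, a2⟩ := mem_CC.1 hf.1.1
    refine ⟨⟨mem_CC.2 ⟨?_, a2⟩, hf.1.2⟩, ?_⟩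
    · intro T hT g
      by_cases hT2 : T ⊆ insert c Y ∧ Sph G T ∧ T.card = j
      · have hcT : c ∈ T := by
          by_contra hcT
          apply hT
          refine ⟨fun x hx => ?_, hT2.2⟩
          rcases Finset.mem_insert.1 (hT2.1 hx) with h4 | h4
          · exact absurd (h4 ▸ hx) hcT
          · exact h4
        have e1 := a2 T c hcT g
        have e2 : f (T, g * gn G c) = f (T, g) := by
          have e3 := rt_apply (gn G c) f (T, g)
          rw [hR] at e3
          exact e3.symm
        rw [e2] at e1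
        linarith
      · exact a1 T hT2 g
    · have h3 := hf.2
      rw [SetLike.mem_coe, Submodule.mem_orthogonal'] at h3 ⊢
      intro y hy
      obtain ⟨x, hx, rfl⟩ := mem_im.1 hy
      exact h3 _ (mem_im.2 ⟨x, CC_mono (Finset.subset_insert _ _) _ hx, rfl⟩)
  · rintro ⟨hf, hR⟩
    refine ⟨⟨CC_mono (Finset.subset_insert _ _) j hf.1.1, hf.1.2⟩, ?_⟩
    have h3 := hf.2
    rw [SetLike.mem_coe, Submodule.mem_orthogonal'] at h3 ⊢
    intro y hy
    obtain ⟨h, hh, rfl⟩ := mem_im.1 hy
    have hcomm : ∀ s ∈ insert c Y, gn G s * gn G c = gn G c * gn G s := by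
      intro s hs
      rcases Finset.mem_insert.1 hs with rfl | hs
      · rfl
      · exact (gn_comm (hc s hs)).symm
    have h4 : h + rt (gn G c) h ∈ CC G Y (j + 1) := by
      obtain ⟨b1, b2⟩ := mem_CC.1 (Submodule.add_mem _ hh (rt_CC' hcomm hh))
      refine mem_CC.2 ⟨fun T hT g => ?_, b2⟩
      by_cases hT2 : T ⊆ insert c Y ∧ Sph G T ∧ T.card = j + 1
      · have hcT : c ∈ T := by
          by_contra hcT
          apply hT
          refine ⟨fun x hx => ?_, hT2.2⟩
          rcases Finset.mem_insert.1 (hT2.1 hx) with h4 | h4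
          · exact absurd (h4 ▸ hx) hcT
          · exact h4
        rw [ell_add, rt_apply]
        have e1 := (mem_CC.1 hh).2 T c hcT g
        change h (T, g) + h (T, g * gn G c) = 0
        rw [e1]
        ring
      · exact b1 T hT2 g
    have h5 := h3 _ (mem_im.2 ⟨_, h4, rfl⟩)
    have h6 : bD G (h + rt (gn G c) h) = bD G h + rt (gn G c) (bD G h) := by
      rw [map_add, bD_rt]
    change ⟪f, bD G (h + rt (gn G c) h)⟫_ℝ = 0 at h5
    rw [h6, inner_add_right, ← rt_symm, hR] at h5
    change ⟪f, bD G h⟫_ℝ = 0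
    linarith

end SCG
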