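import Mathlib

/-!
# Project SCG (architect helper40): Coxeter groups, first definitions

`M` a Coxeter matrix on the set `V` (`M s t = 0` stands for `∞`), `M.Group` the Coxeter group,
`gn M s` its generators, `WT M T` the subgroup generated by `T`, `Sph M T`: this subgroup is finite.
-/

namespace SCG

variable {V : Type}

/-- The generators of the Coxeter group. -/
noncomputable abbrev gn (M : CoxeterMatrix V) (s : V) : M.Group := M.toCoxeterSystem.simple s

/-- The subgroup generated by `T`. -/
noncomputable def WT (M : CoxeterMatrix V) (T : Set V) : Subgroup M.Group :=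
  Subgroup.closure (gn M '' T)

/-- The finite set `T` generates a finite subgroup (`T` is a simplex of the nerve, or empty). -/
def Sph (M : CoxeterMatrix V) (T : Finset V) : Prop :=
  (WT M (T : Set V) : Set M.Group).Finite

theorem gn_mul_self (M : CoxeterMatrix V) (s : V) : gn M s * gn M s = 1 :=
  M.toCoxeterSystem.simple_mul_simple_self s

theorem gn_inv (M : CoxeterMatrix V) (s : V) : (gn M s)⁻¹ = gn M s :=
  M.toCoxeterSystem.inv_simple s

theorem gn_comm {M : CoxeterMatrix V} {s t : V} (h : M s t = 2) :
    gn M s * gn M t = gn M t * gn M s := by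
  have h1 : (gn M s * gn M t) ^ (M s t) = 1 := M.toCoxeterSystem.simple_mul_simple_pow s t
  rw [h, pow_two] at h1
  have h2 : gn M s * gn M t = (gn M s * gn M t)⁻¹ := eq_inv_of_mul_eq_one_left h1
  rw [h2, mul_inv_rev, gn_inv, gn_inv]

end SCG
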