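import Pool.Agent.SNG.Core
import Pool.Agent.SCG.Cox

/-!
# Project SCG (architect helper40): the reduced square summable homology of the Davis complex

The definitions used in the statements of the theorems.
-/

namespace SCG

open SNG

/-- Square summable cellular `j`-chains of the Davis complex of the Coxeter system `M`.  The cells of
dimension `j` are the cosets `g W_T`, where `T` has `j` elements and generates a finite group (`Sph`); the
cell, oriented by its vertex `g` and the ordered set `T`, changes its sign when `g` is replaced by `g s`,
`s ∈ T`. -/
structure SqCh {V : Type} (M : CoxeterMatrix V) (j : ℕ) (f : Finset V → M.Group → ℝ) : Prop where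
  supp : ∀ T, ¬ (Sph M T ∧ T.card = j) → ∀ g, f T g = 0
  alt : ∀ T, ∀ s ∈ T, ∀ g, f T (g * gn M s) = - f T g
  sq : ∀ T, Summable fun g => f T g ^ 2

/-- The reduced square summable homology (cycles modulo the closure of the boundaries) of the Davis
complex of the Coxeter system `M` is zero in all degrees: every square summable cycle is a limit of
boundaries of square summable chains.  (`bdry` is the cellular boundary.) -/
def NoHom {V : Type} [Fintype V] [LinearOrder V] (M : CoxeterMatrix V) : Prop :=
  ∀ (j : ℕ) (f : Finset V → M.Group → ℝ), SqCh M j f → (∀ T g, bdry f T g = 0) → ∀ ε : ℝ, 0 < ε →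
    ∃ h, SqCh M (j + 1) h ∧ ∑ T : Finset V, ∑' g, (f T g - bdry h T g) ^ 2 < ε

/-- The Coxeter matrix restricted to `S`. -/
def sub {V : Type} (M : CoxeterMatrix V) (S : Finset V) : CoxeterMatrix {x // x ∈ S} where
  M := Matrix.of fun x y => M x.1 y.1
  isSymm := by
    ext x y
    exact M.symmetric y.1 x.1
  diagonal x := M.diagonal x.1
  off_diagonal x y h := M.off_diagonal x.1 y.1 fun h1 => h (Subtype.ext h1)

open Classical in
/-- Contraction of `t` into `s` (to be restricted to the vertices different from `t`): the label of `s`
and `x` is `2` if one of `s, t` has label `2` with `x`, and `∞` otherwise. -/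
noncomputable def cM {V : Type} (M : CoxeterMatrix V) (s t : V) : CoxeterMatrix V where
  M := Matrix.of fun x y => if x = y then 1
    else if x = s then (if M s y = 2 ∨ M t y = 2 then 2 else 0)
    else if y = s then (if M s x = 2 ∨ M t x = 2 then 2 else 0) else M x y
  isSymm := by
    ext x y
    change (if y = x then 1 else if y = s then (if M s x = 2 ∨ M t x = 2 then 2 else 0)
        else if x = s then (if M s y = 2 ∨ M t y = 2 then 2 else 0) else M y x) =
      (if x = y then 1 else if x = s then (if M s y = 2 ∨ M t y = 2 then 2 else 0)
        else if y = s then (if M s x = 2 ∨ M t x = 2 then 2 else 0) else M x y)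
    by_cases h : x = y
    · rw [if_pos h, if_pos h.symm]
    · rw [if_neg h, if_neg (Ne.symm h)]
      by_cases h1 : x = s
      · by_cases h2 : y = s
        · exact absurd (h1.trans h2.symm) h
        · rw [if_neg h2, if_pos h1, if_pos h1]
      · by_cases h2 : y = s
        · rw [if_pos h2, if_neg h1, if_pos h2]
        · rw [if_neg h2, if_neg h1, if_neg h1, if_neg h2, M.symmetric]
  diagonal x := if_pos rfl
  off_diagonal x y h := by
    change (if x = y then 1 else if x = s then (if M s y = 2 ∨ M t y = 2 then 2 else 0)
        else if y = s then (if M s x = 2 ∨ M t x = 2 then 2 else 0) else M x y) ≠ 1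
    rw [if_neg h]
    split_ifs
    · norm_num
    · norm_num
    · norm_num
    · norm_num
    · exact M.off_diagonal x y h

end SCG
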