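import Pool.Agent.SCG.Hom
import Pool.Agent.SCS.Contr

/-!
# Project SCG (architect helper40), module Contr: the contraction theorem

`M` a Coxeter matrix, `gr M` the graph of all pairs with finite label, `s t` an edge of `(S, gr M)` with
label `2` in no induced 4-cycle, all finite labels of `s` and of `t` in `S` are `2`.  If the homology vanishes
for the link of `s t` and for the contraction (`cM M s t` on `S.erase t`), it vanishes for `S`.  The proof is
the one of `SCS.zf_contr`; `CM` are the labels on the auxiliary graph `SCS.CG`.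
-/

namespace SCG

open SNG Finset SCS

/-- The graph of the finite labels. -/
def gr {V : Type} (M : CoxeterMatrix V) : SimpleGraph V where
  Adj x y := x ≠ y ∧ M x y ≠ 0
  symm := ⟨fun x y h => ⟨h.1.symm, by rw [M.symmetric]; exact h.2⟩⟩
  loopless := ⟨fun x h => h.1 rfl⟩

open Classical in
theorem cM_left {V : Type} (M : CoxeterMatrix V) {s t x : V} (h : s ≠ x) :
    cM M s t s x = if M s x = 2 ∨ M t x = 2 then 2 else 0 := by
  change (if s = x then 1 else if s = s then (if M s x = 2 ∨ M t x = 2 then 2 else 0)
    else if x = s then (if M s s = 2 ∨ M t s = 2 then 2 else 0) else M s x) = _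
  rw [if_neg h, if_pos rfl]

theorem cM_ne {V : Type} (M : CoxeterMatrix V) {s t x y : V} (hx : x ≠ s) (hy : y ≠ s) :
    cM M s t x y = M x y := by
  classical
  change (open Classical in (if x = y then 1
    else if x = s then (if M s y = 2 ∨ M t y = 2 then 2 else 0)
    else if y = s then (if M s x = 2 ∨ M t x = 2 then 2 else 0) else M x y)) = M x y
  by_cases g : x = y
  · rw [if_pos g, g]
    exact (M.diagonal y).symm
  · rw [if_neg g, if_neg hx, if_neg hy]

open Classical in
/-- the labels on the auxiliary graph -/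
private noncomputable def cf {V : Type} (M : CoxeterMatrix V) (s t : V) : Option V → Option V → ℕ
  | some x, some y => M x y
  | some x, none => if (CG (gr M) s t).Adj (some x) none then 2 else 0
  | none, some x => if (CG (gr M) s t).Adj none (some x) then 2 else 0
  | none, none => 1

private noncomputable def CM {V : Type} (M : CoxeterMatrix V) (s t : V) :
    CoxeterMatrix (Option V) where
  M := Matrix.of fun u v => cf M s t u v
  isSymm := by
    ext u v
    rcases u with _ | x <;> rcases v with _ | y
    · rfl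
    · rfl
    · rfl
    · exact M.symmetric y x
  diagonal u := by
    rcases u with _ | x
    · rfl
    · exact M.diagonal x
  off_diagonal u v h := by
    classical
    rcases u with _ | x <;> rcases v with _ | y
    · exact absurd rfl h
    · change (if (CG (gr M) s t).Adj none (some y) then 2 else 0) ≠ 1
      split_ifs <;> norm_num
    · change (if (CG (gr M) s t).Adj (some x) none then 2 else 0) ≠ 1
      split_ifs <;> norm_num
    · exact M.off_diagonal x y fun h1 => h (congrArg _ h1)

private theorem cm_zero {V : Type} {M : CoxeterMatrix V} {s t : V} {u v : Option V} (h : u ≠ v)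
    (hn : ¬ (CG (gr M) s t).Adj u v) : CM M s t u v = 0 := by
  rcases u with _ | x <;> rcases v with _ | y
  · exact absurd rfl h
  · exact if_neg hn
  · exact if_neg hn
  · by_contra h1
    exact hn ⟨fun e => h (congrArg _ e), h1⟩

private theorem cm_none {V : Type} {M : CoxeterMatrix V} {s t : V} {v : Option V}
    (h : (CG (gr M) s t).Adj none v) : CM M s t none v = 2 := by
  rcases v with _ | y
  · exact h.elim
  · exact if_pos h

variable {V : Type} [DecidableEq V]

open Classical in
/-- the set with `none` iff `b` and `some x` iff `x ∈ S` and `p x` -/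
private noncomputable def FS (S : Finset V) (b : Prop) (p : V → Prop) : Finset (Option V) :=
  (S.filter p).image some ∪ (if b then {none} else ∅)

private theorem mem_none {S : Finset V} {b : Prop} {p : V → Prop} : none ∈ FS S b p ↔ b := by
  unfold FS
  by_cases h : b <;> simp [h]

private theorem mem_some {S : Finset V} {b : Prop} {p : V → Prop} {x : V} :
    some x ∈ FS S b p ↔ x ∈ S ∧ p x := by
  unfold FS
  by_cases h : b <;> simp [h]

private theorem noe' {H : SimpleGraph (Option V)} {K : CoxeterMatrix (Option V)}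
    (hz : ∀ u v, u ≠ v → ¬ H.Adj u v → K u v = 0) {A B : Finset (Option V)}
    (hn : SCS.NoE H A B) : NoE K A B := by
  intro x hx hx' y hy hy'
  exact hz x y (fun e => hx' (e ▸ hy)) (hn x hx hx' y hy hy')

private theorem mv_fs {H : SimpleGraph (Option V)} {K : CoxeterMatrix (Option V)}
    (hz : ∀ u v, u ≠ v → ¬ H.Adj u v → K u v = 0) {S : Finset V} {b b1 b2 b3 : Prop}
    {p p1 p2 p3 : V → Prop} (h1 : ZG K (FS S b1 p1)) (h2 : ZG K (FS S b2 p2))
    (h3 : ZG K (FS S b3 p3)) (hn : SCS.NoE H (FS S b1 p1) (FS S b2 p2)) (hb3 : b3 ↔ b1 ∧ b2)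
    (hp3 : ∀ x ∈ S, p3 x ↔ p1 x ∧ p2 x) (hb : b ↔ b1 ∨ b2)
    (hp : ∀ x ∈ S, p x ↔ p1 x ∨ p2 x) : ZG K (FS S b p) := by
  have e3 : FS S b3 p3 = FS S b1 p1 ∩ FS S b2 p2 := by
    ext x
    rw [mem_inter]
    rcases x with _ | x
    · rw [mem_none, mem_none, mem_none]
      exact hb3
    · rw [mem_some, mem_some, mem_some]
      constructor
      · rintro ⟨g1, g2⟩
        exact ⟨⟨g1, ((hp3 x g1).1 g2).1⟩, ⟨g1, ((hp3 x g1).1 g2).2⟩⟩
      · rintro ⟨⟨g1, g2⟩, ⟨_, g3⟩⟩
        exact ⟨g1, (hp3 x g1).2 ⟨g2, g3⟩⟩
  have e : FS S b p = FS S b1 p1 ∪ FS S b2 p2 := by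
    ext x
    rw [mem_union]
    rcases x with _ | x
    · rw [mem_none, mem_none, mem_none]
      exact hb
    · rw [mem_some, mem_some, mem_some]
      constructor
      · rintro ⟨g1, g2⟩
        rcases (hp x g1).1 g2 with g3 | g3
        · exact Or.inl ⟨g1, g3⟩
        · exact Or.inr ⟨g1, g3⟩
      · rintro (⟨g1, g2⟩ | ⟨g1, g2⟩)
        · exact ⟨g1, (hp x g1).2 (Or.inl g2)⟩
        · exact ⟨g1, (hp x g1).2 (Or.inr g2)⟩
  rw [e3] at h3
  rw [e]
  exact zg_mv (noe' hz hn) h1 h2 h3

private theorem cone_fs {H : SimpleGraph (Option V)} {K : CoxeterMatrix (Option V)}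
    {S : Finset V} {c : V} (hc2 : ∀ y ∈ S, H.Adj (some c) (some y) → K (some c) (some y) = 2)
    (hcS : c ∈ S) {p p' : V → Prop} (h : ZG K (FS S False p)) (hc : ¬ p c)
    (ha : ∀ y ∈ S, p y → H.Adj (some c) (some y)) (hp : ∀ x ∈ S, p' x ↔ x = c ∨ p x) :
    ZG K (FS S False p') := by
  have e : FS S False p' = insert (some c) (FS S False p) := by
    ext x
    rw [mem_insert]
    rcases x with _ | x
    · rw [mem_none, mem_none]
      simp
    · rw [mem_some, mem_some, Option.some_inj]
      constructor
      · rintro ⟨g1, g2⟩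
        rcases (hp x g1).1 g2 with g3 | g3
        · exact Or.inl g3
        · exact Or.inr ⟨g1, g3⟩
      · rintro (g1 | ⟨g1, g2⟩)
        · rw [g1]
          exact ⟨hcS, (hp c hcS).2 (Or.inl rfl)⟩
        · exact ⟨g1, (hp x g1).2 (Or.inr g2)⟩
  rw [e]
  refine zg_cone ?_ ?_ h
  · rw [mem_some]
    exact fun g => hc g.2
  · intro y hy
    rcases y with _ | y
    · exact (mem_none.1 hy).elim
    · exact hc2 y (mem_some.1 hy).1 (ha y (mem_some.1 hy).1 (mem_some.1 hy).2)

private theorem susp_fs {H : SimpleGraph (Option V)} {K : CoxeterMatrix (Option V)}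
    (hz : ∀ u v, u ≠ v → ¬ H.Adj u v → K u v = 0)
    (hn2 : ∀ v, H.Adj none v → K none v = 2) {S : Finset V} {c : V}
    (hc2 : ∀ y ∈ S, H.Adj (some c) (some y) → K (some c) (some y) = 2) (hcS : c ∈ S)
    {p p' : V → Prop} (hc : ¬ p c) (hn : ¬ H.Adj (some c) none)
    (ha : ∀ y ∈ S, p y → H.Adj (some c) (some y) ∧ H.Adj none (some y))
    (hp : ∀ x ∈ S, p' x ↔ x = c ∨ p x) : ZG K (FS S True p') := by
  have e : FS S True p' = insert (some c) (insert none (FS S False p)) := by
    ext x
    rw [mem_insert, mem_insert]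
    rcases x with _ | x
    · rw [mem_none, mem_none]
      simp
    · rw [mem_some, mem_some, Option.some_inj]
      constructor
      · rintro ⟨g1, g2⟩
        rcases (hp x g1).1 g2 with g3 | g3
        · exact Or.inl g3
        · exact Or.inr (Or.inr ⟨g1, g3⟩)
      · rintro (g1 | g1 | ⟨g1, g2⟩)
        · rw [g1]
          exact ⟨hcS, (hp c hcS).2 (Or.inl rfl)⟩
        · exact (Option.some_ne_none _ g1).elim
        · exact ⟨g1, (hp x g1).2 (Or.inr g2)⟩
  rw [e]
  refine zg_susp ?_ ?_ (Option.some_ne_none _) (hz _ _ (Option.some_ne_none _) hn) ?_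
  · rw [mem_some]
    exact fun g => hc g.2
  · rw [mem_none]
    exact fun g => g
  · intro y hy
    rcases y with _ | y
    · exact (mem_none.1 hy).elim
    · have g := ha y (mem_some.1 hy).1 (mem_some.1 hy).2
      exact ⟨hc2 y (mem_some.1 hy).1 g.1, hn2 _ g.2⟩

theorem zg_contr {M : CoxeterMatrix V} {S : Finset V} {s t : V} (hs : s ∈ S) (ht : t ∈ S)
    (hst : (gr M).Adj s t) (h2s : ∀ x ∈ S, x ≠ s → M s x = 2 ∨ M s x = 0)
    (h2t : ∀ x ∈ S, x ≠ t → M t x = 2 ∨ M t x = 0)
    (hq : NoSq S (gr M) s t) (h1 : ZG M (ck S (gr M) s t)) (h2 : ZG (cM M s t) (S.erase t)) :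
    ZG M S := by
  classical
  have hz : ∀ u v, u ≠ v → ¬ (CG (gr M) s t).Adj u v → CM M s t u v = 0 := fun _ _ => cm_zero
  have hn2 : ∀ v, (CG (gr M) s t).Adj none v → CM M s t none v = 2 := fun _ => cm_none
  have hs2 : ∀ y ∈ S, (CG (gr M) s t).Adj (some s) (some y) → CM M s t (some s) (some y) = 2 := by
    intro y hy h
    have h : (gr M).Adj s y := h
    exact (h2s y hy h.1.symm).resolve_right h.2
  have ht2 : ∀ y ∈ S, (CG (gr M) s t).Adj (some t) (some y) → CM M s t (some t) (some y) = 2 := by
    intro y hy h
    have h : (gr M).Adj t y := h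
    exact (h2t y hy h.1.symm).resolve_right h.2
  have hne : s ≠ t := hst.ne
  have hss : ¬ (gr M).Adj s s := (gr M).loopless.irrefl s
  have htt : ¬ (gr M).Adj t t := (gr M).loopless.irrefl t
  have hts : (gr M).Adj t s := hst.symm
  have cns : ¬ (CG (gr M) s t).Adj none (some s) := fun g => g.1 rfl
  have cnt : ¬ (CG (gr M) s t).Adj none (some t) := fun g => g.2.1 rfl
  have csn : ¬ (CG (gr M) s t).Adj (some s) none := fun g => g.1 rfl
  have ctn : ¬ (CG (gr M) s t).Adj (some t) none := fun g => g.2.1 rfl
  -- the link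
  have hL : ZG (CM M s t) (FS S False fun x => (gr M).Adj s x ∧ (gr M).Adj t x) := by
    have e : FS S False (fun x => (gr M).Adj s x ∧ (gr M).Adj t x) = (ck S (gr M) s t).image some := by
      ext x
      rcases x with _ | x
      · rw [mem_none]
        simp
      · rw [mem_some]
        simp [mem_ck]
    rw [e, ← zg_image (G := M) (G' := CM M s t) (S := ck S (gr M) s t) some
      (fun x _ y _ hxy => Option.some_inj.1 hxy) (fun x _ y _ => rfl)]
    exact h1
  have hDs : ZG (CM M s t) (FS S False fun x => x = s ∨ ((gr M).Adj s x ∧ (gr M).Adj t x)) :=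
    cone_fs hs2 hs hL (fun g => hss g.1) (fun y _ g => g.1) (fun x _ => Iff.rfl)
  have hDt : ZG (CM M s t) (FS S False fun x => x = t ∨ ((gr M).Adj s x ∧ (gr M).Adj t x)) :=
    cone_fs ht2 ht hL (fun g => htt g.2) (fun y _ g => g.2) (fun x _ => Iff.rfl)
  have hD : ZG (CM M s t) (FS S False fun x => x = s ∨ x = t ∨ ((gr M).Adj s x ∧ (gr M).Adj t x)) := by
    refine cone_fs hs2 hs hDt ?_ ?_ (fun x _ => Iff.rfl)
    · rintro (g | g)
      · exact hne g
      · exact hss g.1
    · rintro y _ (rfl | g)
      · exact hst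
      · exact g.1
  have hM : ZG (CM M s t) (FS S True fun x => x = s ∨ x = t ∨ ((gr M).Adj s x ∧ (gr M).Adj t x)) := by
    have hk : ZG (CM M s t) (FS S True fun x => x = s ∨ ((gr M).Adj s x ∧ (gr M).Adj t x)) := by
      refine susp_fs hz hn2 hs2 hs (p := fun x => (gr M).Adj s x ∧ (gr M).Adj t x) (fun g => hss g.1) csn ?_
        (fun x _ => Iff.rfl)
      intro y _ g
      exact ⟨g.1, fun e => by rw [e] at g; exact hss g.1, fun e => by rw [e] at g; exact htt g.2,
        Or.inl g.1⟩
    refine mv_fs hz hk hD hDs ?_ (by simp) ?_ (by simp) ?_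
    · intro x hx hx' y hy hy'
      rcases y with _ | y
      · exact (mem_none.1 hy).elim
      · rw [mem_some] at hy hy'
        have hyt : y = t := by
          rcases hy.2 with g | g | g
          · exact (hy' ⟨hy.1, Or.inl g⟩).elim
          · exact g
          · exact (hy' ⟨hy.1, Or.inr g⟩).elim
        subst hyt
        rcases x with _ | x
        · exact cnt
        · rw [mem_some] at hx hx'
          rcases hx.2 with g | g
          · exact (hx' ⟨hx.1, Or.inl g⟩).elim
          · exact (hx' ⟨hx.1, Or.inr (Or.inr g)⟩).elim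
    · intro x _
      constructor
      · rintro (g | g)
        · exact ⟨Or.inl g, Or.inl g⟩
        · exact ⟨Or.inr g, Or.inr (Or.inr g)⟩
      · rintro ⟨g, _⟩
        exact g
    · intro x _
      constructor
      · exact fun g => Or.inr g
      · rintro (g | g)
        · rcases g with g | g
          · exact Or.inl g
          · exact Or.inr (Or.inr g)
        · exact g
  have hP : ZG (CM M s t) (FS S True fun x => x = s ∨ x = t ∨
      (x ≠ s ∧ x ≠ t ∧ (gr M).Adj s x)) := by
    have hk : ZG (CM M s t) (FS S True fun x => x = s ∨ (x ≠ s ∧ x ≠ t ∧ (gr M).Adj s x)) := by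
      refine susp_fs hz hn2 hs2 hs (p := fun x => x ≠ s ∧ x ≠ t ∧ (gr M).Adj s x) (fun g => g.1 rfl) csn ?_
        (fun x _ => Iff.rfl)
      intro y _ g
      exact ⟨g.2.2, g.1, g.2.1, Or.inl g.2.2⟩
    refine mv_fs hz hk hD hDs ?_ (by simp) ?_ (by simp) ?_
    · intro x hx hx' y hy hy'
      rcases y with _ | y
      · exact (mem_none.1 hy).elim
      · rw [mem_some] at hy hy'
        have hyt : y = t := by
          rcases hy.2 with g | g | g
          · exact (hy' ⟨hy.1, Or.inl g⟩).elim
          · exact g
          · refine (hy' ⟨hy.1, Or.inr ⟨?_, ?_, g.1⟩⟩).elim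
            · intro e
              rw [e] at g
              exact hss g.1
            · intro e
              rw [e] at g
              exact htt g.2
        subst hyt
        rcases x with _ | x
        · exact cnt
        · rw [mem_some] at hx hx'
          rcases hx.2 with g | g
          · exact (hx' ⟨hx.1, Or.inl g⟩).elim
          · intro k
            have k : (gr M).Adj x y := k
            exact hx' ⟨hx.1, Or.inr (Or.inr ⟨g.2.2, k.symm⟩)⟩
    · intro x _
      constructor
      · rintro (g | g)
        · exact ⟨Or.inl g, Or.inl g⟩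
        · refine ⟨Or.inr ⟨?_, ?_, g.1⟩, Or.inr (Or.inr g)⟩
          · intro e
            rw [e] at g
            exact hss g.1
          · intro e
            rw [e] at g
            exact htt g.2
      · rintro ⟨g, g'⟩
        rcases g with g | g
        · exact Or.inl g
        · rcases g' with k | k | k
          · exact Or.inl k
          · exact (g.2.1 k).elim
          · exact Or.inr k
    · intro x _
      constructor
      · rintro (g | g | g)
        · exact Or.inl (Or.inl g)
        · exact Or.inr (Or.inr (Or.inl g))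
        · exact Or.inl (Or.inr g)
      · rintro ((g | g) | (g | g | g))
        · exact Or.inl g
        · exact Or.inr (Or.inr g)
        · exact Or.inl g
        · exact Or.inr (Or.inl g)
        · refine Or.inr (Or.inr ⟨?_, ?_, g.1⟩)
          · intro e
            rw [e] at g
            exact hss g.1
          · intro e
            rw [e] at g
            exact htt g.2
  have hQ : ZG (CM M s t) (FS S True fun x => x = s ∨ x = t ∨
      (x ≠ s ∧ x ≠ t ∧ (gr M).Adj t x)) := by
    have hk : ZG (CM M s t) (FS S True fun x => x = t ∨ (x ≠ s ∧ x ≠ t ∧ (gr M).Adj t x)) := by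
      refine susp_fs hz hn2 ht2 ht (p := fun x => x ≠ s ∧ x ≠ t ∧ (gr M).Adj t x) (fun g => g.2.1 rfl) ctn ?_
        (fun x _ => Iff.rfl)
      intro y _ g
      exact ⟨g.2.2, g.1, g.2.1, Or.inr g.2.2⟩
    refine mv_fs hz hk hD hDt ?_ (by simp) ?_ (by simp) ?_
    · intro x hx hx' y hy hy'
      rcases y with _ | y
      · exact (mem_none.1 hy).elim
      · rw [mem_some] at hy hy'
        have hyt : y = s := by
          rcases hy.2 with g | g | g
          · exact g
          · exact (hy' ⟨hy.1, Or.inl g⟩).elim
          · refine (hy' ⟨hy.1, Or.inr ⟨?_, ?_, g.2⟩⟩).elim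
            · intro e
              rw [e] at g
              exact hss g.1
            · intro e
              rw [e] at g
              exact htt g.2
        subst hyt
        rcases x with _ | x
        · exact cns
        · rw [mem_some] at hx hx'
          rcases hx.2 with g | g
          · exact (hx' ⟨hx.1, Or.inr (Or.inl g)⟩).elim
          · intro k
            have k : (gr M).Adj x y := k
            exact hx' ⟨hx.1, Or.inr (Or.inr ⟨k.symm, g.2.2⟩)⟩
    · intro x _
      constructor
      · rintro (g | g)
        · exact ⟨Or.inl g, Or.inr (Or.inl g)⟩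
        · refine ⟨Or.inr ⟨?_, ?_, g.2⟩, Or.inr (Or.inr g)⟩
          · intro e
            rw [e] at g
            exact hss g.1
          · intro e
            rw [e] at g
            exact htt g.2
      · rintro ⟨g, g'⟩
        rcases g with g | g
        · exact Or.inl g
        · rcases g' with k | k | k
          · exact (g.1 k).elim
          · exact Or.inl k
          · exact Or.inr k
    · intro x _
      constructor
      · rintro (g | g | g)
        · exact Or.inr (Or.inl g)
        · exact Or.inl (Or.inl g)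
        · exact Or.inl (Or.inr g)
      · rintro ((g | g) | (g | g | g))
        · exact Or.inr (Or.inl g)
        · exact Or.inr (Or.inr g)
        · exact Or.inl g
        · exact Or.inr (Or.inl g)
        · refine Or.inr (Or.inr ⟨?_, ?_, g.2⟩)
          · intro e
            rw [e] at g
            exact hss g.1
          · intro e
            rw [e] at g
            exact htt g.2
  have hcA : ZG (CM M s t) (FS S True fun x => x = s ∨ x = t ∨
      (x ≠ s ∧ x ≠ t ∧ ((gr M).Adj s x ∨ (gr M).Adj t x))) := by
    refine mv_fs hz hP hQ hM ?_ (by simp) ?_ (by simp) ?_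
    · intro x hx hx' y hy hy'
      rcases x with _ | x
      · exact (hx' (mem_none.2 trivial)).elim
      · rcases y with _ | y
        · exact (hy' (mem_none.2 trivial)).elim
        · rw [mem_some] at hx hx' hy hy'
          rcases hx.2 with g | g | g
          · exact (hx' ⟨hx.1, Or.inl g⟩).elim
          · exact (hx' ⟨hx.1, Or.inr (Or.inl g)⟩).elim
          · rcases hy.2 with k | k | k
            · exact (hy' ⟨hy.1, Or.inl k⟩).elim
            · exact (hy' ⟨hy.1, Or.inr (Or.inl k)⟩).elim
            · have m1 : ¬ (gr M).Adj t x := fun m => hx' ⟨hx.1, Or.inr (Or.inr ⟨g.1, g.2.1, m⟩)⟩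
              have m2 : ¬ (gr M).Adj s y := fun m => hy' ⟨hy.1, Or.inr (Or.inr ⟨k.1, k.2.1, m⟩)⟩
              exact hq x hx.1 y hy.1 g.2.2 k.2.2 m1 m2 g.2.1 k.1
    · intro x _
      constructor
      · rintro (g | g | g)
        · exact ⟨Or.inl g, Or.inl g⟩
        · exact ⟨Or.inr (Or.inl g), Or.inr (Or.inl g)⟩
        · have n1 : x ≠ s := by
            intro e
            rw [e] at g
            exact hss g.1
          have n2 : x ≠ t := by
            intro e
            rw [e] at g
            exact htt g.2
          exact ⟨Or.inr (Or.inr ⟨n1, n2, g.1⟩), Or.inr (Or.inr ⟨n1, n2, g.2⟩)⟩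
      · rintro ⟨g, k⟩
        rcases g with g | g | g
        · exact Or.inl g
        · exact Or.inr (Or.inl g)
        · rcases k with k | k | k
          · exact Or.inl k
          · exact Or.inr (Or.inl k)
          · exact Or.inr (Or.inr ⟨g.2.2, k.2.2⟩)
    · intro x _
      constructor
      · rintro (g | g | ⟨g1, g2, g | g⟩)
        · exact Or.inl (Or.inl g)
        · exact Or.inl (Or.inr (Or.inl g))
        · exact Or.inl (Or.inr (Or.inr ⟨g1, g2, g⟩))
        · exact Or.inr (Or.inr (Or.inr ⟨g1, g2, g⟩))
      · rintro ((g | g | g) | (g | g | g))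
        · exact Or.inl g
        · exact Or.inr (Or.inl g)
        · exact Or.inr (Or.inr ⟨g.1, g.2.1, Or.inl g.2.2⟩)
        · exact Or.inl g
        · exact Or.inr (Or.inl g)
        · exact Or.inr (Or.inr ⟨g.1, g.2.1, Or.inr g.2.2⟩)
  have hcB : ZG (CM M s t) (FS S True fun x => x ≠ s ∧ x ≠ t) := by
    have e : (FS S True fun x => x ≠ s ∧ x ≠ t).image (fun u => u.getD s) = S.erase t := by
      ext x
      rw [mem_image, mem_erase]
      constructor
      · rintro ⟨u, hu, rfl⟩
        rcases u with _ | u
        · exact ⟨hne, hs⟩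
        · rw [mem_some] at hu
          exact ⟨hu.2.2, hu.1⟩
      · rintro ⟨g1, g2⟩
        by_cases g3 : x = s
        · exact ⟨none, mem_none.2 trivial, g3.symm⟩
        · exact ⟨some x, mem_some.2 ⟨g2, g3, g1⟩, rfl⟩
    have hl2 : ∀ x ∈ S, x ≠ s → x ≠ t →
        (CM M s t none (some x) = cM M s t s x) := by
      intro x hx n1 n2
      have e1 : CM M s t none (some x) =
          if x ≠ s ∧ x ≠ t ∧ ((gr M).Adj s x ∨ (gr M).Adj t x) then 2 else 0 := by
        change (open Classical in if (CG (gr M) s t).Adj none (some x) then 2 else 0) = _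
        congr 1
      have e2 : cM M s t s x = if M s x = 2 ∨ M t x = 2 then 2 else 0 := by
        rw [cM_left M (Ne.symm n1)]
      have e3 : (x ≠ s ∧ x ≠ t ∧ ((gr M).Adj s x ∨ (gr M).Adj t x)) ↔ (M s x = 2 ∨ M t x = 2) := by
        constructor
        · rintro ⟨-, -, g | g⟩
          · exact Or.inl ((h2s x hx n1).resolve_right g.2)
          · exact Or.inr ((h2t x hx n2).resolve_right g.2)
        · rintro (g | g)
          · refine ⟨n1, n2, Or.inl ⟨Ne.symm n1, ?_⟩⟩
            rw [g]
            norm_num
          · refine ⟨n1, n2, Or.inr ⟨Ne.symm n2, ?_⟩⟩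
            rw [g]
            norm_num
      rw [e1, e2]
      simp only [e3]
    rw [zg_image (G := CM M s t) (G' := cM M s t) (S := FS S True fun x => x ≠ s ∧ x ≠ t)
      (fun u => u.getD s) ?_ ?_, e]
    · exact h2
    · rintro (_ | x) hx (_ | y) hy hxy
      · rfl
      · rw [mem_some] at hy
        exact (hy.2.1 hxy.symm).elim
      · rw [mem_some] at hx
        exact (hx.2.1 hxy).elim
      · exact congrArg some hxy
    · rintro (_ | x) hx (_ | y) hy
      · exact (cM M s t).diagonal s
      · rw [mem_some] at hy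
        exact (hl2 y hy.1 hy.2.1 hy.2.2).symm
      · rw [mem_some] at hx
        change cM M s t x s = CM M s t (some x) none
        rw [CoxeterMatrix.symmetric, CoxeterMatrix.symmetric (CM M s t)]
        exact (hl2 x hx.1 hx.2.1 hx.2.2).symm
      · rw [mem_some] at hx hy
        exact cM_ne M hx.2.1 hy.2.1
  -- the connected sum
  set pA : V → Prop := fun x => x = s ∨ x = t ∨ (x ≠ s ∧ x ≠ t ∧ ((gr M).Adj s x ∨ (gr M).Adj t x)) with hpA
  set pB : V → Prop := fun x => x ≠ s ∧ x ≠ t with hpB
  have eA : ∀ p : V → Prop, insert none (FS S False p) = FS S True p := by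
    intro p
    ext x
    rw [mem_insert]
    rcases x with _ | x
    · rw [mem_none, mem_none]
      simp
    · rw [mem_some, mem_some]
      simp
  have hU : ZG (CM M s t) (FS S False pA ∪ FS S False pB) := by
    have hcc : ∀ x ∈ FS S False pA ∪ FS S False pB, (CG (gr M) s t).Adj none x ↔
        x ∈ FS S False pA ∧ x ∈ FS S False pB := by
      intro x hx
      rcases x with _ | x
      · rw [mem_union, mem_none, mem_none] at hx
        rcases hx with g | g
        · exact g.elim
        · exact g.elim
      · rw [mem_union, mem_some, mem_some] at hx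
        have hxS : x ∈ S := by
          rcases hx with g | g
          · exact g.1
          · exact g.1
        rw [mem_some, mem_some]
        constructor
        · rintro ⟨g1, g2, g3⟩
          exact ⟨⟨hxS, Or.inr (Or.inr ⟨g1, g2, g3⟩)⟩, hxS, g1, g2⟩
        · rintro ⟨⟨_, g⟩, _, g1, g2⟩
          rcases g with g | g | g
          · exact (g1 g).elim
          · exact (g2 g).elim
          · exact g
    have nn : ∀ p : V → Prop, none ∉ FS S False p := fun p g => mem_none.1 g
    refine zg_csum (c := none) (nn pA) (nn pB) ?_ ?_ (noe' hz ?_) ?_ ?_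
    · intro x hx
      rw [mem_inter] at hx
      exact hn2 x ((hcc x (mem_union_left _ hx.1)).2 hx)
    · intro x hx hx'
      refine hz _ _ ?_ fun g => hx' (mem_inter.2 ((hcc x hx).1 g))
      rintro rfl
      rcases mem_union.1 hx with g | g
      · exact nn _ g
      · exact nn _ g
    · intro x hx hx' y hy hy'
      rcases x with _ | x
      · exact (mem_none.1 hx).elim
      · rcases y with _ | y
        · exact (mem_none.1 hy).elim
        · rw [mem_some] at hx hx' hy hy'
          have n1 : ¬ (gr M).Adj s y := fun g => hy' ⟨hy.1, Or.inr (Or.inr ⟨hy.2.1, hy.2.2, Or.inl g⟩)⟩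
          have n2 : ¬ (gr M).Adj t y := fun g => hy' ⟨hy.1, Or.inr (Or.inr ⟨hy.2.1, hy.2.2, Or.inr g⟩)⟩
          intro k
          have k : (gr M).Adj x y := k
          rcases hx.2 with g | g | g
          · rw [g] at k
            exact n1 k
          · rw [g] at k
            exact n2 k
          · exact hx' ⟨hx.1, g.1, g.2.1⟩
    · rw [eA]
      exact hcA
    · rw [eA]
      exact hcB
  have eU : FS S False pA ∪ FS S False pB = S.image some := by
    ext x
    rw [mem_union]
    rcases x with _ | x
    · rw [mem_none, mem_none]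
      simp
    · rw [mem_some, mem_some]
      constructor
      · rintro (g | g)
        · exact mem_image_of_mem _ g.1
        · exact mem_image_of_mem _ g.1
      · intro g
        obtain ⟨y, hy, e⟩ := mem_image.1 g
        rw [Option.some_inj] at e
        subst e
        by_cases g1 : y = s
        · exact Or.inl ⟨hy, Or.inl g1⟩
        · by_cases g2 : y = t
          · exact Or.inl ⟨hy, Or.inr (Or.inl g2)⟩
          · exact Or.inr ⟨hy, g1, g2⟩
  rw [eU] at hU
  rwa [zg_image (G := M) (G' := CM M s t) (S := S) some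
      (fun x _ y _ hxy => Option.some_inj.1 hxy) (fun x _ y _ => rfl)]

/-- The contraction theorem for the homology. -/
theorem contr_nohom {V : Type} [LinearOrder V] (M : CoxeterMatrix V) {S : Finset V} {s t : V}
    (hs : s ∈ S) (ht : t ∈ S) (hst : M s t = 2) (h2s : ∀ x ∈ S, x ≠ s → M s x = 2 ∨ M s x = 0)
    (h2t : ∀ x ∈ S, x ≠ t → M t x = 2 ∨ M t x = 0)
    (hq : ∀ x ∈ S, ∀ y ∈ S, M s x = 2 → M t y = 2 → M t x = 0 → M s y = 0 → M x y = 0)
    (h1 : NoHom (sub M (S.filter fun x => M s x = 2 ∧ M t x = 2)))
    (h2 : NoHom (sub (cM M s t) (S.erase t))) : NoHom (sub M S) := by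
  have hne : ∀ {x y : V}, M x y = 2 → x ≠ y := by
    rintro x y h rfl
    have h3 := M.diagonal x
    rw [h] at h3
    norm_num at h3
  have hadj : ∀ {x y : V}, M x y = 2 → (gr M).Adj x y := fun {x y} h => ⟨hne h, by rw [h]; norm_num⟩
  have hck : S.filter (fun x => M s x = 2 ∧ M t x = 2) = ck S (gr M) s t := by
    ext x
    rw [mem_filter, mem_ck]
    refine and_congr_right fun hx => ?_
    constructor
    · rintro ⟨g1, g2⟩
      exact ⟨hadj g1, hadj g2⟩
    · rintro ⟨g1, g2⟩
      exact ⟨(h2s x hx g1.1.symm).resolve_right g1.2, (h2t x hx g2.1.symm).resolve_right g2.2⟩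
  rw [hck] at h1
  rw [← zg_iff_nohom] at h1 h2 ⊢
  refine zg_contr hs ht (hadj hst) h2s h2t ?_ h1 h2
  intro x hx y hy g1 g2 g3 g4 n1 n2 g5
  have e1 : M t x = 0 := by
    by_contra h
    exact g3 ⟨n1.symm, h⟩
  have e2 : M s y = 0 := by
    by_contra h
    exact g4 ⟨n2.symm, h⟩
  exact g5.2 (hq x hx y hy ((h2s x hx g1.1.symm).resolve_right g1.2)
    ((h2t y hy g2.1.symm).resolve_right g2.2) e1 e2)

end SCG
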