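import Pool.Agent.SCG.PStep

/-!
# Project SCG (architect helper40), module Pos: vanishing for the class `Rsh`

Induction on `Rsh Q`, so let `PD Q M r`, `2 ≤ M.card`, and `ZF (cg P) (TT Q M r F)` for all `F ∈ M` which are
neither first nor last.  Let `F_a, F_b ∈ M` be the elements with minimal and maximal `r`, `a = r F_a < b = r F_b`
(`M` has two elements, `PD.inj`).  `H = HG Q M r`.
Claim: `ZF H (LN Q M r j)` for `a < j ≤ b`, by descending induction on `j` (`Nat.decreasingInduction` or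
`b - j`).
* `j = b`: `KN b = {F_b} ∪ {x ∈ Q | x < F_b}`; every `x ∈ Q` with `x < F_b` is not in `M` (`PD.max`), so it is below
  another element `F'` of `M` (`PD.two`: one of the two is different from `F_b`), `r F' < b` (maximality,
  `PD.inj`): so `inr b` is adjacent to all these `x`, and so is `F_b`; `inr b` and `F_b` are not adjacent
  (`NN` requires `F_b < F`, impossible by `PD.max` and `PD.sub`).  So `LN b` is a suspension: `zf_susp`.
* `a < j < b`.  If there is `F ∈ M` with `r F = j`: `p_step` (with `hT`: `F_a` is earlier, `F_b` is later).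
  If there is no such `F`: `KN j = KN (j+1)` and `NN j x ↔ NN (j+1) x`, so `LN j` is the image of
  `LN (j+1)` under the map which is the identity on `inl` and maps `inr (j+1)` to `inr j`: `zf_image`.
Conclusion: `ZF H (LN (a+1))`.  `KN (a+1) = Q \ {F_a}` (an element `F ≠ F_a` of `M` has `r F > a`; an element of
`Q` not in `M` is below two elements of `M`, one of them is not `F_a`; `F_a` itself: `F_a ≤ F` only for
`F = F_a`), and for `x ∈ Q`: `NN (a+1) x ↔ x < F_a` (an `F ∈ M` with `r F < a + 1` is `F_a`).  So the map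
`P ⊕ ℕ → P`, `inl x ↦ x`, `inr _ ↦ F_a` is injective on `LN (a+1)`, preserves and reflects adjacency
(`cg P`: `F_a ~ x ↔ x < F_a`, as `F_a < x` is impossible for `x ∈ Q`) and its image is `Q`: `zf_image`.
-/

namespace SCG

open SNG Finset SCS

variable {P : Type} [PartialOrder P] {L : CoxeterMatrix P}

private theorem mem_LN' {Q M : Finset P} {r : P → ℕ} {j : ℕ} {v : P ⊕ ℕ} :
    v ∈ LN Q M r j ↔ v = Sum.inr j ∨ ∃ x ∈ KN Q M r j, Sum.inl x = v := by
  classical
  unfold LN
  rw [mem_insert, mem_image]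

private theorem mem_LN_inl {Q M : Finset P} {r : P → ℕ} {j : ℕ} {x : P} :
    Sum.inl x ∈ LN Q M r j ↔ x ∈ KN Q M r j := by
  rw [mem_LN']
  constructor
  · rintro (h1 | ⟨y, h1, h2⟩)
    · cases h1
    · rw [← Sum.inl.inj h2]
      exact h1
  · exact fun h1 => Or.inr ⟨x, h1, rfl⟩

private theorem mem_LN_inr {Q M : Finset P} {r : P → ℕ} {j k : ℕ} :
    Sum.inr k ∈ LN Q M r j ↔ k = j := by
  rw [mem_LN']
  constructor
  · rintro (h1 | ⟨y, h1, h2⟩)
    · exact Sum.inr.inj h1
    · cases h2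
  · rintro rfl
    exact Or.inl rfl

private theorem mem_KN {Q M : Finset P} {r : P → ℕ} {j : ℕ} {x : P} :
    x ∈ KN Q M r j ↔ x ∈ Q ∧ ∃ F ∈ M, j ≤ r F ∧ x ≤ F := by
  classical
  unfold KN
  rw [mem_filter]

/-- the last step -/
private theorem base_zf (hL0 : LZ L) {Q M : Finset P} {r : P → ℕ} (h : PD Q M r)
    (hl : ∀ F ∈ M, ∀ x ∈ Q, x < F → L F x = 2) {Fb : P} (hb : Fb ∈ M)
    (hmax : ∀ F ∈ M, r F ≤ r Fb) : ZG (HM L Q M r) (LN Q M r (r Fb)) := by
  classical
  have hbQ : Fb ∈ Q := h.sub hb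
  have h1 : LN Q M r (r Fb) =
      insert (Sum.inr (r Fb)) (insert (Sum.inl Fb) ((Q.filter fun x => x < Fb).image Sum.inl)) := by
    ext v
    rcases v with x | k
    · rw [mem_LN_inl, mem_KN, mem_insert, mem_insert, mem_image]
      constructor
      · rintro ⟨h1, F, h2, h3, h4⟩
        have h5 : F = Fb := h.inj F h2 Fb hb (le_antisymm (hmax F h2) h3)
        rw [h5] at h4
        rcases h4.eq_or_lt with h6 | h6
        · exact Or.inr (Or.inl (congrArg Sum.inl h6))
        · exact Or.inr (Or.inr ⟨x, mem_filter.2 ⟨h1, h6⟩, rfl⟩)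
      · rintro (h1 | h1 | ⟨y, h1, h2⟩)
        · cases h1
        · rw [Sum.inl.inj h1]
          exact ⟨hbQ, Fb, hb, le_rfl, le_rfl⟩
        · rw [← Sum.inl.inj h2]
          rw [mem_filter] at h1
          exact ⟨h1.1, Fb, hb, le_rfl, h1.2.le⟩
    · rw [mem_LN_inr, mem_insert, mem_insert, mem_image]
      constructor
      · rintro rfl
        exact Or.inl rfl
      · rintro (h1 | h1 | ⟨y, h1, h2⟩)
        · exact Sum.inr.inj h1
        · cases h1
        · cases h2
  rw [h1]
  refine zg_susp ?_ ?_ ?_ ?_ ?_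
  · rw [mem_image]
    rintro ⟨y, -, h2⟩
    cases h2
  · rw [mem_image]
    rintro ⟨y, h3, h2⟩
    rw [mem_filter, Sum.inl.inj h2] at h3
    exact lt_irrefl _ h3.2
  · intro h2
    cases h2
  · refine hm_zero hL0 (by simp) ?_
    intro h2
    have h3 : NN Q M r (r Fb) Fb := h2
    obtain ⟨-, ⟨F, h4, -, h5⟩, -⟩ := h3
    exact h.max Fb hb F (h.sub h4) h5
  · intro y hy
    rw [mem_image] at hy
    obtain ⟨x, hx, rfl⟩ := hy
    rw [mem_filter] at hx
    refine ⟨hm_cone ?_, hl Fb hb x hx.1 hx.2⟩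
    change NN Q M r (r Fb) x
    have hxM : x ∉ M := fun h2 => h.max x h2 Fb hbQ hx.2
    obtain ⟨F1, h3, F2, h4, hne, h5, h6⟩ := h.two x hx.1 hxM
    have key : ∀ F ∈ M, F ≠ Fb → x < F → NN Q M r (r Fb) x := by
      intro F hF hne' hxF
      refine ⟨hx.1, ⟨F, hF, lt_of_le_of_ne (hmax F hF) fun e => hne' (h.inj F hF Fb hb e), hxF⟩,
        Fb, hb, le_rfl, hx.2⟩
    by_cases e : F1 = Fb
    · exact key F2 h4 (fun e' => hne (e.trans e'.symm)) h6
    · exact key F1 h3 e h5

/-- a step without an element -/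
private theorem skip_zf {Q M : Finset P} {r : P → ℕ} {j : ℕ} (hj : ∀ F ∈ M, r F ≠ j)
    (h1 : ZG (HM L Q M r) (LN Q M r (j + 1))) : ZG (HM L Q M r) (LN Q M r j) := by
  classical
  have hle : ∀ F ∈ M, (j + 1 ≤ r F ↔ j ≤ r F) := by
    intro F hF
    have := hj F hF
    omega
  have hlt : ∀ F ∈ M, (r F < j + 1 ↔ r F < j) := by
    intro F hF
    have := hj F hF
    omega
  have hKN : ∀ x, x ∈ KN Q M r (j + 1) ↔ x ∈ KN Q M r j := by
    intro x
    rw [mem_KN, mem_KN]
    refine and_congr_right fun _ => exists_congr fun F => and_congr_right fun hF => ?_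
    rw [hle F hF]
  have hNN : ∀ x, NN Q M r j x ↔ NN Q M r (j + 1) x := by
    intro x
    unfold NN
    refine and_congr_right fun _ => and_congr (exists_congr fun F => and_congr_right fun hF => ?_)
      (exists_congr fun F => and_congr_right fun hF => ?_)
    · rw [hlt F hF]
    · rw [hle F hF]
  have h2 := (zg_image (G := HM L Q M r) (G' := HM L Q M r) (S := LN Q M r (j + 1))
    (Sum.map id fun _ => j) ?_ ?_).1 h1
  · have h3 : (LN Q M r (j + 1)).image (Sum.map id fun _ => j) = LN Q M r j := by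
      ext v
      rw [mem_image]
      rcases v with x | k
      · rw [mem_LN_inl, ← hKN]
        constructor
        · rintro ⟨y | l, h4, h5⟩
          · have h6 : y = x := Sum.inl.inj h5
            rw [← h6]
            exact mem_LN_inl.1 h4
          · cases h5
        · intro h4
          exact ⟨Sum.inl x, mem_LN_inl.2 h4, rfl⟩
      · rw [mem_LN_inr]
        constructor
        · rintro ⟨y | l, h4, h5⟩
          · cases h5
          · exact (Sum.inr.inj h5).symm
        · rintro rfl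
          exact ⟨Sum.inr (k + 1), mem_LN_inr.2 rfl, rfl⟩
    rw [← h3]
    exact h2
  · rintro (x | k) hx (y | l) hy hxy
    · exact hxy
    · cases hxy
    · cases hxy
    · rw [mem_LN_inr.1 hx, mem_LN_inr.1 hy]
  · rintro (x | k) hx (y | l) hy
    · rfl
    · rw [mem_LN_inr.1 hy]
      change HM L Q M r (Sum.inl x) (Sum.inr j) = HM L Q M r (Sum.inl x) (Sum.inr (j + 1))
      rw [hm_lr, hm_lr]
      simp only [hNN x]
    · rw [mem_LN_inr.1 hx]
      change HM L Q M r (Sum.inr j) (Sum.inl y) = HM L Q M r (Sum.inr (j + 1)) (Sum.inl y)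
      rw [hm_rl, hm_rl]
      simp only [hNN y]
    · rw [mem_LN_inr.1 hx, mem_LN_inr.1 hy]
      change HM L Q M r (Sum.inr j) (Sum.inr j) = HM L Q M r (Sum.inr (j + 1)) (Sum.inr (j + 1))
      rw [CoxeterMatrix.diagonal, CoxeterMatrix.diagonal]

/-- the first step -/
private theorem first_zf (hL0 : LZ L) {Q M : Finset P} {r : P → ℕ} (h : PD Q M r)
    (hl : ∀ F ∈ M, ∀ x ∈ Q, x < F → L F x = 2) {Fa : P} (ha : Fa ∈ M)
    (hmin : ∀ F ∈ M, r Fa ≤ r F) (h1 : ZG (HM L Q M r) (LN Q M r (r Fa + 1))) : ZG L Q := by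
  classical
  have haQ : Fa ∈ Q := h.sub ha
  have hlt : ∀ F ∈ M, F ≠ Fa → r Fa + 1 ≤ r F := by
    intro F hF hne
    have h2 : r F ≠ r Fa := fun e => hne (h.inj F hF Fa ha e)
    have := hmin F hF
    omega
  have hKN : ∀ x, x ∈ KN Q M r (r Fa + 1) ↔ x ∈ Q ∧ x ≠ Fa := by
    intro x
    rw [mem_KN]
    refine and_congr_right fun hx => ?_
    constructor
    · rintro ⟨F, h2, h3, h4⟩ rfl
      rcases h4.eq_or_lt with h5 | h5
      · rw [← h5] at h3
        omega
      · exact h.max x ha F (h.sub h2) h5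
    · intro hne
      by_cases hxM : x ∈ M
      · exact ⟨x, hxM, hlt x hxM hne, le_rfl⟩
      · obtain ⟨F1, h3, F2, h4, hne', h5, h6⟩ := h.two x hx hxM
        by_cases e : F1 = Fa
        · exact ⟨F2, h4, hlt F2 h4 fun e' => hne' (e.trans e'.symm), h6.le⟩
        · exact ⟨F1, h3, hlt F1 h3 e, h5.le⟩
  have hNN : ∀ x ∈ Q, (NN Q M r (r Fa + 1) x ↔ x < Fa) := by
    intro x hx
    constructor
    · rintro ⟨-, ⟨F, h2, h3, h4⟩, -⟩
      have h5 : F = Fa := h.inj F h2 Fa ha (le_antisymm (by omega) (hmin F h2))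
      rw [← h5]
      exact h4
    · intro h2
      have hxM : x ∉ M := fun h3 => h.max x h3 Fa haQ h2
      refine ⟨hx, ⟨Fa, ha, Nat.lt_succ_self _, h2⟩, ?_⟩
      obtain ⟨F1, h3, F2, h4, hne', h5, h6⟩ := h.two x hx hxM
      by_cases e : F1 = Fa
      · exact ⟨F2, h4, hlt F2 h4 fun e' => hne' (e.trans e'.symm), h6⟩
      · exact ⟨F1, h3, hlt F1 h3 e, h5⟩
  have hlab : ∀ x ∈ Q, x ≠ Fa → HM L Q M r (Sum.inr (r Fa + 1)) (Sum.inl x) = L Fa x := by
    intro x hx hne
    rw [hm_rl]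
    by_cases h2 : x < Fa
    · rw [if_pos ((hNN x hx).2 h2), hl Fa ha x hx h2]
    · rw [if_neg fun h3 => h2 ((hNN x hx).1 h3)]
      exact (hL0 Fa x hne.symm (h.max Fa ha x hx) h2).symm
  have h2 := (zg_image (G := HM L Q M r) (G' := L) (S := LN Q M r (r Fa + 1))
    (Sum.elim id fun _ => Fa) ?_ ?_).1 h1
  · have h3 : (LN Q M r (r Fa + 1)).image (Sum.elim id fun _ => Fa) = Q := by
      ext x
      rw [mem_image]
      constructor
      · rintro ⟨y | l, h4, h5⟩
        · have h6 : y = x := h5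
          rw [← h6]
          exact ((hKN y).1 (mem_LN_inl.1 h4)).1
        · have h6 : Fa = x := h5
          rw [← h6]
          exact haQ
      · intro hx
        by_cases e : x = Fa
        · exact ⟨Sum.inr (r Fa + 1), mem_LN_inr.2 rfl, e.symm⟩
        · exact ⟨Sum.inl x, mem_LN_inl.2 ((hKN x).2 ⟨hx, e⟩), rfl⟩
    rw [← h3]
    exact h2
  · rintro (x | k) hx (y | l) hy hxy
    · exact congrArg Sum.inl hxy
    · exact absurd hxy ((hKN x).1 (mem_LN_inl.1 hx)).2
    · exact absurd hxy.symm ((hKN y).1 (mem_LN_inl.1 hy)).2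
    · rw [mem_LN_inr.1 hx, mem_LN_inr.1 hy]
  · rintro (x | k) hx (y | l) hy
    · rfl
    · have hxQ := (hKN x).1 (mem_LN_inl.1 hx)
      rw [mem_LN_inr.1 hy, CoxeterMatrix.symmetric (HM L Q M r), hlab x hxQ.1 hxQ.2]
      exact L.symmetric x Fa
    · have hyQ := (hKN y).1 (mem_LN_inl.1 hy)
      rw [mem_LN_inr.1 hx, hlab y hyQ.1 hyQ.2]
      rfl
    · rw [mem_LN_inr.1 hx, mem_LN_inr.1 hy]
      exact (L.diagonal Fa).trans ((HM L Q M r).diagonal _).symm

private theorem rsh_step (hL0 : LZ L) {Q M : Finset P} {r : P → ℕ} (h : PD Q M r)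
    (h2 : 2 ≤ M.card) (hl : ∀ F ∈ M, ∀ x ∈ Q, x < F → L F x = 2)
    (ih : ∀ F ∈ M, (∃ F' ∈ M, r F' < r F) → (∃ F' ∈ M, r F < r F') → ZG L (TT Q M r F)) :
    ZG L Q := by
  classical
  have hne : M.Nonempty := card_pos.1 (by omega)
  obtain ⟨Fa, ha, hmin⟩ := M.exists_min_image r hne
  obtain ⟨Fb, hb, hmax⟩ := M.exists_max_image r hne
  have hab : r Fa < r Fb := by
    refine lt_of_le_of_ne (hmin Fb hb) fun e => ?_
    obtain ⟨x, hx, y, hy, hxy⟩ := one_lt_card.1 h2
    refine hxy (h.inj x hx y hy ?_)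
    have h3 := hmin x hx
    have h4 := hmax x hx
    have h5 := hmin y hy
    have h6 := hmax y hy
    omega
  have key : ∀ k j, r Fa < j → j + k = r Fb → ZG (HM L Q M r) (LN Q M r j) := by
    intro k
    induction k with
    | zero =>
      intro j _ h4
      have h5 : j = r Fb := h4
      rw [h5]
      exact base_zf hL0 h hl hb hmax
    | succ k ihk =>
      intro j h3 h4
      have h5 := ihk (j + 1) (by omega) (by omega)
      by_cases hF : ∃ F ∈ M, r F = j
      · obtain ⟨F, hF, rfl⟩ := hF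
        exact p_step hL0 h hl hF (ih F hF ⟨Fa, ha, h3⟩ ⟨Fb, hb, by omega⟩) h5
      · exact skip_zf (fun F hF' e => hF ⟨F, hF', e⟩) h5
  exact first_zf hL0 h hl ha hmin (key (r Fb - (r Fa + 1)) (r Fa + 1) (Nat.lt_succ_self _) (by omega))

theorem rl_zg (hL0 : LZ L) {Q : Finset P} (h : RL L Q) : ZG L Q := by
  induction h with
  | mk Q M r h h2 hl hT ih => exact rsh_step hL0 h h2 hl ih

end SCG
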