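import Pool.Agent.SCG.Iface
import Pool.Agent.SCS.PDefs

/-!
# Project SCG (architect helper40), module Lab: labelled posets

`L`: a Coxeter matrix on the partial order `P` such that `L x y = 0` (`∞`) for incomparable `x ≠ y` (`LZ`).
`RL L Q`: the class of posets `SCS.Rsh`, in which at every stage `L F x = 2` for maximal elements `F` and all
`x < F`.  `HM`: the labels on the auxiliary graph `HG`: the cone vertices have label `2` to their neighbours.
-/

namespace SCG

open SNG Finset SCS

section

variable {P : Type} [PartialOrder P]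

/-- The label of two incomparable elements is `∞`. -/
def LZ (L : CoxeterMatrix P) : Prop := ∀ x y, x ≠ y → ¬ x < y → ¬ y < x → L x y = 0

/-- The class of labelled posets. -/
inductive RL (L : CoxeterMatrix P) : Finset P → Prop
  | mk (Q M : Finset P) (r : P → ℕ) (h : PD Q M r) (h2 : 2 ≤ M.card)
      (hl : ∀ F ∈ M, ∀ x ∈ Q, x < F → L F x = 2)
      (hT : ∀ F ∈ M, (∃ F' ∈ M, r F' < r F) → (∃ F' ∈ M, r F < r F') → RL L (TT Q M r F)) :
      RL L Q

open Classical in
/-- The labels on the auxiliary graph. -/
noncomputable def hmf (L : CoxeterMatrix P) (Q M : Finset P) (r : P → ℕ) : P ⊕ ℕ → P ⊕ ℕ → ℕ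
  | Sum.inl x, Sum.inl y => L x y
  | Sum.inl x, Sum.inr j => if NN Q M r j x then 2 else 0
  | Sum.inr j, Sum.inl x => if NN Q M r j x then 2 else 0
  | Sum.inr i, Sum.inr j => if i = j then 1 else 0

/-- The Coxeter matrix on the auxiliary graph. -/
noncomputable def HM (L : CoxeterMatrix P) (Q M : Finset P) (r : P → ℕ) : CoxeterMatrix (P ⊕ ℕ) where
  M := Matrix.of fun u v => hmf L Q M r u v
  isSymm := by
    ext u v
    rcases u with x | i <;> rcases v with y | j
    · exact L.symmetric y x
    · rfl
    · rfl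
    · change (if j = i then 1 else 0) = if i = j then 1 else 0
      simp only [eq_comm]
  diagonal u := by
    rcases u with x | i
    · exact L.diagonal x
    · exact if_pos rfl
  off_diagonal u v h := by
    classical
    rcases u with x | i <;> rcases v with y | j
    · exact L.off_diagonal x y fun h1 => h (congrArg _ h1)
    · change (if NN Q M r j x then 2 else 0) ≠ 1
      split_ifs <;> norm_num
    · change (if NN Q M r i y then 2 else 0) ≠ 1
      split_ifs <;> norm_num
    · change (if i = j then 1 else 0) ≠ 1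
      rw [if_neg fun h1 => h (congrArg _ h1)]
      norm_num

variable {L : CoxeterMatrix P} {Q M : Finset P} {r : P → ℕ}

theorem hm_ll (x y : P) : HM L Q M r (Sum.inl x) (Sum.inl y) = L x y := rfl

theorem hm_lr (x : P) (j : ℕ) :
    HM L Q M r (Sum.inl x) (Sum.inr j) = (open Classical in if NN Q M r j x then 2 else 0) := rfl

theorem hm_rl (x : P) (j : ℕ) :
    HM L Q M r (Sum.inr j) (Sum.inl x) = (open Classical in if NN Q M r j x then 2 else 0) := rfl

/-- nonadjacent vertices -/
theorem hm_zero (hL : LZ L) {u v : P ⊕ ℕ} (h : u ≠ v) (hn : ¬ (HG Q M r).Adj u v) :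
    HM L Q M r u v = 0 := by
  rcases u with x | i <;> rcases v with y | j
  · exact hL x y (fun e => h (congrArg _ e)) (fun h1 => hn (Or.inl h1)) fun h1 => hn (Or.inr h1)
  · exact if_neg hn
  · exact if_neg hn
  · exact if_neg fun h1 => h (congrArg _ h1)

/-- cone vertices -/
theorem hm_cone {j : ℕ} {v : P ⊕ ℕ} (h : (HG Q M r).Adj (Sum.inr j) v) :
    HM L Q M r (Sum.inr j) v = 2 := by
  rcases v with y | k
  · exact if_pos h
  · exact absurd h fun h1 => h1

/-- maximal elements -/
theorem hm_max (h : PD Q M r) (hl : ∀ F ∈ M, ∀ x ∈ Q, x < F → L F x = 2) {F : P} (hF : F ∈ M)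
    {v : P ⊕ ℕ} (hv : ∀ x, v = Sum.inl x → x ∈ Q) (ha : (HG Q M r).Adj (Sum.inl F) v) :
    HM L Q M r (Sum.inl F) v = 2 := by
  rcases v with y | k
  · have hyQ := hv y rfl
    rcases ha with h1 | h1
    · exact absurd h1 (h.max F hF y hyQ)
    · exact hl F hF y hyQ h1
  · exact if_pos ha

end

end SCG
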