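import Pool.Agent.SCG.Chn2

/-!
# Project SCG (architect helper40), module Loc: localisation of harmonic chains

`RInv G S Y`: `Y ⊆ G.Group` is invariant under right multiplication by the generators in `S`.
-/

namespace SCG

open SNG Finset SCS
open scoped InnerProductSpace

/-- invariance under right multiplication by the generators in `S` -/
def RInv {V : Type} (G : CoxeterMatrix V) (S : Finset V) (Y : Set G.Group) : Prop :=
  ∀ s ∈ S, ∀ g : G.Group, g * gn G s ∈ Y ↔ g ∈ Y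

theorem RInv.mono {V : Type} {G : CoxeterMatrix V} {S S' : Finset V} {Y : Set G.Group}
    (h : RInv G S Y) (hS : S' ⊆ S) : RInv G S' Y := fun s hs g => h s (hS hs) g

theorem rinv_WS {V : Type} (G : CoxeterMatrix V) (S : Finset V) :
    RInv G S (WS G S : Set G.Group) := by
  intro s hs g
  have h : gn G s ∈ WS G S := Subgroup.subset_closure ⟨s, Finset.mem_coe.2 hs, rfl⟩
  rw [SetLike.mem_coe, SetLike.mem_coe]
  exact Subgroup.mul_mem_cancel_right _ h

theorem rinv_trs {V : Type} {G : CoxeterMatrix V} {S : Finset V} {Y : Set G.Group} (h : RInv G S Y)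
    (g : G.Group) : RInv G S (trs g Y) := by
  intro s hs x
  change g⁻¹ * (x * gn G s) ∈ Y ↔ g⁻¹ * x ∈ Y
  rw [← mul_assoc]
  exact h s hs (g⁻¹ * x)

private theorem mu_pos {V : Type} {G : CoxeterMatrix V} {Y : Set G.Group} (f : HW G) (T : Finset V)
    {g : G.Group} (h : g ∈ Y) : mu Y f (T, g) = f (T, g) := by
  rw [mu_apply]
  exact if_pos h

private theorem mu_neg {V : Type} {G : CoxeterMatrix V} {Y : Set G.Group} (f : HW G) (T : Finset V)
    {g : G.Group} (h : g ∉ Y) : mu Y f (T, g) = 0 := by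
  rw [mu_apply]
  exact if_neg h

variable {V : Type} [Fintype V] [LinearOrder V] {G : CoxeterMatrix V}

/-- A symmetric operator commuting with the boundary and preserving the chains preserves harmonic
chains. -/
theorem HH_stable {S : Finset V} {M : HW G →L[ℝ] HW G} (hs : ∀ x y, ⟪M x, y⟫_ℝ = ⟪x, M y⟫_ℝ)
    (hc : ∀ f, bD G (M f) = M (bD G f)) (hC : ∀ j, ∀ f ∈ CC G S j, M f ∈ CC G S j) {j : ℕ}
    {f : HW G} (hf : f ∈ HH G S j) : M f ∈ HH G S j := by
  obtain ⟨⟨h1, h2⟩, h3⟩ := hf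
  refine ⟨⟨hC j f h1, ?_⟩, ?_⟩
  · rw [SetLike.mem_coe, mem_kr, hc, mem_kr.1 h2, map_zero]
  · rw [SetLike.mem_coe, Submodule.mem_orthogonal'] at h3 ⊢
    intro y hy
    obtain ⟨x, hx, rfl⟩ := mem_im.1 hy
    rw [hs, ← hc]
    exact h3 _ (mem_im.2 ⟨M x, hC _ x hx, rfl⟩)

theorem mu_CC {S : Finset V} {Y : Set G.Group} (hY : RInv G S Y) {j : ℕ} {f : HW G}
    (hC : f ∈ CC G S j) : mu Y f ∈ CC G S j := by
  refine ⟨fun T hT g => ?_, fun T s hs g => ?_⟩
  · by_cases hg : g ∈ Y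
    · rw [mu_pos f T hg]
      exact hC.1 T hT g
    · exact mu_neg f T hg
  · by_cases hT : T ⊆ S ∧ Sph G T ∧ T.card = j
    · by_cases hg : g ∈ Y
      · rw [mu_pos f T hg, mu_pos f T ((hY s (hT.1 hs) g).2 hg)]
        exact hC.2 T s hs g
      · rw [mu_neg f T hg, mu_neg f T fun h => hg ((hY s (hT.1 hs) g).1 h), neg_zero]
    · have h1 : ∀ x, mu Y f (T, x) = 0 := by
        intro x
        by_cases hx : x ∈ Y
        · rw [mu_pos f T hx]
          exact hC.1 T hT x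
        · exact mu_neg f T hx
      rw [h1, h1, neg_zero]

theorem bD_mu (Y : Set G.Group) (f : HW G) : bD G (mu Y f) = mu Y (bD G f) := by
  refine ell_ext fun q => ?_
  obtain ⟨T, g⟩ := q
  by_cases hg : g ∈ Y
  · rw [mu_pos _ T hg, bD_apply, bD_apply]
    unfold bdry
    refine Finset.sum_congr rfl fun s _ => ?_
    dsimp only
    rw [mu_pos f _ hg]
  · rw [mu_neg _ T hg, bD_apply]
    unfold bdry
    refine Finset.sum_eq_zero fun s _ => ?_
    dsimp only
    rw [mu_neg f _ hg, mul_zero]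

theorem mu_HH {S : Finset V} {Y : Set G.Group} (hY : RInv G S Y) {j : ℕ} {f : HW G}
    (hf : f ∈ HH G S j) : mu Y f ∈ HH G S j :=
  HH_stable (fun x y => mu_inner Y x y) (bD_mu Y) (fun _ _ h => mu_CC hY h) hf

theorem PP_mu {S : Finset V} {Y : Set G.Group} (hY : RInv G S Y) (j : ℕ) (f : HW G) :
    PP (HH G S j) (mu Y f) = mu Y (PP (HH G S j) f) :=
  PP_comm (fun x y => mu_inner Y x y) (fun _ hx => mu_HH hY hx) f

theorem rt_symm (c : V) (x y : HW G) : ⟪rt (gn G c) x, y⟫_ℝ = ⟪x, rt (gn G c) y⟫_ℝ := by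
  rw [rt_inner, gn_inv]

theorem bD_rt (u : G.Group) (f : HW G) : bD G (rt u f) = rt u (bD G f) := by
  refine ell_ext fun q => ?_
  obtain ⟨T, g⟩ := q
  rw [rt_apply, bD_apply, bD_apply]
  unfold bdry
  refine Finset.sum_congr rfl fun s _ => ?_
  dsimp only
  rw [rt_apply]

theorem rt_CC' {S : Finset V} {c : V} (hc : ∀ y ∈ S, gn G y * gn G c = gn G c * gn G y) {j : ℕ}
    {f : HW G} (hC : f ∈ CC G S j) : rt (gn G c) f ∈ CC G S j := by
  have e : ∀ (T : Finset V) (g : G.Group), rt (gn G c) f (T, g) = f (T, g * gn G c) := fun T g =>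
    rt_apply _ f (T, g)
  have e2 : ∀ s ∈ S, ∀ g : G.Group, g * gn G s * gn G c = g * gn G c * gn G s := by
    intro s hs g
    rw [mul_assoc, hc s hs, mul_assoc]
  refine ⟨fun T hT g => ?_, fun T s hs g => ?_⟩
  · rw [e]
    exact hC.1 T hT _
  · rw [e, e]
    by_cases hT : T ⊆ S ∧ Sph G T ∧ T.card = j
    · rw [e2 s (hT.1 hs)]
      exact hC.2 T s hs _
    · rw [hC.1 T hT, hC.1 T hT, neg_zero]

theorem rt_HH' {S : Finset V} {c : V} (hc : ∀ y ∈ S, gn G y * gn G c = gn G c * gn G y) {j : ℕ}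
    {f : HW G} (hf : f ∈ HH G S j) : rt (gn G c) f ∈ HH G S j :=
  HH_stable (rt_symm c) (bD_rt _) (fun _ _ h => rt_CC' hc h) hf

theorem rt_HH {Y : Finset V} {c : V} (hc : ∀ y ∈ Y, G c y = 2) {j : ℕ} {f : HW G}
    (hf : f ∈ HH G Y j) : rt (gn G c) f ∈ HH G Y j :=
  rt_HH' (fun y hy => (gn_comm (hc y hy)).symm) hf

end SCG
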