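import Pool.Agent.SCG.Mats

/-!
# Project SCG (architect helper40), module Para: parabolic subgroups are Coxeter groups

`exists_emb`: `e : V' → V` injective with `M (e x) (e y) = M' x y`.  `φ : M'.Group →* M.Group` with
`φ (gn M' x) = gn M (e x)` exists by the relations (`M'.toCoxeterSystem.lift`).  It is injective:
let `N = WithZero M'.Group`, `f s = ↑(gn M' x)` if `s = e x`, `f s = 0` if `s ∉ range e`.  Braid relations:
for `i = e x`, `j = e y`: the relation `s s' s … = s' s s' …` in `M'.Group`
(`CoxeterSystem.wordProd_braidWord_eq`; the coercion to `WithZero` is multiplicative); if `i` or `j` is not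
in the range then both words contain it (`i ≠ j`, so `M i j ≥ 2`), both products are `0`.
By `matsumoto` there is `Φ : M.Group → N` with `Φ w = (ω.map f).prod` for every reduced word `ω` of `w`.
Claim: `Φ (φ u) = ↑u` for all `u : M'.Group`.  Induction (`simple_induction_right`): `Φ 1 = 1`.  Let
`Φ (φ u) = ↑u`, `w = φ u`, `s = gn M (e x)`.  If `ℓ (w * s) = ℓ w + 1`: a reduced word of `w` followed by
`e x` is a reduced word of `w * s`, so `Φ (w * s) = Φ w * f (e x) = ↑(u * gn M' x)`.  If
`ℓ w = ℓ (w * s) + 1`: `w = (w * s) * s`, so `↑u = Φ w = Φ (w * s) * f (e x)`, multiply by `f (e x)`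
(`f (e x) * f (e x) = 1`): `Φ (w * s) = ↑(u * gn M' x)`.  So `φ` is injective.

`sph_ne`: if `Sph M T` and `x, y ∈ T` then `M x y ≠ 0`: otherwise `x ≠ y` (diagonal entries are `1`) and
`gn x * gn y ∈ WT M T` has infinite order (`orderOf_gn`), but elements of a finite subgroup have finite
order.

`sph_iff`: `φ` maps `WT M' T` onto `WT M (e '' T)` (`Subgroup.map_closure` / `MonoidHom.map_closure`), and
it is injective, so one is finite iff the other is.

`not_mem_WT`: if all `M c y`, `y ≠ c`, are `2` or `0` and `c ∉ Y` then `gn M c ∉ WT M Y`: the homomorphism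
`M.Group →* Multiplicative (ZMod 2)` with `gn c ↦ ofAdd 1`, all other generators to `1`.

`inf_order`: powers of `gn a * gn b` are pairwise different if `M a b = 0` (`orderOf_gn`,
`injective_pow_iff_not_isOfFinOrder` or `orderOf_eq_zero_iff`).
-/

namespace SCG

variable {V V' : Type} {M : CoxeterMatrix V} {M' : CoxeterMatrix V'}

theorem altWord_map (e : V' → V) (x y : V') (m : ℕ) :
    CoxeterSystem.alternatingWord (e x) (e y) m = (CoxeterSystem.alternatingWord x y m).map e := by
  induction m generalizing x y with
  | zero => simp [CoxeterSystem.alternatingWord]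
  | succ m ih => simp [CoxeterSystem.alternatingWord, ih]

theorem mem_altWord_right (i j : V) {m : ℕ} (hm : 1 ≤ m) :
    j ∈ CoxeterSystem.alternatingWord i j m := by
  obtain ⟨k, rfl⟩ : ∃ k, m = k + 1 := ⟨m - 1, by omega⟩
  simp [CoxeterSystem.alternatingWord]

theorem mem_altWord_left (i j : V) {m : ℕ} (hm : 2 ≤ m) :
    i ∈ CoxeterSystem.alternatingWord i j m := by
  obtain ⟨k, rfl⟩ : ∃ k, m = k + 1 := ⟨m - 1, by omega⟩
  rw [CoxeterSystem.alternatingWord, List.concat_eq_append, List.mem_append]
  exact Or.inl (mem_altWord_right j i (by omega))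

open Classical in
/-- The map to the group with zero which is zero outside of the range of `e`. -/
noncomputable def ff (M' : CoxeterMatrix V') (e : V' → V) (s : V) : WithZero M'.Group :=
  if h : ∃ x, e x = s then ((gn M' h.choose : M'.Group) : WithZero M'.Group) else 0

theorem ff_apply (M' : CoxeterMatrix V') {e : V' → V} (he : Function.Injective e) (x : V') :
    ff M' e (e x) = ((gn M' x : M'.Group) : WithZero M'.Group) := by
  have h : ∃ y, e y = e x := ⟨x, rfl⟩
  have hx : h.choose = x := he h.choose_spec
  unfold ff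
  rw [dif_pos h, hx]

theorem ff_zero (M' : CoxeterMatrix V') {e : V' → V} {s : V} (h : ¬ ∃ x, e x = s) :
    ff M' e s = 0 := by
  unfold ff
  rw [dif_neg h]

theorem ff_prod (M' : CoxeterMatrix V') {e : V' → V} (he : Function.Injective e) (ω : List V') :
    ((ω.map e).map (ff M' e)).prod =
      ((M'.toCoxeterSystem.wordProd ω : M'.Group) : WithZero M'.Group) := by
  induction ω with
  | nil => simp
  | cons x ω ih =>
    rw [List.map_cons, List.map_cons, List.prod_cons, ih, ff_apply M' he,
      CoxeterSystem.wordProd_cons, WithZero.coe_mul]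

theorem ff_braid (e : V' → V) (he : Function.Injective e) (h : ∀ x y, M (e x) (e y) = M' x y)
    (i j : V) (hij : i ≠ j) (hM : M i j ≠ 0) :
    ((CoxeterSystem.alternatingWord i j (M i j)).map (ff M' e)).prod =
      ((CoxeterSystem.alternatingWord j i (M i j)).map (ff M' e)).prod := by
  have h2 : 2 ≤ M i j := by
    have h1 := M.off_diagonal i j hij
    omega
  by_cases hi : ∃ x, e x = i
  · by_cases hj : ∃ y, e y = j
    · obtain ⟨x, rfl⟩ := hi
      obtain ⟨y, rfl⟩ := hj
      rw [altWord_map, altWord_map, ff_prod M' he, ff_prod M' he, h]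
      have h3 := M'.toCoxeterSystem.wordProd_braidWord_eq x y
      unfold CoxeterSystem.braidWord at h3
      rw [M'.symmetric y x] at h3
      rw [h3]
    · rw [List.prod_eq_zero, List.prod_eq_zero]
      · exact List.mem_map.2 ⟨j, mem_altWord_left j i h2, ff_zero M' hj⟩
      · exact List.mem_map.2 ⟨j, mem_altWord_right i j (by omega), ff_zero M' hj⟩
  · rw [List.prod_eq_zero, List.prod_eq_zero]
    · exact List.mem_map.2 ⟨i, mem_altWord_right j i (by omega), ff_zero M' hi⟩
    · exact List.mem_map.2 ⟨i, mem_altWord_left i j h2, ff_zero M' hi⟩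

theorem exists_emb (e : V' → V) (he : Function.Injective e) (h : ∀ x y, M (e x) (e y) = M' x y) :
    ∃ φ : M'.Group →* M.Group, (∀ x, φ (gn M' x) = gn M (e x)) ∧ Function.Injective φ := by
  have hl : M'.IsLiftable fun x => gn M (e x) := fun x y => by
    have h1 := M.toCoxeterSystem.simple_mul_simple_pow (e x) (e y)
    rw [h] at h1
    exact h1
  set φ : M'.Group →* M.Group := M'.toCoxeterSystem.lift ⟨fun x => gn M (e x), hl⟩ with hφ
  have hφ1 : ∀ x, φ (gn M' x) = gn M (e x) := fun x =>
    M'.toCoxeterSystem.lift_apply_simple hl x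
  refine ⟨φ, hφ1, ?_⟩
  have hmat := fun {ω ω' : List V} => matsumoto (M := M) (ff M' e) (ff_braid e he h) (ω := ω) (ω' := ω')
  have key : ∀ u : M'.Group, ∀ ω : List V, M.toCoxeterSystem.IsReduced ω →
      M.toCoxeterSystem.wordProd ω = φ u →
      (ω.map (ff M' e)).prod = (u : WithZero M'.Group) := by
    intro u
    induction u using M'.toCoxeterSystem.simple_induction_right with
    | one =>
      intro ω hω hu
      rw [map_one] at hu
      have h1 : ω.length = 0 := by
        rw [← hω.eq, hu, CoxeterSystem.length_one]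
      rw [List.length_eq_zero_iff.1 h1]
      simp
    | mul_simple_right u x ih =>
      intro ω hω hu
      have hsx : M'.toCoxeterSystem.simple x = gn M' x := rfl
      rw [hsx, map_mul, hφ1] at hu
      obtain ⟨ω₁, hω₁, hu₁⟩ := M.toCoxeterSystem.exists_isReduced (φ u)
      have ih1 := ih ω₁ hω₁ hu₁.symm
      rcases M.toCoxeterSystem.length_mul_simple (φ u) (e x) with hlen | hlen
      · -- the word `ω₁` followed by `e x` is reduced
        have hr : M.toCoxeterSystem.IsReduced (ω₁ ++ [e x]) := by
          unfold CoxeterSystem.IsReduced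
          rw [CoxeterSystem.wordProd_append, CoxeterSystem.wordProd_singleton, ← hu₁, hlen, hu₁,
            hω₁.eq]
          simp
        have h1 := hmat hω hr (by
          rw [hu, CoxeterSystem.wordProd_append, CoxeterSystem.wordProd_singleton, ← hu₁])
        rw [h1, List.map_append, List.prod_append, ih1]
        simp only [List.map_cons, List.map_nil, List.prod_cons, List.prod_nil, mul_one]
        rw [ff_apply M' he, ← WithZero.coe_mul]
      · have hr : M.toCoxeterSystem.IsReduced (ω ++ [e x]) := by
          unfold CoxeterSystem.IsReduced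
          rw [CoxeterSystem.wordProd_append, CoxeterSystem.wordProd_singleton, hu, mul_assoc,
            CoxeterSystem.simple_mul_simple_self, mul_one, ← hlen]
          have h2 := hω.eq
          rw [hu] at h2
          simp only [List.length_append, List.length_cons, List.length_nil]
          rw [← h2]
        have h1 := hmat hω₁ hr (by
          rw [← hu₁, CoxeterSystem.wordProd_append, CoxeterSystem.wordProd_singleton, hu, mul_assoc,
            CoxeterSystem.simple_mul_simple_self, mul_one])
        rw [ih1, List.map_append, List.prod_append] at h1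
        simp only [List.map_cons, List.map_nil, List.prod_cons, List.prod_nil, mul_one] at h1
        rw [ff_apply M' he] at h1
        rw [hsx, WithZero.coe_mul, h1, mul_assoc, ← WithZero.coe_mul, gn_mul_self,
          WithZero.coe_one, mul_one]
  intro u v huv
  obtain ⟨ω, hω, hu⟩ := M.toCoxeterSystem.exists_isReduced (φ u)
  have h1 := key u ω hω hu.symm
  have h2 := key v ω hω (hu.symm.trans huv)
  exact WithZero.coe_inj.1 (h1.symm.trans h2)

theorem ne_of_zero {x y : V} (h0 : M x y = 0) : x ≠ y := by
  rintro rfl
  rw [M.diagonal] at h0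
  exact one_ne_zero h0

theorem sph_ne {T : Finset V} (h : Sph M T) {x y : V} (hx : x ∈ T) (hy : y ∈ T) : M x y ≠ 0 := by
  intro h0
  have hxy : x ≠ y := ne_of_zero h0
  have ho := orderOf_gn M hxy
  rw [h0, orderOf_eq_zero_iff] at ho
  apply ho
  rw [← finite_powers]
  refine h.subset ?_
  rintro z ⟨n, rfl⟩
  have h1 : ∀ z ∈ T, gn M z ∈ WT M (T : Set V) := fun z hz =>
    Subgroup.subset_closure ⟨z, hz, rfl⟩
  exact (WT M (T : Set V)).pow_mem ((WT M (T : Set V)).mul_mem (h1 x hx) (h1 y hy)) n

theorem sph_iff (e : V' ↪ V) (h : ∀ x y, M (e x) (e y) = M' x y) (T : Finset V') :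
    Sph M (T.map e) ↔ Sph M' T := by
  obtain ⟨φ, hφ, hinj⟩ := exists_emb (M := M) (M' := M') e e.injective h
  have h1 : WT M ((T.map e : Finset V) : Set V) = (WT M' (T : Set V')).map φ := by
    unfold WT
    rw [MonoidHom.map_closure]
    congr 1
    ext z
    simp only [Finset.coe_map, Set.mem_image]
    constructor
    · rintro ⟨y, ⟨x, hx, rfl⟩, rfl⟩
      exact ⟨gn M' x, ⟨x, hx, rfl⟩, hφ x⟩
    · rintro ⟨y, ⟨x, hx, rfl⟩, rfl⟩
      exact ⟨e x, ⟨x, hx, rfl⟩, (hφ x).symm⟩
  unfold Sph
  rw [h1, Subgroup.coe_map]
  exact Set.finite_image_iff hinj.injOn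

theorem not_mem_WT {Y : Set V} {c : V} (hc : c ∉ Y) (h : ∀ y, y ≠ c → M c y = 2 ∨ M c y = 0) :
    gn M c ∉ WT M Y := by
  classical
  set f : V → Multiplicative (ZMod 2) := fun y => if y = c then Multiplicative.ofAdd 1 else 1 with hf
  have h11 : (Multiplicative.ofAdd (1 : ZMod 2)) ^ 2 = 1 := by decide
  have hl : M.IsLiftable f := by
    intro i j
    by_cases hi : i = c
    · by_cases hj : j = c
      · subst hi
        subst hj
        rw [M.diagonal, pow_one]
        simp only [hf, if_true]
        rw [← pow_two]
        exact h11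
      · subst hi
        simp only [hf, if_true, if_neg hj, mul_one]
        rcases h j hj with h2 | h2
        · rw [h2]; exact h11
        · rw [h2]; exact pow_zero _
    · by_cases hj : j = c
      · subst hj
        simp only [hf, if_true, if_neg hi, one_mul]
        rw [M.symmetric i j]
        rcases h i hi with h2 | h2
        · rw [h2]; exact h11
        · rw [h2]; exact pow_zero _
      · simp only [hf, if_neg hi, if_neg hj, one_mul, one_pow]
  set χ : M.Group →* Multiplicative (ZMod 2) := M.toCoxeterSystem.lift ⟨f, hl⟩ with hχ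
  have hχ1 : ∀ x, χ (gn M x) = f x := fun x => M.toCoxeterSystem.lift_apply_simple hl x
  intro hmem
  have hle : WT M Y ≤ χ.ker := by
    unfold WT
    rw [Subgroup.closure_le]
    rintro z ⟨y, hy, rfl⟩
    have hyc : y ≠ c := fun e => hc (e ▸ hy)
    show gn M y ∈ χ.ker
    rw [MonoidHom.mem_ker, hχ1]
    simp only [hf, if_neg hyc]
  have h3 := hle hmem
  rw [MonoidHom.mem_ker, hχ1] at h3
  simp only [hf, if_true] at h3
  exact absurd h3 (by decide)

theorem inf_order {a b : V} (h : M a b = 0) :
    Function.Injective fun n : ℕ => (gn M a * gn M b) ^ n := by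
  have ho := orderOf_gn M (ne_of_zero h)
  rw [h, orderOf_eq_zero_iff] at ho
  exact injective_pow_iff_not_isOfFinOrder.2 ho

end SCG
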