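import Pool.Agent.SCG.Geo
import Pool.Agent.SCG.Chn

/-!
# Project SCG (architect helper40), module Sep: generators outside of a parabolic subgroup

For `c ∉ Y` the generator `gn M c` is not in the subgroup generated by `Y`: the elements of this subgroup
do not change the coordinate `c` of vectors of the geometric representation.
-/

namespace SCG

variable {V : Type} {M : CoxeterMatrix V}

theorem geo_coord {Y : Set V} {c : V} (hc : c ∉ Y) {w : M.Group} (hw : w ∈ WT M Y) :
    ∀ v : V →₀ ℝ, geo M w v c = v c := by
  unfold WT at hw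
  induction hw using Subgroup.closure_induction with
  | mem x hx =>
    obtain ⟨y, hy, rfl⟩ := hx
    intro v
    have hyc : y ≠ c := fun e => hc (e ▸ hy)
    rw [geo_gn, rf, Module.reflection_apply, Finsupp.sub_apply, Finsupp.smul_apply,
      Finsupp.single_eq_of_ne hyc.symm, smul_zero, sub_zero]
  | one => intro v; simp
  | mul x y _ _ hx hy =>
    intro v
    rw [map_mul, LinearEquiv.mul_apply, hx, hy]
  | inv x _ hx =>
    intro v
    have h1 := hx (geo M x⁻¹ v)
    rw [← LinearEquiv.mul_apply, ← map_mul, mul_inv_cancel, map_one, LinearEquiv.coe_one, id] at h1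
    exact h1.symm

theorem gn_nmem {Y : Set V} {c : V} (hc : c ∉ Y) : gn M c ∉ WT M Y := by
  intro h
  have h1 := geo_coord hc h (Finsupp.single c 1)
  rw [geo_gn, rf, Module.reflection_apply_self, Finsupp.neg_apply, Finsupp.single_eq_same] at h1
  norm_num at h1

theorem not_mem_WS {Y : Finset V} {c : V} (hc : c ∉ Y) : gn M c ∉ WS M Y :=
  gn_nmem (by exact_mod_cast hc)

end SCG
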