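import Pool.Agent.SCG.Cone1
import Pool.Agent.SCG.Loc
import Pool.Agent.SCG.Sep

/-!
# Project SCG (architect helper40), module Cone: the projection onto the harmonic chains of a cone

Let `c ∉ Y` be adjacent to all elements of `Y`, `cY = insert c Y`, `R = rt (gn G c)` (`R² = 1`, `R`
symmetric by `rt_inner`, `(sm c)⁻¹ = sm c`).

`PP_cone`: `PP_eq` with `y = (1/2) (x + R x)`: `y ∈ HH Y j` (`rt_HH`), `R y = y`, so `y ∈ HH cY j`; for
`z ∈ HH cY j` (`R z = z`) `⟪x - y, z⟫ = (1/2) ⟪x - R x, z⟫ = (1/2) (⟪x, z⟫ - ⟪x, R z⟫) = 0`.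

`dm_cone`: `X ≤ HH Y j` closed, stable under `R` and under `M = mu (WS G Y)`.  Put `P = PP (HH cY j)`,
`Q = PP X`.  `im P X = X⁺ = {x ∈ X | R x = x}` (`P x = (1/2)(x + R x) ∈ X`, `P x = x` for `x ∈ X⁺`).
`PP (im P X) y = (1/2) (Q y + R (Q y))` by `PP_eq` (it is in `X⁺`; for `x ∈ X⁺`
`⟪(1/2)(Q y + R Q y), x⟫ = ⟪Q y, x⟫ = ⟪y, x⟫`).  So `dm (im P X) = (1/2) dm X + (1/2) ∑_i (R (Q δ_i)) (i, 1)`
with `δ_i = dl i 1`, and `(R (Q δ_i)) (i, 1) = (Q δ_i) (i, sm c) = 0`: `Q` commutes with `M` (`PP_comm`,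
`mu_inner`), `M δ_i = δ_i` (`1 ∈ WS G Y`), so `Q δ_i = M (Q δ_i)` vanishes at `(i, sm c)` since
`sm c ∉ WS G Y` (`not_mem_WS`).

`bb_cone`: `X = HH Y j`: `im P X = HH cY j` (`P x = x` on `HH cY j ≤ HH Y j`).
-/

namespace SCG

open SNG Finset SCS
open scoped InnerProductSpace

variable {V : Type} [Fintype V] [LinearOrder V] {G : CoxeterMatrix V}

omit [Fintype V] [LinearOrder V] in
private theorem rt_rt (c : V) (f : HW G) : rt (gn G c) (rt (gn G c) f) = f := by
  rw [← rt_mul, gn_mul_self, rt_one]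

private theorem half_fix (c : V) (f : HW G) :
    rt (gn G c) ((1 / 2 : ℝ) • (f + rt (gn G c) f)) = (1 / 2 : ℝ) • (f + rt (gn G c) f) := by
  rw [map_smul, map_add, rt_rt, add_comm]

theorem PP_cone {Y : Finset V} {c : V} (hcY : c ∉ Y) (hc : ∀ y ∈ Y, G c y = 2) {j : ℕ}
    {f : HW G} (hf : f ∈ HH G Y j) :
    PP (HH G (insert c Y) j) f = (1 / 2 : ℝ) • (f + rt (gn G c) f) := by
  refine PP_eq (Submodule.le_topologicalClosure _ ((hh_cone_iff hcY hc).2 ⟨?_, half_fix c f⟩)) ?_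
  · exact Submodule.smul_mem _ _ (Submodule.add_mem _ hf (rt_HH hc hf))
  · intro z hz
    have hz2 := ((hh_cone_iff hcY hc).1 hz).2
    rw [inner_sub_left, real_inner_smul_left, inner_add_left, rt_symm, hz2]
    ring

theorem dm_cone {Y : Finset V} {c : V} (hcY : c ∉ Y) (hc : ∀ y ∈ Y, G c y = 2) {j : ℕ}
    {X : Submodule ℝ (HW G)} (hX : X ≤ HH G Y j) (hcl : IsClosed (X : Set (HW G)))
    (hR : ∀ x ∈ X, rt (gn G c) x ∈ X) (hM : ∀ x ∈ X, mu (WS G Y : Set G.Group) x ∈ X) :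
    dm (im (PP (HH G (insert c Y) j)) X) = dm X / 2 := by
  have hclX : X.topologicalClosure = X := hcl.submodule_topologicalClosure_eq
  have hQ : ∀ y, PP X y ∈ X := fun y => by
    have h1 := PP_mem X y
    rwa [hclX] at h1
  have hP : ∀ y, PP (im (PP (HH G (insert c Y) j)) X) y =
      (1 / 2 : ℝ) • (PP X y + rt (gn G c) (PP X y)) := by
    intro y
    refine PP_eq (Submodule.le_topologicalClosure _ ?_) ?_
    · rw [← PP_cone hcY hc (hX (hQ y))]
      exact ⟨PP X y, hQ y, rfl⟩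
    · rintro z ⟨x, hx, rfl⟩
      change ⟪y - (1 / 2 : ℝ) • (PP X y + rt (gn G c) (PP X y)),
        PP (HH G (insert c Y) j) x⟫_ℝ = 0
      rw [PP_cone hcY hc (hX hx)]
      obtain ⟨z, hz⟩ : ∃ z, z = (1 / 2 : ℝ) • (x + rt (gn G c) x) := ⟨_, rfl⟩
      have hzX : z ∈ X := by
        rw [hz]
        exact Submodule.smul_mem _ _ (Submodule.add_mem _ hx (hR x hx))
      have hzR : rt (gn G c) z = z := by
        rw [hz]
        exact half_fix c x
      rw [← hz, inner_sub_left, real_inner_smul_left, inner_add_left, rt_symm, hzR]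
      have h1 := PP_sub X y z hzX
      rw [inner_sub_left] at h1
      linarith
  have hdiag : ∀ i : Finset V, PP X (dl i 1) (i, gn G c) = 0 := by
    intro i
    have h1 : mu (WS G Y : Set G.Group) (dl i 1 : HW G) = dl i 1 := by
      classical
      refine ell_ext fun q => ?_
      rw [mu_apply, dl_apply]
      by_cases hq : q = (i, 1)
      · rw [if_pos hq, if_pos]
        rw [hq]
        exact (WS G Y).one_mem
      · rw [if_neg hq, ite_self]
    have h2 := PP_comm (X := X) (M := mu (WS G Y : Set G.Group)) (fun x y => mu_inner _ x y) hM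
      (dl i 1)
    rw [h1] at h2
    rw [h2, mu_apply, if_neg]
    exact not_mem_WS hcY
  unfold dm tr
  rw [Finset.sum_div]
  refine Finset.sum_congr rfl fun i _ => ?_
  rw [hP, ell_smul, ell_add, rt_apply]
  change 1 / 2 * (PP X (dl i 1) (i, 1) + PP X (dl i 1) (i, 1 * gn G c)) = _
  rw [one_mul, hdiag i]
  ring

theorem bb_cone {Y : Finset V} {c : V} (hcY : c ∉ Y) (hc : ∀ y ∈ Y, G c y = 2) (j : ℕ) :
    bb G (insert c Y) j = bb G Y j / 2 := by
  have h1 := dm_cone hcY hc (le_refl (HH G Y j)) (closed_HH Y j) (fun x hx => rt_HH hc hx)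
    (fun x hx => mu_HH (rinv_WS G Y) hx)
  have h2 : im (PP (HH G (insert c Y) j)) (HH G Y j) = HH G (insert c Y) j := by
    refine le_antisymm ?_ ?_
    · rintro z ⟨x, -, rfl⟩
      have h3 := PP_mem (HH G (insert c Y) j) x
      rwa [(closed_HH (insert c Y) j).submodule_topologicalClosure_eq] at h3
    · intro z hz
      exact ⟨z, ((hh_cone_iff hcY hc).1 hz).1, PP_self hz⟩
  rw [h2] at h1
  exact h1

end SCG
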