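import Pool.Agent.SCG.Trans
import Pool.Agent.SCG.Stmt
import Pool.Agent.SCG.Csum
import Pool.Agent.SCG.Susp

/-!
# Project SCG (architect helper40), module Iface: the rules for `ZG`

`sub M S`: the Coxeter matrix restricted to `S`; `VV M`: the harmonic chains of the Davis complex of `M`
vanish in all degrees; `ZG M S`: this holds for `sub M S` (for all orders of the vertices).
-/

namespace SCG

open SNG Finset SCS

theorem sub_apply {V : Type} (M : CoxeterMatrix V) (S : Finset V) (x y : {x // x ∈ S}) :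
    sub M S x y = M x.1 y.1 := rfl

/-- The harmonic chains vanish. -/
def VV {V : Type} [Fintype V] [LinearOrder V] (M : CoxeterMatrix V) : Prop :=
  ∀ j, HH M univ j = ⊥

/-- The harmonic chains of the special subgroup generated by `S` vanish, for all orders. -/
def ZG {V : Type} (M : CoxeterMatrix V) (S : Finset V) : Prop :=
  ∀ _ : LinearOrder {x // x ∈ S}, VV (sub M S)

theorem zg_iff {V : Type} [Fintype V] [LinearOrder V] {G : CoxeterMatrix V} {S : Finset V} :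
    ZG G S ↔ ∀ j, HH G S j = ⊥ := by
  have hm : (univ : Finset {x // x ∈ S}).map (Function.Embedding.subtype fun x => x ∈ S) = S := by
    ext x
    simp
  constructor
  · intro h j
    have h1 := hh_to (Function.Embedding.subtype fun x => x ∈ S) (M := G) (M' := sub G S)
      (fun _ _ => rfl) (h inferInstance) j
    rwa [hm] at h1
  · intro h i
    refine hh_from (Function.Embedding.subtype fun x => x ∈ S) (M := G) (fun _ _ => rfl)
      fun j => ?_
    rw [hm]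
    exact h j

theorem vv_iff_zg {V : Type} [Fintype V] [LinearOrder V] {G : CoxeterMatrix V} :
    VV G ↔ ZG G univ := by
  rw [zg_iff]
  exact Iff.rfl

private theorem vvA_congr {X Y : Type} [Fintype X] [Fintype Y] {G1 : CoxeterMatrix X}
    {G2 : CoxeterMatrix Y} (E : X ≃ Y) (hE : ∀ x y, G2 (E x) (E y) = G1 x y)
    (h : ∀ _ : LinearOrder X, VV G1) : ∀ _ : LinearOrder Y, VV G2 := by
  intro i
  let i' : LinearOrder X := LinearOrder.lift' E E.injective
  intro j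
  have h1 := hh_to E.toEmbedding (M := G2) hE (h i') j
  rwa [map_univ_equiv] at h1

variable {V V' : Type} [DecidableEq V] [DecidableEq V'] {G : CoxeterMatrix V} {G' : CoxeterMatrix V'}

omit [DecidableEq V] in
theorem zg_image {S : Finset V} (e : V → V') (hi : ∀ x ∈ S, ∀ y ∈ S, e x = e y → x = y)
    (he : ∀ x ∈ S, ∀ y ∈ S, G' (e x) (e y) = G x y) : ZG G S ↔ ZG G' (S.image e) := by
  let E : {x // x ∈ S} ≃ {y // y ∈ S.image e} :=
    Equiv.ofBijective (fun x => ⟨e x.1, mem_image_of_mem e x.2⟩) (by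
      constructor
      · intro x y hxy
        exact Subtype.ext (hi x.1 x.2 y.1 y.2 (congrArg Subtype.val hxy))
      · rintro ⟨y, hy⟩
        obtain ⟨x, hx, rfl⟩ := mem_image.1 hy
        exact ⟨⟨x, hx⟩, rfl⟩)
  have hE : ∀ x y, sub G' (S.image e) (E x) (E y) = sub G S x y :=
    fun x y => he x.1 x.2 y.1 y.2
  constructor
  · intro h
    exact vvA_congr E hE h
  · intro h
    refine vvA_congr E.symm (fun x y => ?_) h
    rw [← hE, E.apply_symm_apply, E.apply_symm_apply]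

/-- the part of `S` in the subtype of `U` -/
private def res (U S : Finset V) : Finset {x // x ∈ U} := univ.filter fun x => x.1 ∈ S

private theorem mem_res {U S : Finset V} {x : {x // x ∈ U}} : x ∈ res U S ↔ x.1 ∈ S := by
  simp [res]

private theorem zg_sub {U S : Finset V} (hS : S ⊆ U) [LinearOrder {x // x ∈ U}] :
    ZG G S ↔ ∀ j, HH (sub G U) (res U S) j = ⊥ := by
  have h1 : (res U S).image Subtype.val = S := by
    ext x
    rw [mem_image]
    constructor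
    · rintro ⟨y, hy, rfl⟩
      exact mem_res.1 hy
    · intro hx
      exact ⟨⟨x, hS hx⟩, mem_res.2 hx, rfl⟩
  have h2 := zg_image (G := sub G U) (G' := G) (S := res U S)
    Subtype.val (fun x _ y _ hxy => Subtype.ext hxy) (fun x _ y _ => rfl)
  rw [h1] at h2
  rw [← h2, zg_iff]

omit [DecidableEq V] in
private theorem exists_lo (U : Finset V) : Nonempty (LinearOrder {x // x ∈ U}) :=
  ⟨LinearOrder.lift' (Fintype.equivFin {x // x ∈ U}) (Equiv.injective _)⟩

private theorem csum_abs {V₀ : Type} [Fintype V₀] [LinearOrder V₀] {G₀ : CoxeterMatrix V₀}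
    {A B AB cA cB : Finset V₀} {c : V₀} (hu : ∀ x, x = c ∨ x ∈ A ∨ x ∈ B) (hcA : c ∉ A)
    (hcB : c ∉ B) (hc2 : ∀ x, x ∈ A → x ∈ B → G₀ c x = 2)
    (hc0 : ∀ x, (x ∈ A ∨ x ∈ B) → ¬ (x ∈ A ∧ x ∈ B) → G₀ c x = 0) (hn : NoE G₀ A B)
    (e1 : ∀ x, x ∈ cA ↔ x = c ∨ x ∈ A) (e2 : ∀ x, x ∈ cB ↔ x = c ∨ x ∈ B)
    (e3 : ∀ x, x ∈ AB ↔ x ∈ A ∨ x ∈ B) (h1 : ∀ j, HH G₀ cA j = ⊥) (h2 : ∀ j, HH G₀ cB j = ⊥)
    (j : ℕ) : HH G₀ AB j = ⊥ := by
  have E1 : cA = insert c A := by
    ext x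
    rw [mem_insert]
    exact e1 x
  have E2 : cB = insert c B := by
    ext x
    rw [mem_insert]
    exact e2 x
  have E3 : AB = A ∪ B := by
    ext x
    rw [mem_union]
    exact e3 x
  subst E1 E2 E3
  exact csum_hh hu hcA hcB (fun x hx => hc2 x (mem_inter.1 hx).1 (mem_inter.1 hx).2)
    (fun x hx hx' => hc0 x (mem_union.1 hx) fun h => hx' (mem_inter.2 h)) hn h1 h2 j

private theorem mv_abs {V₀ : Type} [Fintype V₀] [LinearOrder V₀] {G₀ : CoxeterMatrix V₀}
    {A B AB C : Finset V₀} (hn : NoE G₀ A B) (e1 : ∀ x, x ∈ C ↔ x ∈ A ∧ x ∈ B)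
    (e3 : ∀ x, x ∈ AB ↔ x ∈ A ∨ x ∈ B) (h1 : ∀ j, HH G₀ A j = ⊥) (h2 : ∀ j, HH G₀ B j = ⊥)
    (h3 : ∀ j, HH G₀ C j = ⊥) : ∀ j, HH G₀ AB j = ⊥ := by
  have E1 : C = A ∩ B := by
    ext x
    rw [mem_inter]
    exact e1 x
  have E3 : AB = A ∪ B := by
    ext x
    rw [mem_union]
    exact e3 x
  subst E1 E3
  rw [mv_iff hn]
  intro j
  refine ⟨?_, ?_⟩
  · rw [eq_bot_iff, ← h3 j]
    unfold KK
    exact inf_le_left.trans inf_le_left
  · unfold bb
    rw [h1, h2, h3, dm_bot, add_zero]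

private theorem cone_abs {V₀ : Type} [Fintype V₀] [LinearOrder V₀] {G₀ : CoxeterMatrix V₀}
    {Y cY : Finset V₀} {c : V₀} (hcY : c ∉ Y) (hc : ∀ y ∈ Y, G₀ c y = 2)
    (e1 : ∀ x, x ∈ cY ↔ x = c ∨ x ∈ Y) (h : ∀ j, HH G₀ Y j = ⊥) (j : ℕ) :
    HH G₀ cY j = ⊥ := by
  have E1 : cY = insert c Y := by
    ext x
    rw [mem_insert]
    exact e1 x
  subst E1
  rw [eq_bot_iff, ← h j]
  intro f hf
  exact ((hh_cone_iff hcY hc).1 hf).1

private theorem susp_abs {V₀ : Type} [Fintype V₀] [LinearOrder V₀] {G₀ : CoxeterMatrix V₀}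
    {Y Z : Finset V₀} {a b : V₀} (ha : a ∉ Y) (hb : b ∉ Y) (hab : a ≠ b)
    (hn : G₀ a b = 0) (h : ∀ y ∈ Y, G₀ a y = 2 ∧ G₀ b y = 2)
    (e1 : ∀ x, x ∈ Z ↔ x = a ∨ x = b ∨ x ∈ Y) (j : ℕ) : HH G₀ Z j = ⊥ := by
  have E1 : Z = insert a (insert b Y) := by
    ext x
    rw [mem_insert, mem_insert]
    exact e1 x
  subst E1
  exact susp_hh ha hb hab hn h j

private theorem noe_res {U A B : Finset V} (hn : NoE G A B) :
    NoE (sub G U) (res U A) (res U B) := by
  intro x hx hx' y hy hy'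
  rw [mem_res] at hx hx' hy hy'
  exact hn x.1 hx hx' y.1 hy hy'

/-- The connected sum theorem. -/
theorem zg_csum {A B : Finset V} {c : V} (hcA : c ∉ A) (hcB : c ∉ B)
    (hc2 : ∀ x ∈ A ∩ B, G c x = 2) (hc0 : ∀ x ∈ A ∪ B, x ∉ A ∩ B → G c x = 0)
    (hn : NoE G A B) (h1 : ZG G (insert c A)) (h2 : ZG G (insert c B)) : ZG G (A ∪ B) := by
  obtain ⟨U, hU⟩ : ∃ U, U = insert c (A ∪ B) := ⟨_, rfl⟩
  have hcU : c ∈ U := by
    rw [hU]
    exact mem_insert_self _ _
  obtain ⟨i⟩ := exists_lo U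
  rw [zg_sub (U := U) (by rw [hU]; exact insert_subset_insert _ subset_union_left)] at h1
  rw [zg_sub (U := U) (by rw [hU]; exact insert_subset_insert _ subset_union_right)] at h2
  rw [zg_sub (U := U) (by rw [hU]; exact subset_insert _ _)]
  have hx : ∀ x : {x // x ∈ U}, x = ⟨c, hcU⟩ ∨ x.1 ∈ A ∨ x.1 ∈ B := by
    rintro ⟨x, hx⟩
    rw [hU, mem_insert, mem_union] at hx
    rcases hx with rfl | hx
    · exact Or.inl rfl
    · exact Or.inr hx
  refine csum_abs (A := res U A) (B := res U B) (cA := res U (insert c A))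
    (cB := res U (insert c B)) (c := ⟨c, hcU⟩) ?_ ?_ ?_ ?_ ?_ (noe_res hn) ?_ ?_ ?_ h1 h2
  · intro x
    rw [mem_res, mem_res]
    exact hx x
  · rw [mem_res]
    exact hcA
  · rw [mem_res]
    exact hcB
  · intro x h3 h4
    rw [mem_res] at h3 h4
    exact hc2 x.1 (mem_inter.2 ⟨h3, h4⟩)
  · intro x h3 h4
    rw [mem_res, mem_res] at h3 h4
    exact hc0 x.1 (mem_union.2 h3) fun h5 => h4 (mem_inter.1 h5)
  · intro x
    rw [mem_res, mem_res, mem_insert, Subtype.ext_iff]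
  · intro x
    rw [mem_res, mem_res, mem_insert, Subtype.ext_iff]
  · intro x
    rw [mem_res, mem_res, mem_res, mem_union]

theorem zg_mv {A B : Finset V} (hn : NoE G A B) (h1 : ZG G A) (h2 : ZG G B)
    (h3 : ZG G (A ∩ B)) : ZG G (A ∪ B) := by
  obtain ⟨U, hU⟩ : ∃ U, U = A ∪ B := ⟨_, rfl⟩
  obtain ⟨i⟩ := exists_lo U
  rw [zg_sub (U := U) (by rw [hU]; exact subset_union_left)] at h1
  rw [zg_sub (U := U) (by rw [hU]; exact subset_union_right)] at h2
  rw [zg_sub (U := U) (by rw [hU]; exact inter_subset_left.trans subset_union_left)] at h3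
  rw [zg_sub (U := U) (by rw [hU])]
  refine mv_abs (noe_res hn) (fun x => ?_) (fun x => ?_) h1 h2 h3
  · rw [mem_res, mem_res, mem_res, mem_inter]
  · rw [mem_res, mem_res, mem_res, mem_union]

theorem zg_cone {Y : Finset V} {c : V} (hcY : c ∉ Y) (hc : ∀ y ∈ Y, G c y = 2) (h : ZG G Y) :
    ZG G (insert c Y) := by
  obtain ⟨U, hU⟩ : ∃ U, U = insert c Y := ⟨_, rfl⟩
  have hcU : c ∈ U := by
    rw [hU]
    exact mem_insert_self _ _
  obtain ⟨i⟩ := exists_lo U
  rw [zg_sub (U := U) (by rw [hU]; exact subset_insert _ _)] at h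
  rw [zg_sub (U := U) (by rw [hU])]
  refine cone_abs (c := ⟨c, hcU⟩) ?_ ?_ (fun x => ?_) h
  · rw [mem_res]
    exact hcY
  · intro y hy
    rw [mem_res] at hy
    exact hc y.1 hy
  · rw [mem_res, mem_res, mem_insert, Subtype.ext_iff]

theorem zg_susp {Y : Finset V} {a b : V} (ha : a ∉ Y) (hb : b ∉ Y) (hab : a ≠ b)
    (hn : G a b = 0) (h : ∀ y ∈ Y, G a y = 2 ∧ G b y = 2) :
    ZG G (insert a (insert b Y)) := by
  obtain ⟨U, hU⟩ : ∃ U, U = insert a (insert b Y) := ⟨_, rfl⟩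
  have haU : a ∈ U := by
    rw [hU]
    exact mem_insert_self _ _
  have hbU : b ∈ U := by
    rw [hU]
    exact mem_insert_of_mem (mem_insert_self _ _)
  obtain ⟨i⟩ := exists_lo U
  rw [zg_sub (U := U) (by rw [hU])]
  refine susp_abs (Y := res U Y) (a := ⟨a, haU⟩) (b := ⟨b, hbU⟩) ?_ ?_ ?_ ?_ ?_ fun x => ?_
  · rw [mem_res]
    exact ha
  · rw [mem_res]
    exact hb
  · intro h1
    exact hab (congrArg Subtype.val h1)
  · exact hn
  · intro y hy
    rw [mem_res] at hy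
    exact h y.1 hy
  · rw [mem_res, mem_res, mem_insert, mem_insert, Subtype.ext_iff, Subtype.ext_iff]

end SCG
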