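import Mathlib

/-!
# The square summable Betti numbers of Coxeter groups

Definitions.  `M` is a Coxeter matrix on `V` (`0` stands for `∞`), `M.Group` the Coxeter group.
-/

namespace SCG

open Finset

variable {V : Type}

/-- The finite set `T` of generators generates a finite subgroup (`T` is a simplex of the nerve, or
empty). -/
def Fi (M : CoxeterMatrix V) (T : Finset V) : Prop :=
  ((Subgroup.closure (M.toCoxeterSystem.simple '' (T : Set V)) : Subgroup M.Group) : Set M.Group).Finite

/-- Square summable real functions of the pairs `(T, g)`, `T` a finite set of generators, `g` an element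
of the Coxeter group. -/
abbrev EW (M : CoxeterMatrix V) : Type := lp (fun _ : Finset V × M.Group => ℝ) 2

/-- The square summable cellular `j`-chains of the Davis complex.  The cells of dimension `j` are the
cosets of the finite subgroups generated by sets `T` of `j` generators; the cell, oriented by its vertex
`g` and the ordered set `T`, changes its sign when `g` is replaced by `g s`, `s ∈ T`. -/
noncomputable def Ch (M : CoxeterMatrix V) (j : ℕ) : Set (EW M) :=
  {f | (∀ T, ¬ (Fi M T ∧ T.card = j) → ∀ g, f (T, g) = 0) ∧
    ∀ T, ∀ s ∈ T, ∀ g, f (T, g * M.toCoxeterSystem.simple s) = - f (T, g)}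

variable [Fintype V] [LinearOrder V]

/-- The cellular boundary: the sum over `s ∉ T` of `± f (T ∪ {s}, g)`. -/
noncomputable def bd {M : CoxeterMatrix V} (f : EW M) (T : Finset V) (g : M.Group) : ℝ :=
  ∑ s ∈ Tᶜ, (-1) ^ (T.filter fun t => t < s).card * f (insert s T, g)

/-- The harmonic square summable `j`-chains: the boundary is zero and the chain is orthogonal to the
boundaries of the square summable `(j + 1)`-chains. -/
noncomputable def Hm (M : CoxeterMatrix V) (j : ℕ) : Submodule ℝ (EW M) :=
  Submodule.span ℝ {f | f ∈ Ch M j ∧ (∀ T g, bd f T g = 0) ∧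
    ∀ h ∈ Ch M (j + 1), ∑ T : Finset V, ∑' g, f (T, g) * bd h T g = 0}

open Classical in
/-- The `j`-th square summable Betti number of the Coxeter group: the von Neumann dimension of the space
of harmonic `j`-chains, i.e. the trace of the orthogonal projection onto (the closure of) this space. -/
noncomputable def b2 (M : CoxeterMatrix V) (j : ℕ) : ℝ :=
  ∑ T : Finset V, (Hm M j).topologicalClosure.starProjection (lp.single 2 (T, 1) 1) (T, 1)

omit [Fintype V] [LinearOrder V] in
/-- The Coxeter matrix restricted to `S`. -/
def rs (M : CoxeterMatrix V) (S : Finset V) : CoxeterMatrix {x // x ∈ S} where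
  M := Matrix.of fun x y => M x.1 y.1
  isSymm := by
    ext x y
    exact M.symmetric y.1 x.1
  diagonal x := M.diagonal x.1
  off_diagonal x y h := M.off_diagonal x.1 y.1 fun h1 => h (Subtype.ext h1)

end SCG
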