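import Pool.Agent.SCG.Trans

/-!
# Project SCG, module DimT: the square summable Betti numbers do not depend on the ambient group

With the notation of `Trans`: `jj 1` and `js 1` map harmonic chains to harmonic chains, so the projection
of the basis vector at `(T.map e, 1)` is `ε T` times the extension of the projection of the basis vector at
`(T, 1)`; hence `bb M (univ.map e) j = bb M' univ j`.
-/

namespace SCG

open SNG Finset SCS
open scoped InnerProductSpace

variable {V V' : Type} {M : CoxeterMatrix V} {M' : CoxeterMatrix V'}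
variable [Fintype V] [LinearOrder V] [Fintype V'] [LinearOrder V']

private theorem PP_mem_HH {V : Type} [Fintype V] [LinearOrder V] {G : CoxeterMatrix V}
    (S : Finset V) (j : ℕ) (x : HW G) : PP (HH G S j) x ∈ HH G S j := by
  have h := PP_mem (HH G S j) x
  rwa [(closed_HH S j).submodule_topologicalClosure_eq] at h

/-- The Betti numbers do not change under induction. -/
theorem bb_to (e : V' ↪ V) (hM : ∀ x y, M (e x) (e y) = M' x y) (j : ℕ) :
    bb M (univ.map e) j = bb M' univ j := by
  obtain ⟨φ, hφs, hφ⟩ := exists_emb (M := M) (M' := M') e e.injective hM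
  obtain ⟨ε, hε, hεs⟩ := exists_eps e
  have hjj : ∀ f ∈ HH M' univ j, jj e hφ 1 hε f ∈ HH M (univ.map e) j := by
    intro f hf
    rw [mem_HH] at hf
    obtain ⟨hf1, hf2, hf3⟩ := hf
    rw [mem_HH]
    refine ⟨jj_CC e hM hφ hφs 1 hε hf1, ?_, fun k hk => ?_⟩
    · rw [bD_jj e hφ 1 hε hεs, hf2]
      refine ell_ext fun p => ?_
      by_cases hp : ∃ q, qq e φ 1 q = p
      · obtain ⟨⟨T, w⟩, rfl⟩ := hp
        have h2 : jj e hφ 1 hε (0 : HW M') (T.map e, 1 * φ w) = 0 := by
          rw [jj_apply, ell_zero, mul_zero]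
        exact h2
      · exact jj_zero e hφ 1 hε _ hp
    · rw [real_inner_comm, jj_inner, ← bD_js e hφ 1 hε hεs hk, real_inner_comm]
      exact hf3 _ (js_CC e hM hφ hφs 1 hε hk)
  have hjs : ∀ F ∈ HH M (univ.map e) j, js e hφ 1 hε F ∈ HH M' univ j := by
    intro F hF
    rw [mem_HH] at hF
    obtain ⟨hF1, hF2, hF3⟩ := hF
    rw [mem_HH]
    refine ⟨js_CC e hM hφ hφs 1 hε hF1, ?_, fun k hk => ?_⟩
    · rw [bD_js e hφ 1 hε hεs hF1, hF2]
      refine ell_ext ?_
      rintro ⟨T, w⟩
      rw [js_apply, ell_zero, ell_zero, mul_zero]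
    · rw [← jj_inner, ← bD_jj e hφ 1 hε hεs]
      exact hF3 _ (jj_CC e hM hφ hφs 1 hε hk)
  have key : ∀ T : Finset V', PP (HH M (univ.map e) j) (dl (T.map e) 1) (T.map e, 1) =
      PP (HH M' univ j) (dl T 1) (T, 1) := by
    intro T
    have hT : ε T * ε T = 1 := by rw [← sq, hε]
    have h1 : PP (HH M (univ.map e) j) (dl (T.map e) 1) =
        ε T • jj e hφ 1 hε (PP (HH M' univ j) (dl T 1)) := by
      apply PP_eq
      · exact Submodule.le_topologicalClosure _
          (Submodule.smul_mem _ _ (hjj _ (PP_mem_HH univ j _)))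
      · intro z hz
        rw [inner_sub_left, real_inner_smul_left, jj_inner, dl_inner, PP_symm,
          PP_self (hjs z hz), dl_inner, js_apply, map_one, mul_one]
        linear_combination (- z (T.map e, 1)) * hT
    rw [h1, ell_smul]
    have h2 := jj_apply e hφ 1 hε (PP (HH M' univ j) (dl T 1)) T 1
    rw [map_one, mul_one] at h2
    rw [h2, ← mul_assoc, hT, one_mul]
  unfold bb dm tr
  have hsub : (univ : Finset (Finset V')).map ⟨fun T => T.map e, map_injective e⟩ ⊆
      (univ : Finset (Finset V)) := subset_univ _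
  rw [← sum_subset hsub, sum_map]
  · exact sum_congr rfl fun T _ => key T
  · intro T' _ hT'
    have h1 := (mem_CC.1 (mem_HH.1 (PP_mem_HH (G := M) (univ.map e) j (dl T' 1))).1).1
    refine h1 T' (fun h2 => hT' ?_) 1
    obtain ⟨T, _, h3⟩ := subset_map_iff.1 h2.1
    rw [mem_map]
    exact ⟨T, mem_univ _, h3.symm⟩

end SCG
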