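import Pool.Agent.SCG.CsumD
import Pool.Agent.SCG.DimT
import Pool.Agent.SCG.Hom

/-!
# Project SCG, module CsumF: the connected sum inequality for the Betti numbers of the special subgroups

`sub M S`: the Coxeter matrix restricted to `S`.
-/

namespace SCG

open SNG Finset SCS
open scoped InnerProductSpace

/-- The reduced square summable homology of the Davis complex of the Coxeter system `M` in degree `j` is
zero: every square summable `j`-cycle is a limit of boundaries of square summable chains. -/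
def NoHomD {V : Type} [Fintype V] [LinearOrder V] (M : CoxeterMatrix V) (j : ℕ) : Prop :=
  ∀ f : Finset V → M.Group → ℝ, SqCh M j f → (∀ T g, bdry f T g = 0) → ∀ ε : ℝ, 0 < ε →
    ∃ h, SqCh M (j + 1) h ∧ ∑ T : Finset V, ∑' g, (f T g - bdry h T g) ^ 2 < ε

section

variable {V : Type} [Fintype V] [LinearOrder V] {M : CoxeterMatrix V}

omit [LinearOrder V] in
private theorem sq_sum {α : Type} {f : Finset V → α → ℝ} (h : ∀ T, Summable fun g => f T g ^ 2) :
    Summable fun q : Finset V × α => f q.1 q.2 ^ 2 := by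
  rw [summable_prod_of_nonneg (fun q => sq_nonneg _)]
  exact ⟨fun T => h T, (hasSum_fintype _).summable⟩

omit [LinearOrder V] in
private theorem norm_eq {α : Type} (f : Ell (Finset V × α)) :
    ‖f‖ ^ 2 = ∑ T : Finset V, ∑' g, f (T, g) ^ 2 := by
  rw [ell_norm_sq, (ell_summable f).tsum_prod, tsum_fintype]

theorem nohomd_iff {j : ℕ} : NoHomD M j ↔ HH M univ j = ⊥ := by
  constructor
  · intro h
    rw [eq_bot_iff]
    intro f hf
    rw [mem_HH] at hf
    obtain ⟨h1, h2, h3⟩ := hf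
    rw [Submodule.mem_bot]
    by_contra hne
    have hpos : 0 < ‖f‖ ^ 2 := by positivity
    obtain ⟨k, hk, hlt⟩ := h (fun T g => f (T, g)) (sqch_iff.2 h1) (fun T g => by
      have h4 := bD_apply f T g
      rw [h2] at h4
      exact h4.symm) _ hpos
    obtain ⟨F, hF⟩ : ∃ F : HW M, ∀ T g, F (T, g) = k T g := ⟨mkE _ (sq_sum hk.sq), fun _ _ => rfl⟩
    have hFk : (fun T g => F (T, g)) = k := by
      funext T g
      exact hF T g
    have h4 : F ∈ CC M univ (j + 1) := by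
      rw [← sqch_iff, hFk]
      exact hk
    have h5 : ‖f - bD M F‖ ^ 2 < ‖f‖ ^ 2 := by
      rw [norm_eq]
      refine lt_of_eq_of_lt ?_ hlt
      refine sum_congr rfl fun T _ => tsum_congr fun g => ?_
      rw [ell_sub, bD_apply, hFk]
    have h6 : ⟪bD M F, f⟫_ℝ = 0 := h3 F h4
    have h7 : ‖f - bD M F‖ ^ 2 = ‖f‖ ^ 2 + ‖bD M F‖ ^ 2 := by
      have h8 : ⟪f, bD M F⟫_ℝ = 0 := by
        rw [real_inner_comm]
        exact h6
      rw [← real_inner_self_eq_norm_sq, inner_sub_sub_self, h6, h8,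
        real_inner_self_eq_norm_sq, real_inner_self_eq_norm_sq]
      ring
    nlinarith [sq_nonneg ‖bD M F‖]
  · intro h f hf hz ε hε
    obtain ⟨F, hF⟩ : ∃ F : HW M, ∀ T g, F (T, g) = f T g := ⟨mkE _ (sq_sum hf.sq), fun _ _ => rfl⟩
    have hFf : (fun T g => F (T, g)) = f := by
      funext T g
      exact hF T g
    have h1 : F ∈ CC M univ j ⊓ kr (bD M) := by
      refine ⟨?_, ?_⟩
      · have h2 := hf
        rw [← hFf] at h2
        exact sqch_iff.1 h2
      · refine mem_kr.2 (ell_ext ?_)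
        rintro ⟨T, g⟩
        rw [bD_apply, hFf]
        exact hz T g
    rw [cyc_eq, h, sup_bot_eq] at h1
    have h2 : F ∈ closure ((im (bD M) (CC M univ (j + 1)) : Submodule ℝ (HW M)) : Set (HW M)) := h1
    obtain ⟨y, hy, hd⟩ := Metric.mem_closure_iff.1 h2 (Real.sqrt ε) (Real.sqrt_pos.2 hε)
    obtain ⟨k, hk, rfl⟩ := mem_im.1 hy
    refine ⟨fun T g => k (T, g), sqch_iff.2 hk, ?_⟩
    have h3 : ‖F - bD M k‖ ^ 2 < ε := by
      rw [dist_eq_norm] at hd
      calc ‖F - bD M k‖ ^ 2 < Real.sqrt ε ^ 2 := by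
            exact pow_lt_pow_left₀ hd (norm_nonneg _) two_ne_zero
        _ = ε := Real.sq_sqrt hε.le
    rw [norm_eq] at h3
    refine lt_of_eq_of_lt ?_ h3
    refine sum_congr rfl fun T _ => tsum_congr fun g => ?_
    rw [ell_sub, bD_apply, hF]

/-- The homology in degree `j` vanishes iff the `j`-th Betti number does. -/
theorem nohomd_iff_bb {j : ℕ} : NoHomD M j ↔ bb M univ j = 0 := by
  rw [nohomd_iff]
  constructor
  · intro h
    unfold bb
    rw [h, dm_bot]
  · intro h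
    exact dm_eq_bot (inv_HH univ j) (le_of_eq h)

end

private theorem bb_sub {V : Type} [LinearOrder V] (M : CoxeterMatrix V) {U S : Finset V}
    (hS : S ⊆ U) (j : ℕ) : bb (sub M U) (univ.filter fun x => x.1 ∈ S) j = bb (sub M S) univ j := by
  obtain ⟨e, he⟩ : ∃ e : {x // x ∈ S} ↪ {x // x ∈ U}, ∀ x, (e x).1 = x.1 :=
    ⟨⟨fun x => ⟨x.1, hS x.2⟩, fun x y hxy => Subtype.ext
      (congrArg (fun z : {x // x ∈ U} => z.1) hxy)⟩, fun x => rfl⟩
  have h1 : (univ.filter fun x : {x // x ∈ U} => x.1 ∈ S) = univ.map e := by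
    ext x
    rw [mem_filter, mem_map]
    constructor
    · rintro ⟨-, hx⟩
      exact ⟨⟨x.1, hx⟩, mem_univ _, Subtype.ext (he _)⟩
    · rintro ⟨y, -, rfl⟩
      exact ⟨mem_univ _, by rw [he]; exact y.2⟩
  rw [h1]
  refine bb_to (M := sub M U) (M' := sub M S) e (fun x y => ?_) j
  change M (e x).1 (e y).1 = M x.1 y.1
  rw [he, he]

private theorem csum_abs {V₀ : Type} [Fintype V₀] [LinearOrder V₀] {G₀ : CoxeterMatrix V₀}
    {A B AB cA cB : Finset V₀} {c : V₀} (hu : ∀ x, x = c ∨ x ∈ A ∨ x ∈ B) (hcA : c ∉ A)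
    (hcB : c ∉ B) (hc2 : ∀ x, x ∈ A → x ∈ B → G₀ c x = 2)
    (hc0 : ∀ x, (x ∈ A ∨ x ∈ B) → ¬ (x ∈ A ∧ x ∈ B) → G₀ c x = 0) (hn : NoE G₀ A B)
    (e1 : ∀ x, x ∈ cA ↔ x = c ∨ x ∈ A) (e2 : ∀ x, x ∈ cB ↔ x = c ∨ x ∈ B)
    (e3 : ∀ x, x ∈ AB ↔ x ∈ A ∨ x ∈ B) (j : ℕ) : bb G₀ AB j ≤ bb G₀ cA j + bb G₀ cB j := by
  have E1 : cA = insert c A := by
    ext x
    rw [mem_insert]
    exact e1 x
  have E2 : cB = insert c B := by
    ext x
    rw [mem_insert]
    exact e2 x
  have E3 : AB = A ∪ B := by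
    ext x
    rw [mem_union]
    exact e3 x
  subst E1 E2 E3
  exact csum_bb hu hcA hcB (fun x hx => hc2 x (mem_inter.1 hx).1 (mem_inter.1 hx).2)
    (fun x hx hx' => hc0 x (mem_union.1 hx) fun h => hx' (mem_inter.2 h)) hn j

/-- The Betti numbers of the special subgroups are subadditive under connected sums of the nerves. -/
theorem csum_b2 {V : Type} [LinearOrder V] (M : CoxeterMatrix V) {A B : Finset V} {c : V}
    (hcA : c ∉ A) (hcB : c ∉ B) (hc2 : ∀ x ∈ A ∩ B, M c x = 2)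
    (hc0 : ∀ x ∈ A ∪ B, x ∉ A ∩ B → M c x = 0) (hn : ∀ x ∈ A \ B, ∀ y ∈ B \ A, M x y = 0) (j : ℕ) :
    bb (sub M (A ∪ B)) univ j ≤ bb (sub M (insert c A)) univ j + bb (sub M (insert c B)) univ j := by
  obtain ⟨U, hU⟩ : ∃ U, U = insert c (A ∪ B) := ⟨_, rfl⟩
  have hcU : c ∈ U := by
    rw [hU]
    exact mem_insert_self _ _
  have s1 : insert c A ⊆ U := by
    rw [hU]
    exact insert_subset_insert _ subset_union_left
  have s2 : insert c B ⊆ U := by
    rw [hU]
    exact insert_subset_insert _ subset_union_right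
  have s3 : A ∪ B ⊆ U := by
    rw [hU]
    exact subset_insert _ _
  rw [← bb_sub M s1 j, ← bb_sub M s2 j, ← bb_sub M s3 j]
  have mm : ∀ (S : Finset V) (x : {x // x ∈ U}),
      x ∈ (univ.filter fun x : {x // x ∈ U} => x.1 ∈ S) ↔ x.1 ∈ S := by
    intro S x
    rw [mem_filter]
    exact ⟨fun h => h.2, fun h => ⟨mem_univ _, h⟩⟩
  refine csum_abs (A := univ.filter fun x => x.1 ∈ A) (B := univ.filter fun x => x.1 ∈ B)
    (c := ⟨c, hcU⟩) ?_ ?_ ?_ ?_ ?_ ?_ ?_ ?_ ?_ j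
  · rintro ⟨x, hx⟩
    rw [mm, mm]
    have hx' := hx
    rw [hU, mem_insert, mem_union] at hx'
    rcases hx' with h | h
    · exact Or.inl (Subtype.ext h)
    · exact Or.inr h
  · rw [mm]
    exact hcA
  · rw [mm]
    exact hcB
  · intro x h1 h2
    rw [mm] at h1 h2
    exact hc2 x.1 (mem_inter.2 ⟨h1, h2⟩)
  · intro x hx hx'
    rw [mm, mm] at hx hx'
    exact hc0 x.1 (mem_union.2 hx) fun h => hx' (mem_inter.1 h)
  · intro x h1 h2 y h3 h4
    rw [mm] at h1 h2 h3 h4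
    exact hn x.1 (mem_sdiff.2 ⟨h1, h2⟩) y.1 (mem_sdiff.2 ⟨h3, h4⟩)
  · intro x
    rw [mm, mm, mem_insert, Subtype.ext_iff]
  · intro x
    rw [mm, mm, mem_insert, Subtype.ext_iff]
  · intro x
    rw [mm, mm, mm, mem_union]

end SCG
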