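import Pool.Agent.SCG.Betti
import Pool.Agent.SCG.CsumF

/-!
# Project SCG, module BettiEq: `b2 M j = bb M univ j`
-/

namespace SCG

open SNG Finset SCS
open scoped InnerProductSpace

variable {V : Type} [Fintype V] [LinearOrder V] {M : CoxeterMatrix V}

omit [Fintype V] [LinearOrder V] in
theorem fi_iff {T : Finset V} : Fi M T ↔ Sph M T := Iff.rfl

omit [LinearOrder V] in
theorem ch_iff {j : ℕ} {f : HW M} : f ∈ Ch M j ↔ f ∈ CC M univ j := by
  rw [mem_CC]
  constructor
  · rintro ⟨h1, h2⟩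
    exact ⟨fun T hT => h1 T fun h => hT ⟨subset_univ T, h⟩, h2⟩
  · rintro ⟨h1, h2⟩
    exact ⟨fun T hT => h1 T fun h => hT h.2, h2⟩

theorem bd_eq (f : HW M) (T : Finset V) (g : M.Group) : bd f T g = bD M f (T, g) := by
  rw [bD_apply]
  rfl

theorem hm_eq (j : ℕ) : Hm M j = HH M univ j := by
  have h : {f : HW M | f ∈ Ch M j ∧ (∀ T g, bd f T g = 0) ∧
      ∀ h ∈ Ch M (j + 1), ∑ T : Finset V, ∑' g, f (T, g) * bd h T g = 0} =
      (HH M univ j : Set (HW M)) := by
    ext f
    change (f ∈ Ch M j ∧ (∀ T g, bd f T g = 0) ∧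
      ∀ h ∈ Ch M (j + 1), ∑ T : Finset V, ∑' g, f (T, g) * bd h T g = 0) ↔ f ∈ HH M univ j
    rw [mem_HH, ch_iff]
    refine and_congr Iff.rfl (and_congr ?_ ?_)
    · constructor
      · intro h
        refine ell_ext ?_
        rintro ⟨T, g⟩
        rw [← bd_eq, h, ell_zero]
      · intro h T g
        rw [bd_eq, h, ell_zero]
    · have e : ∀ h : HW M, ∑ T : Finset V, ∑' g, f (T, g) * bd h T g = ⟪bD M h, f⟫_ℝ := by
        intro h
        rw [real_inner_comm, ell_inner, (ell_hasSum f (bD M h)).summable.tsum_prod, tsum_fintype]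
        refine sum_congr rfl fun T _ => tsum_congr fun g => ?_
        rw [bd_eq]
      constructor
      · intro h k hk
        rw [← e]
        exact h k (ch_iff.2 hk)
      · intro h k hk
        rw [e]
        exact h k (ch_iff.1 hk)
  have h2 : Hm M j = Submodule.span ℝ (HH M univ j : Set (HW M)) := by
    rw [← h]
    rfl
  rw [h2, Submodule.span_eq]

private theorem single_dl {I Γ : Type} (d : DecidableEq (I × Γ)) (i : I) (g : Γ) :
    (lp.single 2 (i, g) (1 : ℝ) : L2 I Γ) = dl i g := by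
  refine ell_ext fun q => ?_
  rw [dl_apply, lp.single_apply]
  by_cases h : q = (i, g)
  · subst h
    simp
  · simp [h]

theorem b2_eq (j : ℕ) : b2 M j = bb M univ j := by
  have h : b2 M j = dm (Hm M j) := by
    unfold b2 dm tr
    refine sum_congr rfl fun T _ => ?_
    refine congrArg (fun z : HW M => (Hm M j).topologicalClosure.starProjection z (T, 1)) ?_
    exact single_dl _ T 1
  rw [h, hm_eq]
  rfl

theorem rs_eq {V : Type} (M : CoxeterMatrix V) (S : Finset V) : rs M S = sub M S := rfl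

/-- Subadditivity of the square summable Betti numbers. -/
theorem csum_b2' {V : Type} [LinearOrder V] (M : CoxeterMatrix V) {A B : Finset V} {c : V}
    (hcA : c ∉ A) (hcB : c ∉ B) (hc2 : ∀ x ∈ A ∩ B, M c x = 2)
    (hc0 : ∀ x ∈ A ∪ B, x ∉ A ∩ B → M c x = 0) (hn : ∀ x ∈ A \ B, ∀ y ∈ B \ A, M x y = 0) (j : ℕ) :
    b2 (rs M (A ∪ B)) j ≤ b2 (rs M (insert c A)) j + b2 (rs M (insert c B)) j := by
  rw [b2_eq, b2_eq, b2_eq]
  exact csum_b2 M hcA hcB hc2 hc0 hn j

end SCG
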