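import Pool.Agent.SCG.MinMax
import Pool.Agent.SCG.Cone

/-!
# Project SCG, module CsumD: the connected sum inequality for the square summable Betti numbers

Degree by degree, without any vanishing assumption.  `V = A ∪ B ∪ {c}`, `E = A ∩ B`, `c` is adjacent exactly
to `E` (labels `2`).  Put `κ_j (A, c) = dm (KK A (insert c E) j)`.

`half_d`: `dm X / 2 ≤ dm (im P_A X) + κ_j (A, c)` for the submodules `X` of `HH E j` as in `half`.
`rec_c_zero`, `rec_c_succ`: `b_j (insert c A) = b_j A - b_j E / 2 + κ_j (A, c) + κ_(j-1) (A, c)`.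
`kappa_le`: `κ_j (A, B) ≤ κ_j (A, c) + κ_j (B, c)` (by `min_max`).
`csum_bb`: `b_j (A ∪ B) ≤ b_j (insert c A) + b_j (insert c B)`.
-/

namespace SCG

open SNG Finset SCS
open scoped InnerProductSpace

variable {V : Type} [Fintype V] [LinearOrder V] {G : CoxeterMatrix V}

private theorem geo_un {A E : Finset V} {c : V} (hE : E ⊆ A) : A ∪ insert c E = insert c A := by
  ext x
  simp only [mem_union, mem_insert]
  constructor
  · rintro (h1 | h1 | h1)
    · exact Or.inr h1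
    · exact Or.inl h1
    · exact Or.inr (hE h1)
  · rintro (h1 | h1)
    · exact Or.inr (Or.inl h1)
    · exact Or.inl h1

private theorem geo_in {A E : Finset V} {c : V} (hE : E ⊆ A) (hcA : c ∉ A) : A ∩ insert c E = E := by
  ext x
  simp only [mem_inter, mem_insert]
  constructor
  · rintro ⟨h1, h2 | h2⟩
    · exact absurd (h2 ▸ h1) hcA
    · exact h2
  · intro h1
    exact ⟨hE h1, Or.inr h1⟩

private theorem geo_no {A E : Finset V} {c : V} (hE : E ⊆ A)
    (hc0 : ∀ x ∈ A, x ∉ E → G c x = 0) : NoE G A (insert c E) := by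
  intro x hx hx' y hy hy'
  rw [mem_insert] at hy hx'
  push Not at hx'
  rcases hy with rfl | hy
  · rw [G.symmetric]
    exact hc0 x hx hx'.2
  · exact absurd (hE hy) hy'

theorem half_d {A E : Finset V} {c : V} (hE : E ⊆ A) (hcA : c ∉ A)
    (hcE' : ∀ x ∈ E, G c x = 2) (j : ℕ) (X : Submodule ℝ (HW G)) (hX : X ≤ HH G E j)
    (hcl : IsClosed (X : Set (HW G))) (hinv : SCS.Inv X) (hR : ∀ x ∈ X, rt (gn G c) x ∈ X)
    (hM : ∀ x ∈ X, mu (WS G E : Set G.Group) x ∈ X) :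
    dm X / 2 ≤ dm (im (PP (HH G A j)) X) + dm (KK G A (insert c E) j) := by
  have hcE : c ∉ E := fun h1 => hcA (hE h1)
  have hPA : Eqv (PP (HH G A j)) := eqv_PP (inv_HH A j)
  have hPc : Eqv (PP (HH G (insert c E) j)) := eqv_PP (inv_HH (insert c E) j)
  have e1 := dm_rn hPA hinv hcl
  have hinv' : SCS.Inv (X ⊓ kr (PP (HH G A j))) := hinv.inf hPA.invKr
  have hcl' : IsClosed ((X ⊓ kr (PP (HH G A j)) : Submodule ℝ (HW G)) : Set (HW G)) := by
    have e : ((X ⊓ kr (PP (HH G A j)) : Submodule ℝ (HW G)) : Set (HW G)) =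
        (X : Set (HW G)) ∩ (kr (PP (HH G A j)) : Set (HW G)) := rfl
    rw [e]
    exact hcl.inter (kr_closed _)
  have e2 := dm_rn hPc hinv' hcl'
  have e3 : X ⊓ kr (PP (HH G A j)) ⊓ kr (PP (HH G (insert c E) j)) ≤
      KK G A (insert c E) j := by
    unfold KK
    rw [geo_in hE hcA]
    exact inf_le_inf_right _ (inf_le_inf_right _ hX)
  have e4 := dm_mono e3
  have e5 : dm (im (PP (HH G (insert c E) j)) (X ⊓ kr (PP (HH G A j)))) ≤
      dm (im (PP (HH G (insert c E) j)) X) := dm_mono (Submodule.map_mono inf_le_left)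
  have e6 := dm_cone hcE hcE' hX hcl hR hM
  linarith

theorem rec_c_zero {A E : Finset V} {c : V} (hE : E ⊆ A) (hcA : c ∉ A)
    (hcE' : ∀ x ∈ E, G c x = 2) (hc0 : ∀ x ∈ A, x ∉ E → G c x = 0) :
    bb G (insert c A) 0 = bb G A 0 - bb G E 0 / 2 + dm (KK G A (insert c E) 0) := by
  have hcE : c ∉ E := fun h1 => hcA (hE h1)
  have h1 := mv_rec_zero (geo_no hE hc0)
  rw [geo_un hE, geo_in hE hcA, bb_cone hcE hcE' 0] at h1
  linarith

theorem rec_c_succ {A E : Finset V} {c : V} (hE : E ⊆ A) (hcA : c ∉ A)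
    (hcE' : ∀ x ∈ E, G c x = 2) (hc0 : ∀ x ∈ A, x ∉ E → G c x = 0) (j : ℕ) :
    bb G (insert c A) (j + 1) = bb G A (j + 1) - bb G E (j + 1) / 2 +
      dm (KK G A (insert c E) (j + 1)) + dm (KK G A (insert c E) j) := by
  have hcE : c ∉ E := fun h1 => hcA (hE h1)
  have h1 := mv_rec_succ (geo_no hE hc0) j
  rw [geo_un hE, geo_in hE hcA, bb_cone hcE hcE' (j + 1)] at h1
  linarith

theorem kappa_le {A B : Finset V} {c : V} (hu : ∀ x, x = c ∨ x ∈ A ∨ x ∈ B) (hcA : c ∉ A)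
    (hcB : c ∉ B) (hc2 : ∀ x ∈ A ∩ B, G c x = 2) (hc0 : ∀ x ∈ A ∪ B, x ∉ A ∩ B → G c x = 0)
    (hn : NoE G A B) (j : ℕ) :
    dm (KK G A B j) ≤ dm (KK G A (insert c (A ∩ B)) j) + dm (KK G B (insert c (A ∩ B)) j) := by
  have hA : ∀ x ∈ A, x ∉ A ∩ B → G c x = 0 := fun x hx => hc0 x (mem_union_left _ hx)
  have m := min_max hu (fun x hxA hx => by
    by_contra h3
    exact hx (hA x hxA fun h4 => h3 (mem_inter.1 h4).2)) hn j
  have a := half_d (E := A ∩ B) inter_subset_left hcA hc2 j (XX G A B j) (XX_le A B j)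
    (XX_closed A B j) (inv_XX A B j) (fun x hx => rt_XX hc2 hx)
    (fun x hx => mu_XX (rinv_WS G (A ∩ B)) hx)
  have b := half_d (E := A ∩ B) inter_subset_right hcB hc2 j (XX G A B j) (XX_le A B j)
    (XX_closed A B j) (inv_XX A B j) (fun x hx => rt_XX hc2 hx)
    (fun x hx => mu_XX (rinv_WS G (A ∩ B)) hx)
  linarith

/-- The Betti numbers are subadditive under connected sums. -/
theorem csum_bb {A B : Finset V} {c : V} (hu : ∀ x, x = c ∨ x ∈ A ∨ x ∈ B) (hcA : c ∉ A)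
    (hcB : c ∉ B) (hc2 : ∀ x ∈ A ∩ B, G c x = 2) (hc0 : ∀ x ∈ A ∪ B, x ∉ A ∩ B → G c x = 0)
    (hn : NoE G A B) (j : ℕ) :
    bb G (A ∪ B) j ≤ bb G (insert c A) j + bb G (insert c B) j := by
  have hA : ∀ x ∈ A, x ∉ A ∩ B → G c x = 0 := fun x hx => hc0 x (mem_union_left _ hx)
  have hB : ∀ x ∈ B, x ∉ A ∩ B → G c x = 0 := fun x hx => hc0 x (mem_union_right _ hx)
  rcases j with _ | j
  · have h1 := rec_c_zero (E := A ∩ B) inter_subset_left hcA hc2 hA
    have h2 := rec_c_zero (E := A ∩ B) inter_subset_right hcB hc2 hB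
    have h3 := kappa_le hu hcA hcB hc2 hc0 hn 0
    have h4 := mv_rec_zero hn
    linarith
  · have h1 := rec_c_succ (E := A ∩ B) inter_subset_left hcA hc2 hA j
    have h2 := rec_c_succ (E := A ∩ B) inter_subset_right hcB hc2 hB j
    have h3 := kappa_le hu hcA hcB hc2 hc0 hn (j + 1)
    have h5 := kappa_le hu hcA hcB hc2 hc0 hn j
    have h4 := mv_rec_succ hn j
    linarith

end SCG
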