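import Pool.Agent.SCG.Loc

/-!
# Project SCG (architect helper40), module Cut: the cut function

Let every vertex be `c` or in `A` or in `B`, `E = A ∩ B`, labels `0` (that is `∞`) between `A \ E` and
`B \ E` and between `c` and `A \ E`.  Write `χ_E` for the characteristic function of `WS G E` (`ℤ`-valued).
Let `R w (g, k) = (g * w⁻¹, k)` and `F (g, k) = (g, k + χ_E g)`, permutations of `G.Group × ℤ`, and
`π_s = F⁻¹ * R (gn s) * F` if `s ∈ A \ B`, `π_s = R (gn s)` otherwise.
Relations `(π_s * π_t) ^ (G s t) = 1`: for `s ∈ E` the permutation `R (gn s)` commutes with `F`, so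
`π_s = F⁻¹ * R (gn s) * F` for all `s ∈ A`.  If `s, t ∈ A` or if none of them is in `A \ B`, the relation
follows from the one in the group; in the other cases `G s t = 0`.
So there is a homomorphism `ρ` with `ρ (gn s) = π_s`.  The rest is as in the right-angled case.
-/

namespace SCG

open SNG Finset SCS

section cutaux

variable {V : Type} [DecidableEq V] {G : CoxeterMatrix V}

open Classical in
/-- characteristic function of the subgroup -/
private noncomputable def chE (G : CoxeterMatrix V) (E : Finset V) (g : G.Group) : ℤ :=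
  if g ∈ WS G E then 1 else 0

omit [DecidableEq V] in
private theorem chE_mul {E : Finset V} {t : V} (ht : t ∈ E) (g : G.Group) :
    chE G E (g * gn G t) = chE G E g := by
  unfold chE
  have h := rinv_WS G E t ht g
  rw [SetLike.mem_coe, SetLike.mem_coe] at h
  by_cases hg : g ∈ WS G E
  · rw [if_pos hg, if_pos (h.2 hg)]
  · rw [if_neg hg, if_neg fun h1 => hg (h.1 h1)]

/-- right multiplication -/
private def RR (G : CoxeterMatrix V) : G.Group →* Equiv.Perm (G.Group × ℤ) where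
  toFun w :=
    { toFun := fun x => (x.1 * w⁻¹, x.2)
      invFun := fun x => (x.1 * w, x.2)
      left_inv := fun x => by simp
      right_inv := fun x => by simp }
  map_one' := by
    refine Equiv.ext fun x => ?_
    change (x.1 * (1 : G.Group)⁻¹, x.2) = x
    rw [inv_one, mul_one]
  map_mul' v w := by
    refine Equiv.ext fun x => ?_
    change (x.1 * (v * w)⁻¹, x.2) = (x.1 * w⁻¹ * v⁻¹, x.2)
    rw [mul_inv_rev, mul_assoc]

omit [DecidableEq V] in
private theorem RR_apply (w : G.Group) (x : G.Group × ℤ) : RR G w x = (x.1 * w⁻¹, x.2) := rfl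

/-- the shift by the characteristic function -/
private noncomputable def FF (G : CoxeterMatrix V) (E : Finset V) : Equiv.Perm (G.Group × ℤ) where
  toFun x := (x.1, x.2 + chE G E x.1)
  invFun x := (x.1, x.2 - chE G E x.1)
  left_inv x := by
    refine Prod.ext rfl ?_
    change x.2 + chE G E x.1 - chE G E x.1 = x.2
    ring
  right_inv x := by
    refine Prod.ext rfl ?_
    change x.2 - chE G E x.1 + chE G E x.1 = x.2
    ring

omit [DecidableEq V] in
private theorem FF_apply (E : Finset V) (x : G.Group × ℤ) : FF G E x = (x.1, x.2 + chE G E x.1) := rfl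

omit [DecidableEq V] in
private theorem FF_inv (E : Finset V) (x : G.Group × ℤ) :
    (FF G E)⁻¹ x = (x.1, x.2 - chE G E x.1) := rfl

omit [DecidableEq V] in
private theorem FF_comm {E : Finset V} {s : V} (hs : s ∈ E) :
    (FF G E)⁻¹ * RR G (gn G s) * FF G E = RR G (gn G s) := by
  refine Equiv.ext fun x => ?_
  rw [Equiv.Perm.mul_apply, Equiv.Perm.mul_apply, FF_apply, RR_apply, FF_inv, RR_apply]
  refine Prod.ext rfl ?_
  change x.2 + chE G E x.1 - chE G E (x.1 * (gn G s)⁻¹) = x.2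
  rw [gn_inv, chE_mul hs]
  ring

/-- the permutations -/
private noncomputable def pr (G : CoxeterMatrix V) (A B : Finset V) (s : V) :
    Equiv.Perm (G.Group × ℤ) :=
  if s ∈ A ∧ s ∉ B then (FF G (A ∩ B))⁻¹ * RR G (gn G s) * FF G (A ∩ B) else RR G (gn G s)

private theorem pr_A {A B : Finset V} {s : V} (hs : s ∈ A) :
    pr G A B s = (FF G (A ∩ B))⁻¹ * RR G (gn G s) * FF G (A ∩ B) := by
  unfold pr
  split_ifs with h
  · rfl
  · rw [FF_comm]
    rw [mem_inter]
    exact ⟨hs, by tauto⟩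

private theorem pr_nA {A B : Finset V} {s : V} (hs : ¬ (s ∈ A ∧ s ∉ B)) :
    pr G A B s = RR G (gn G s) := if_neg hs

private theorem pr_rel {A B : Finset V} {c : V} (hu : ∀ x, x = c ∨ x ∈ A ∨ x ∈ B)
    (hc : ∀ x ∈ A, G c x ≠ 0 → x ∈ B) (hn : NoE G A B) (s t : V) :
    (pr G A B s * pr G A B t) ^ (G s t) = 1 := by
  have hr : (RR G (gn G s) * RR G (gn G t)) ^ (G s t) = 1 := by
    rw [← map_mul, ← map_pow, G.toCoxeterSystem.simple_mul_simple_pow, map_one]
  have hAB : ∀ s ∈ A, s ∉ B → ∀ t, G s t ≠ 0 → t ∈ A := by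
    intro s hs hsB t ht
    rcases hu t with rfl | h | h
    · rw [G.symmetric] at ht
      exact absurd (hc s hs ht) hsB
    · exact h
    · by_contra h1
      exact ht (hn s hs hsB t h h1)
  by_cases h0 : G s t = 0
  · rw [h0, pow_zero]
  have hcase : (s ∈ A ∧ t ∈ A) ∨ (¬ (s ∈ A ∧ s ∉ B) ∧ ¬ (t ∈ A ∧ t ∉ B)) := by
    by_cases hs : s ∈ A ∧ s ∉ B
    · exact Or.inl ⟨hs.1, hAB s hs.1 hs.2 t h0⟩
    · by_cases ht : t ∈ A ∧ t ∉ B
      · rw [G.symmetric] at h0
        exact Or.inl ⟨hAB t ht.1 ht.2 s h0, ht.1⟩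
      · exact Or.inr ⟨hs, ht⟩
  rcases hcase with ⟨hs, ht⟩ | ⟨hs, ht⟩
  · rw [pr_A hs, pr_A ht]
    have e : (FF G (A ∩ B))⁻¹ * RR G (gn G s) * FF G (A ∩ B) *
        ((FF G (A ∩ B))⁻¹ * RR G (gn G t) * FF G (A ∩ B)) =
        (FF G (A ∩ B))⁻¹ * (RR G (gn G s) * RR G (gn G t)) * FF G (A ∩ B) := by group
    have e2 : ∀ n : ℕ, ((FF G (A ∩ B))⁻¹ * (RR G (gn G s) * RR G (gn G t)) * FF G (A ∩ B)) ^ n =
        (FF G (A ∩ B))⁻¹ * (RR G (gn G s) * RR G (gn G t)) ^ n * FF G (A ∩ B) := by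
      intro n
      have h := conj_pow (a := (FF G (A ∩ B))⁻¹) (b := RR G (gn G s) * RR G (gn G t)) (i := n)
      rw [inv_inv] at h
      exact h
    rw [e, e2, hr, mul_one, inv_mul_cancel]
  · rw [pr_nA hs, pr_nA ht, hr]

open Classical in
/-- increments -/
private noncomputable def inc (G : CoxeterMatrix V) (A B : Finset V) (s : V) (g : G.Group) : ℤ :=
  if s ∈ A ∧ s ∉ B then chE G (A ∩ B) g - chE G (A ∩ B) (g * gn G s) else 0

private theorem inc_pos {A B : Finset V} {s : V} (h : s ∈ A ∧ s ∉ B) (g : G.Group) :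
    inc G A B s g = chE G (A ∩ B) g - chE G (A ∩ B) (g * gn G s) := if_pos h

private theorem inc_neg {A B : Finset V} {s : V} (h : ¬ (s ∈ A ∧ s ∉ B)) (g : G.Group) :
    inc G A B s g = 0 := if_neg h

private theorem pr_apply (A B : Finset V) (s : V) (g : G.Group) (k : ℤ) :
    pr G A B s (g, k) = (g * gn G s, k + inc G A B s g) := by
  unfold pr
  by_cases h : s ∈ A ∧ s ∉ B
  · rw [if_pos h, Equiv.Perm.mul_apply, Equiv.Perm.mul_apply, FF_apply, RR_apply, FF_inv, inc_pos h,
      gn_inv]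
    refine Prod.ext rfl ?_
    change k + chE G (A ∩ B) g - chE G (A ∩ B) (g * gn G s) = _
    ring
  · rw [if_neg h, RR_apply, inc_neg h, gn_inv, add_zero]

private theorem exists_chi {A B : Finset V} {c : V} (hu : ∀ x, x = c ∨ x ∈ A ∨ x ∈ B)
    (hc : ∀ x ∈ A, G c x ≠ 0 → x ∈ B) (hn : NoE G A B) :
    ∃ χ : G.Group → ℤ, χ 1 = 0 ∧ ∀ w s, χ (w * gn G s) = χ w + inc G A B s w := by
  set ρ : G.Group →* Equiv.Perm (G.Group × ℤ) :=
    G.toCoxeterSystem.lift ⟨pr G A B, fun s t => pr_rel hu hc hn s t⟩ with hρd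
  have hρ : ∀ s, ρ (gn G s) = pr G A B s := fun s => G.toCoxeterSystem.lift_apply_simple _ s
  have h1 : ∀ (u : G.Group) (x : G.Group × ℤ), (ρ u x).1 = x.1 * u⁻¹ := by
    intro u
    refine G.toCoxeterSystem.simple_induction
      (p := fun u : G.Group => ∀ x : G.Group × ℤ, (ρ u x).1 = x.1 * u⁻¹) u (fun s x => ?_)
      (fun x => ?_) fun u v hu hv x => ?_
    · change (ρ (gn G s) x).1 = x.1 * (gn G s)⁻¹
      rw [hρ, gn_inv]
      obtain ⟨g, k⟩ := x
      rw [pr_apply]
    · rw [map_one, inv_one, mul_one]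
      rfl
    · rw [map_mul, Equiv.Perm.mul_apply, hu, hv, mul_inv_rev, mul_assoc]
  refine ⟨fun w => (ρ w⁻¹ (1, 0)).2, ?_, fun w s => ?_⟩
  · change (ρ (1 : G.Group)⁻¹ (1, 0)).2 = 0
    rw [inv_one, map_one]
    rfl
  · change (ρ (w * gn G s)⁻¹ (1, 0)).2 = (ρ w⁻¹ (1, 0)).2 + inc G A B s w
    rw [mul_inv_rev, gn_inv, map_mul, Equiv.Perm.mul_apply, hρ]
    have h2 : (ρ w⁻¹ (1, 0)).1 = w := by
      rw [h1, one_mul, inv_inv]
    have h3 : ρ w⁻¹ (1, 0) = (w, (ρ w⁻¹ (1, 0)).2) := Prod.ext h2 rfl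
    rw [h3, pr_apply]

end cutaux

variable {V : Type} [DecidableEq V] {G : CoxeterMatrix V}

theorem exists_cut {A B : Finset V} {c : V} (hu : ∀ x, x = c ∨ x ∈ A ∨ x ∈ B)
    (hc : ∀ x ∈ A, G c x ≠ 0 → x ∈ B) (hn : NoE G A B) :
    ∃ Ω : Set G.Group, RInv G B Ω ∧ RInv G A (Ω ∪ (WS G (A ∩ B) : Set G.Group)) ∧
      Disjoint Ω (WS G (A ∩ B) : Set G.Group) := by
  obtain ⟨χ, h1, hχ⟩ := exists_chi hu hc hn
  have hB : ∀ w, ∀ s ∈ B, χ (w * gn G s) = χ w := by
    intro w s hs
    rw [hχ, inc_neg fun h => h.2 hs, add_zero]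
  have h0 : ∀ w ∈ WS G (A ∩ B), χ w = 0 := by
    intro w hw
    induction hw using Subgroup.closure_induction_right with
    | one => exact h1
    | mul_right x hx y hy ih =>
      obtain ⟨s, hs, rfl⟩ := hy
      rw [hB x s (mem_inter.1 (mem_coe.1 hs)).2, ih]
    | mul_inv_cancel x hx y hy ih =>
      obtain ⟨s, hs, rfl⟩ := hy
      rw [gn_inv, hB x s (mem_inter.1 (mem_coe.1 hs)).2, ih]
  refine ⟨{w | 1 ≤ χ w}, fun s hs g => ?_, ?_, ?_⟩
  · change 1 ≤ χ (g * gn G s) ↔ 1 ≤ χ g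
    rw [hB g s hs]
  · have key : ∀ s ∈ A, ∀ g : G.Group, g ∈ {w | 1 ≤ χ w} ∪ (WS G (A ∩ B) : Set G.Group) →
        g * gn G s ∈ {w | 1 ≤ χ w} ∪ (WS G (A ∩ B) : Set G.Group) := by
      intro s hs g hg
      by_cases hsB : s ∈ B
      · rcases hg with hg | hg
        · left
          change 1 ≤ χ (g * gn G s)
          rw [hB g s hsB]
          exact hg
        · right
          exact (rinv_WS G (A ∩ B) s (mem_inter.2 ⟨hs, hsB⟩) g).2 hg
      · by_cases hm : g * gn G s ∈ WS G (A ∩ B)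
        · exact Or.inr hm
        · left
          change 1 ≤ χ (g * gn G s)
          rw [hχ, inc_pos ⟨hs, hsB⟩]
          have e1 : chE G (A ∩ B) (g * gn G s) = 0 := if_neg hm
          rw [e1, sub_zero]
          rcases hg with hg | hg
          · have e2 : 0 ≤ chE G (A ∩ B) g := by
              unfold chE
              split_ifs <;> norm_num
            have e3 : 1 ≤ χ g := hg
            linarith
          · have e2 : chE G (A ∩ B) g = 1 := if_pos hg
            rw [h0 g hg, e2]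
            norm_num
    intro s hs g
    refine ⟨fun h => ?_, key s hs g⟩
    have h2 := key s hs _ h
    rw [mul_assoc, gn_mul_self, mul_one] at h2
    exact h2
  · rw [Set.disjoint_left]
    intro w hw hw'
    have h2 : 1 ≤ χ w := hw
    rw [h0 w hw'] at h2
    norm_num at h2

end SCG
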