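import Pool.Agent.SCG.Cox

/-!
# Project SCG (architect helper40), module Exch: the exchange property

`cs : CoxeterSystem M W`, `s = cs.simple`, `π = cs.wordProd`, `ℓ = cs.length`.  (The special case of
right-angled groups is in `Pool/Agent/SNG/Coc.lean`; the same proof works with the changes below.)

Step 1, a cocycle: there is `N : W → W → ZMod 2` with `N 1 x = 0` and
`N (s i * u) x = (if x = s i then 1 else 0) + N u (s i * x * s i)`.
Let `π_i (x, ε) = (s i * x * s i, ε + [x = s i])`, a permutation of `W × ZMod 2` with `π_i π_i = 1`.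
Relation `(π_i π_j) ^ m = 1`, `m = M i j`: for a word `ω = [i_1, …, i_p]` the composition
`π_(i_1) ∘ … ∘ π_(i_p)` maps `(x, ε)` to `(w x w⁻¹, ε + number of k with x = t_k)`, where `w = π ω`
and the `t_k` form the sequence `cs.rightInvSeq ω` (induction on `ω`; `(ris ω)` is defined by
recursion in Mathlib).  For `ω = (i, j, i, j, …)` of length `2 m` the `2 m` elements of the sequence are
`u_k = (s j s i) ^ k * s j`, `k = 0, …, 2m - 1` (in some order), and `u_(k+m) = u_k` because
`(s j s i) ^ m = 1`; so every `x` occurs an even number of times, and `w = (s i s j) ^ m = 1`.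
So `CoxeterSystem.lift` gives `w ↦ ρ w`, `ρ w (x, ε) = (w x w⁻¹, ε + η w x)` with
`η (u v) x = η v x + η u (v x v⁻¹)`, `η (s i) x = [x = s i]`; put `N w x = η w⁻¹ x`.

Step 2: `N (π ω) x` is the number of occurrences of `x` in `cs.leftInvSeq ω` modulo 2.

Step 3 (`exchange`): let `s i` be a left descent of `w = π ω`.  Claim: `s i ∈ cs.leftInvSeq ω`.  Otherwise
`N w (s i) = 0`, so `N (s i * w) (s i) = 1 + N w (s i) = 1`; take a reduced word `ω'` of `s i * w`:
`s i` occurs in `leftInvSeq ω'`, so it is a left inversion of `s i * w`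
(`cs.isLeftInversion_of_mem_leftInvSeq`): `ℓ (s i * (s i * w)) < ℓ (s i * w)`, i.e. `ℓ w < ℓ (s i * w)`,
a contradiction.  If `s i` is the `p`-th element of `leftInvSeq ω` then
`s i * π ω = π (ω.eraseIdx p)` (`cs.getD_leftInvSeq_mul_wordProd`).
-/

namespace SCG

variable {V W : Type} [Group W] {M : CoxeterMatrix V}

section coc

variable (cs : CoxeterSystem M W)

private theorem ss (i : V) : cs.simple i * cs.simple i = 1 := cs.simple_mul_simple_self i

private theorem sst (i : V) (x : W) :
    cs.simple i * (cs.simple i * x * cs.simple i) * cs.simple i = x := by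
  calc cs.simple i * (cs.simple i * x * cs.simple i) * cs.simple i
      = (cs.simple i * cs.simple i) * x * (cs.simple i * cs.simple i) := by group
    _ = x := by rw [ss, one_mul, mul_one]

private theorem conj_self (i : V) (x : W) :
    cs.simple i * x * cs.simple i = cs.simple i ↔ x = cs.simple i := by
  constructor
  · intro h1
    rw [← sst cs i x, h1, ss, one_mul]
  · intro h1
    rw [h1, ss, one_mul]

open Classical in
private theorem pi_inv (i : V) (x : W × ZMod 2) :
    ((cs.simple i * (cs.simple i * x.1 * cs.simple i) * cs.simple i,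
      x.2 + (if x.1 = cs.simple i then 1 else 0) +
        if cs.simple i * x.1 * cs.simple i = cs.simple i then 1 else 0) : W × ZMod 2) = x := by
  refine Prod.ext (sst cs i x.1) ?_
  simp only [conj_self]
  split_ifs
  · rw [add_assoc, CharTwo.add_self_eq_zero, add_zero]
  · rw [add_zero, add_zero]

open Classical in
/-- The permutation `π_s`. -/
private noncomputable def pp (i : V) : Equiv.Perm (W × ZMod 2) where
  toFun x := (cs.simple i * x.1 * cs.simple i, x.2 + if x.1 = cs.simple i then 1 else 0)
  invFun x := (cs.simple i * x.1 * cs.simple i, x.2 + if x.1 = cs.simple i then 1 else 0)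
  left_inv x := pi_inv cs i x
  right_inv x := pi_inv cs i x

open Classical in
private theorem pp_apply (i : V) (x : W) (ε : ZMod 2) :
    pp cs i (x, ε) = (cs.simple i * x * cs.simple i, ε + if x = cs.simple i then 1 else 0) := rfl

/-- The rotation. -/
private theorem rot_conj (i j : V) (n : ℕ) :
    ((cs.simple i * cs.simple j) ^ n)⁻¹ * cs.simple j = cs.simple j * (cs.simple i * cs.simple j) ^ n := by
  have h1 : cs.simple j * (cs.simple i * cs.simple j) * (cs.simple j)⁻¹ =
      (cs.simple i * cs.simple j)⁻¹ := by
    rw [mul_inv_rev, cs.inv_simple, cs.inv_simple, mul_assoc, mul_assoc, ss, mul_one]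
  have h2 : cs.simple j * (cs.simple i * cs.simple j) ^ n * (cs.simple j)⁻¹ =
      ((cs.simple i * cs.simple j) ^ n)⁻¹ := by
    rw [← conj_pow, h1, inv_pow]
  rw [← h2, inv_mul_cancel_right]

private theorem ris_elem (i j : V) (n : ℕ) :
    (cs.wordProd (CoxeterSystem.alternatingWord i j n))⁻¹ *
      cs.simple (if Even n then j else i) * cs.wordProd (CoxeterSystem.alternatingWord i j n) =
      cs.simple j * (cs.simple i * cs.simple j) ^ n := by
  rw [cs.prod_alternatingWord_eq_mul_pow]
  rcases Nat.even_or_odd' n with ⟨l, hl | hl⟩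
  · have he : Even n := ⟨l, by omega⟩
    rw [if_pos he, if_pos he, one_mul, show n / 2 = l by omega, rot_conj, mul_assoc, ← pow_add,
      show l + l = n by omega]
  · have he : ¬ Even n := by
      rw [Nat.not_even_iff_odd]
      exact ⟨l, by omega⟩
    rw [if_neg he, if_neg he, show n / 2 = l by omega, mul_inv_rev, cs.inv_simple]
    calc ((cs.simple i * cs.simple j) ^ l)⁻¹ * cs.simple j * cs.simple i *
          (cs.simple j * (cs.simple i * cs.simple j) ^ l)
        = (((cs.simple i * cs.simple j) ^ l)⁻¹ * cs.simple j) * (cs.simple i * cs.simple j) *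
          (cs.simple i * cs.simple j) ^ l := by group
      _ = cs.simple j * (cs.simple i * cs.simple j) ^ l * (cs.simple i * cs.simple j) *
          (cs.simple i * cs.simple j) ^ l := by rw [rot_conj]
      _ = cs.simple j * ((cs.simple i * cs.simple j) ^ l * (cs.simple i * cs.simple j) *
          (cs.simple i * cs.simple j) ^ l) := by simp only [mul_assoc]
      _ = cs.simple j * (cs.simple i * cs.simple j) ^ n := by
          rw [← pow_succ, ← pow_add, show l + 1 + l = n by omega]

open Classical in
private theorem alt_apply (i j : V) (n : ℕ) (x : W) (ε : ZMod 2) :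
    ((CoxeterSystem.alternatingWord i j n).map (pp cs)).prod (x, ε) =
      (cs.wordProd (CoxeterSystem.alternatingWord i j n) * x *
        (cs.wordProd (CoxeterSystem.alternatingWord i j n))⁻¹,
        ε + ∑ l ∈ Finset.range n,
          if x = cs.simple j * (cs.simple i * cs.simple j) ^ l then 1 else 0) := by
  induction n with
  | zero => simp [CoxeterSystem.alternatingWord]
  | succ n ih =>
    rw [CoxeterSystem.alternatingWord_succ', List.map_cons, List.prod_cons, Equiv.Perm.mul_apply, ih,
      pp_apply, cs.wordProd_cons, Finset.sum_range_succ]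
    set w := cs.wordProd (CoxeterSystem.alternatingWord i j n) with hw
    refine Prod.ext ?_ ?_
    · change cs.simple _ * (w * x * w⁻¹) * cs.simple _ = _
      rw [mul_inv_rev, cs.inv_simple]
      group
    · change (ε + _) + _ = ε + (_ + _)
      rw [add_assoc]
      congr 2
      have h1 := ris_elem cs i j n
      rw [← hw] at h1
      have h2 : (w * x * w⁻¹ = cs.simple (if Even n then j else i)) ↔
          (x = cs.simple j * (cs.simple i * cs.simple j) ^ n) := by
        rw [← h1]
        constructor
        · intro h
          rw [← h]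
          group
        · intro h
          rw [h]
          group
      by_cases h3 : x = cs.simple j * (cs.simple i * cs.simple j) ^ n
      · rw [if_pos h3, if_pos (h2.mpr h3)]
      · rw [if_neg h3, if_neg (fun h => h3 (h2.mp h))]

private theorem alt_prod {P : Type} [Group P] (f : V → P) (i j : V) (m : ℕ) :
    ((CoxeterSystem.alternatingWord i j (2 * m)).map f).prod = (f i * f j) ^ m := by
  induction m with
  | zero => simp [CoxeterSystem.alternatingWord]
  | succ m ih =>
    rw [show 2 * (m + 1) = 2 * m + 1 + 1 by ring, CoxeterSystem.alternatingWord_succ',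
      CoxeterSystem.alternatingWord_succ']
    have h1 : ¬ Even (2 * m + 1) := by
      rw [Nat.not_even_iff_odd]
      exact ⟨m, rfl⟩
    have h2 : Even (2 * m) := even_two_mul m
    rw [if_neg h1, if_pos h2, List.map_cons, List.prod_cons, List.map_cons, List.prod_cons, ih,
      pow_succ', mul_assoc]

private theorem liftable : M.IsLiftable (pp cs) := by
  classical
  intro i j
  apply Equiv.ext
  rintro ⟨x, ε⟩
  rw [← alt_prod, alt_apply, cs.prod_alternatingWord_eq_mul_pow, if_pos (even_two_mul _), one_mul,
    show 2 * M i j / 2 = M i j by omega, cs.simple_mul_simple_pow]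
  refine Prod.ext ?_ ?_
  · simp
  · change ε + _ = ε
    have h1 : ∀ l, (cs.simple i * cs.simple j) ^ (M i j + l) = (cs.simple i * cs.simple j) ^ l := by
      intro l
      rw [pow_add, cs.simple_mul_simple_pow, one_mul]
    rw [two_mul, Finset.sum_range_add]
    simp only [h1]
    rw [CharTwo.add_self_eq_zero, add_zero]

open Classical in
/-- The cocycle. -/
private theorem exists_N : ∃ N : W → W → ZMod 2, (∀ x, N 1 x = 0) ∧
    ∀ i u x, N (cs.simple i * u) x =
      (if x = cs.simple i then 1 else 0) + N u (cs.simple i * x * cs.simple i) := by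
  set φ : W →* Equiv.Perm (W × ZMod 2) := cs.lift ⟨pp cs, liftable cs⟩ with hφdef
  have hφ : ∀ i, φ (cs.simple i) = pp cs i := fun i => cs.lift_apply_simple (liftable cs) i
  have h1 : ∀ w x ε, φ w (x, ε) = (w * x * w⁻¹, ε + (φ w (x, 0)).2) := by
    intro w
    refine cs.simple_induction_left
      (p := fun w => ∀ x ε, φ w (x, ε) = (w * x * w⁻¹, ε + (φ w (x, 0)).2)) w ?_ ?_
    · intro x ε
      rw [map_one]
      simp
    · intro u s hu x ε
      have e1 : φ (cs.simple s * u) = pp cs s * φ u := by
        rw [map_mul]
        congr 1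
        exact hφ s
      rw [e1, Equiv.Perm.mul_apply, Equiv.Perm.mul_apply, hu x ε, hu x 0, pp_apply, pp_apply]
      refine Prod.ext ?_ ?_
      · change cs.simple s * (u * x * u⁻¹) * cs.simple s = cs.simple s * u * x * (cs.simple s * u)⁻¹
        rw [mul_inv_rev, cs.inv_simple]
        group
      · dsimp only
        ring
  have h2 : ∀ u v x, (φ (u * v) (x, 0)).2 = (φ v (x, 0)).2 + (φ u (v * x * v⁻¹, 0)).2 := by
    intro u v x
    rw [map_mul, Equiv.Perm.mul_apply]
    conv_lhs => rw [h1 v x 0, zero_add, h1 u]
  refine ⟨fun w x => (φ w⁻¹ (x, 0)).2, fun x => ?_, fun s u x => ?_⟩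
  · simp
  · change (φ (cs.simple s * u)⁻¹ (x, 0)).2 = _ + (φ u⁻¹ (cs.simple s * x * cs.simple s, 0)).2
    rw [mul_inv_rev, h2, cs.inv_simple, hφ, pp_apply, cs.inv_simple]
    congr 1
    exact zero_add _

end coc

theorem exchange (cs : CoxeterSystem M W) {ω : List V} {i : V}
    (h : cs.IsLeftDescent (cs.wordProd ω) i) :
    ∃ p, p < ω.length ∧ cs.simple i * cs.wordProd ω = cs.wordProd (ω.eraseIdx p) := by
  classical
  obtain ⟨N, hN1, hN⟩ := exists_N cs
  have hcount : ∀ (ω : List V) (x : W), N (cs.wordProd ω) x =
      (((cs.leftInvSeq ω).count x : ℕ) : ZMod 2) := by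
    intro ω
    induction ω with
    | nil =>
      intro x
      rw [CoxeterSystem.wordProd_nil, hN1]
      simp
    | cons i ω ih =>
      intro x
      rw [CoxeterSystem.wordProd_cons]
      have h1 := hN i (cs.wordProd ω) x
      have h2 : cs.leftInvSeq (i :: ω) =
          cs.simple i :: List.map (MulAut.conj (cs.simple i)) (cs.leftInvSeq ω) := rfl
      have h3 : x = MulAut.conj (cs.simple i) (cs.simple i * x * cs.simple i) := by
        rw [MulAut.conj_apply, cs.inv_simple, sst]
      have h4 : (List.map (MulAut.conj (cs.simple i)) (cs.leftInvSeq ω)).count x =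
          (cs.leftInvSeq ω).count (cs.simple i * x * cs.simple i) := by
        conv_lhs => rw [h3]
        exact List.count_map_of_injective _ _ (MulAut.conj (cs.simple i)).injective _
      rw [h1, ih, h2, List.count_cons, h4]
      push_cast
      rw [add_comm]
      congr 1
      by_cases h5 : x = cs.simple i
      · simp [h5]
      · have h6 : ¬ (cs.simple i == x) = true := by
          rw [beq_iff_eq]
          exact fun h => h5 h.symm
        rw [if_neg h5, if_neg h6]
  have hdir : ∀ i u, N u (cs.simple i) = 1 → cs.length (cs.simple i * u) < cs.length u := by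
    intro s u h
    obtain ⟨ω, hred, hu⟩ := cs.exists_isReduced u
    rw [hu, hcount] at h
    have hmem : cs.simple s ∈ cs.leftInvSeq ω := by
      by_contra hn
      rw [List.count_eq_zero_of_not_mem hn] at h
      exact absurd h (by decide)
    have h2 := (cs.isLeftInversion_of_mem_leftInvSeq hred hmem).2
    rw [hu]
    exact h2
  have hmem : cs.simple i ∈ cs.leftInvSeq ω := by
    by_contra hn
    have h0 : N (cs.wordProd ω) (cs.simple i) = 0 := by
      rw [hcount, List.count_eq_zero_of_not_mem hn]
      rfl
    have h1 : N (cs.simple i * cs.wordProd ω) (cs.simple i) = 1 := by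
      rw [hN, if_pos rfl, ss, one_mul, h0, add_zero]
    have h2 := hdir i _ h1
    rw [← mul_assoc, ss, one_mul] at h2
    exact absurd h2 (not_lt.mpr (le_of_lt h))
  obtain ⟨p, hp, hpe⟩ := List.mem_iff_getElem.mp hmem
  refine ⟨p, by rwa [cs.length_leftInvSeq] at hp, ?_⟩
  rw [← cs.getD_leftInvSeq_mul_wordProd, List.getD_eq_getElem _ 1 hp, hpe]

end SCG
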