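import Pool.Agent.SCG.Exch
import Pool.Agent.SCG.Geo

/-!
# Project SCG (architect helper40), module Mats: Matsumoto's theorem

`cs = M.toCoxeterSystem`, `π = cs.wordProd`.  `f : V → N` a map to a monoid satisfying the braid relations,
`F ω = (ω.map f).prod`.  Theorem: `F ω = F ω'` for reduced words `ω, ω'` of the same element.
Induction on the length `k`; `k = 0` is trivial.  Step to `k + 1`.
(A) If `ω, ω'` have the same first letter (or the same last letter), remove it: the remaining words are
reduced (`IsReduced.drop`, `IsReduced.take`) words of the same element, so `F ω = F ω'`.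
(B) Call a pair `(ω, ω')` of reduced words of `w` of length `k + 1` bad if `F ω ≠ F ω'`.  Let it be bad,
`j` the first letter of `ω'`, `i` the first letter of `ω`; `i ≠ j` by (A).  `j` is a left descent of
`w = π ω`, so (`exchange`) there is `p ≤ k` with `s j * w = π (ω.eraseIdx p)`.  `ω'' = j :: ω.eraseIdx p` is
a word of `w` of length `k + 1`, so reduced; `F ω'' = F ω'` by (A).  If `p < k` then `ω''` and `ω` have the
same last letter and `F ω'' = F ω`, a contradiction.  So `p = k`, `ω'' = j :: ω.dropLast`, and
`(ω'', ω)` is again bad.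
(C) Iterate: `ω_0 = ω`, `ω_1 = ω''`, `ω_(r+1) = (first letter of ω_(r-1)) :: ω_r.dropLast`; all pairs
`(ω_(r+1), ω_r)` are bad, the first letters alternate `i, j, i, j, …`, and by induction the first
`r + 1` letters of `ω_r` are alternating in `i, j`.  For `r ≥ k` the words `ω_r, ω_(r+1)` are the two
alternating words in `i, j` of length `q = k + 1` (with different first letters).  They are reduced words
of the same element `w`.  Hence `(s i * s j) ^ q = 1` (`s i s j s i … = s j s i s j …` with `q` factors),
so `M i j ≠ 0` and `M i j ∣ q` (`orderOf_gn`, `orderOf_dvd_of_pow_eq_one`), and `q ≤ M i j` since longer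
alternating words are not reduced (`CoxeterSystem.not_isReduced_alternatingWord`).  So `q = M i j` and
`F` has the same value on both words by the braid relation, a contradiction.
(`CoxeterSystem.alternatingWord i j m` is the alternating word of length `m` ending with `j`.)
A convenient form of (C): prove by induction on `r ≤ k` that for every bad pair there is a bad pair whose
two words begin with alternating words of length `r + 1`.
-/

namespace SCG

variable {V : Type} {M : CoxeterMatrix V}

/-- the alternating word starting with `i` -/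
private def lalt (i j : V) : ℕ → List V
  | 0 => []
  | m + 1 => i :: lalt j i m

private theorem lalt_succ (i j : V) (m : ℕ) : lalt i j (m + 1) = i :: lalt j i m := by
  rw [lalt]

private theorem lalt_length (i j : V) (m : ℕ) : (lalt i j m).length = m := by
  induction m generalizing i j with
  | zero => rfl
  | succ m ih => rw [lalt_succ, List.length_cons, ih]

private theorem lalt_snoc (i j : V) (m : ℕ) : ∃ c, lalt i j (m + 1) = lalt i j m ++ [c] := by
  induction m generalizing i j with
  | zero => exact ⟨i, rfl⟩
  | succ m ih =>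
    obtain ⟨c, hc⟩ := ih j i
    refine ⟨c, ?_⟩
    rw [lalt_succ, hc, lalt_succ i j m]
    rfl

private theorem lalt_eq (i j : V) (m : ℕ) : lalt i j m =
    if Even m then CoxeterSystem.alternatingWord i j m else CoxeterSystem.alternatingWord j i m := by
  induction m generalizing i j with
  | zero => simp [lalt, CoxeterSystem.alternatingWord]
  | succ m ih =>
    rw [lalt_succ, ih j i]
    by_cases hm : Even m
    · have h1 : ¬ Even (m + 1) := by
        rw [Nat.even_add_one]
        exact not_not.mpr hm
      rw [if_pos hm, if_neg h1, CoxeterSystem.alternatingWord_succ', if_pos hm]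
    · have h1 : Even (m + 1) := Nat.even_add_one.mpr hm
      rw [if_neg hm, if_pos h1, CoxeterSystem.alternatingWord_succ', if_neg hm]

private theorem lalt_pow (i j : V) (m : ℕ) :
    M.toCoxeterSystem.wordProd (lalt i j m) * (M.toCoxeterSystem.wordProd (lalt j i m))⁻¹ =
      (gn M i * gn M j) ^ m := by
  induction m using Nat.strong_induction_on with
  | _ m ih =>
    match m, ih with
    | 0, _ => simp [lalt]
    | 1, _ =>
      have e1 : lalt i j 1 = [i] := rfl
      have e2 : lalt j i 1 = [j] := rfl
      rw [e1, e2, CoxeterSystem.wordProd_singleton, CoxeterSystem.wordProd_singleton, gn_inv, pow_one]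
    | m + 2, ih =>
      have h := ih m (by omega)
      have e1 : lalt i j (m + 2) = i :: j :: lalt i j m := rfl
      have e2 : lalt j i (m + 2) = j :: i :: lalt j i m := rfl
      rw [e1, e2, CoxeterSystem.wordProd_cons, CoxeterSystem.wordProd_cons, CoxeterSystem.wordProd_cons,
        CoxeterSystem.wordProd_cons, mul_inv_rev, mul_inv_rev, gn_inv, gn_inv]
      have e3 : M.toCoxeterSystem.simple i * (M.toCoxeterSystem.simple j *
          M.toCoxeterSystem.wordProd (lalt i j m)) *
          ((M.toCoxeterSystem.wordProd (lalt j i m))⁻¹ * gn M i * gn M j) =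
          (gn M i * gn M j) * (M.toCoxeterSystem.wordProd (lalt i j m) *
            (M.toCoxeterSystem.wordProd (lalt j i m))⁻¹) * (gn M i * gn M j) := by
        simp only [mul_assoc]
      rw [e3, h, ← pow_succ', ← pow_succ]

/-- a pair violating the theorem -/
private def Bad {N : Type} [Monoid N] (M : CoxeterMatrix V) (f : V → N) (k : ℕ) (ω ω' : List V) : Prop :=
  M.toCoxeterSystem.IsReduced ω ∧ M.toCoxeterSystem.IsReduced ω' ∧
    M.toCoxeterSystem.wordProd ω = M.toCoxeterSystem.wordProd ω' ∧ ω.length = k + 1 ∧
      (ω.map f).prod ≠ (ω'.map f).prod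

private theorem bad_length {N : Type} [Monoid N] {f : V → N} {k : ℕ} {ω ω' : List V} (h : Bad M f k ω ω') :
    ω'.length = k + 1 := by
  obtain ⟨h1, h2, h3, h4, -⟩ := h
  rw [← h2.eq, ← h3, h1.eq, h4]

private theorem red_tail {a : V} {u : List V} (h : M.toCoxeterSystem.IsReduced (a :: u)) :
    M.toCoxeterSystem.IsReduced u := by
  have := h.drop 1
  simpa using this

private theorem red_init {a : V} {u : List V} (h : M.toCoxeterSystem.IsReduced (u ++ [a])) :
    M.toCoxeterSystem.IsReduced u := by
  have := h.take u.length
  simpa using this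

/-- the statement in length `k` -/
private def Mat {N : Type} [Monoid N] (M : CoxeterMatrix V) (f : V → N) (k : ℕ) : Prop :=
  ∀ ω ω' : List V, M.toCoxeterSystem.IsReduced ω → M.toCoxeterSystem.IsReduced ω' →
    M.toCoxeterSystem.wordProd ω = M.toCoxeterSystem.wordProd ω' → ω.length = k →
      (ω.map f).prod = (ω'.map f).prod

private theorem same_first {N : Type} [Monoid N] {f : V → N} {k : ℕ} (hk : Mat M f k) {a : V} {u u' : List V}
    (h : M.toCoxeterSystem.IsReduced (a :: u)) (h' : M.toCoxeterSystem.IsReduced (a :: u'))
    (he : M.toCoxeterSystem.wordProd (a :: u) = M.toCoxeterSystem.wordProd (a :: u'))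
    (hl : (a :: u).length = k + 1) : ((a :: u).map f).prod = ((a :: u').map f).prod := by
  rw [CoxeterSystem.wordProd_cons, CoxeterSystem.wordProd_cons] at he
  have he' := mul_left_cancel he
  rw [List.length_cons] at hl
  have := hk u u' (red_tail h) (red_tail h') he' (by omega)
  rw [List.map_cons, List.map_cons, List.prod_cons, List.prod_cons, this]

private theorem same_last {N : Type} [Monoid N] {f : V → N} {k : ℕ} (hk : Mat M f k) {a : V} {u u' : List V}
    (h : M.toCoxeterSystem.IsReduced (u ++ [a])) (h' : M.toCoxeterSystem.IsReduced (u' ++ [a]))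
    (he : M.toCoxeterSystem.wordProd (u ++ [a]) = M.toCoxeterSystem.wordProd (u' ++ [a]))
    (hl : (u ++ [a]).length = k + 1) : ((u ++ [a]).map f).prod = ((u' ++ [a]).map f).prod := by
  rw [CoxeterSystem.wordProd_append, CoxeterSystem.wordProd_append] at he
  have he' := mul_right_cancel he
  rw [List.length_append, List.length_singleton] at hl
  have := hk u u' (red_init h) (red_init h') he' (by omega)
  rw [List.map_append, List.map_append, List.prod_append, List.prod_append, this]

/-- step (B) -/
private theorem bad_step {N : Type} [Monoid N] {f : V → N} {k : ℕ} (hk : Mat M f k) {a j : V} {v u' : List V}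
    (h : Bad M f k (v ++ [a]) (j :: u')) : Bad M f k (j :: v) (v ++ [a]) := by
  have hlen' := bad_length h
  obtain ⟨h1, h2, h3, h4, h5⟩ := h
  have hv : v.length = k := by
    rw [List.length_append, List.length_singleton] at h4
    omega
  have hu' : u'.length = k := by
    rw [List.length_cons] at hlen'
    omega
  have hdesc : M.toCoxeterSystem.IsLeftDescent (M.toCoxeterSystem.wordProd (v ++ [a])) j := by
    unfold CoxeterSystem.IsLeftDescent
    rw [h1.eq, h4, h3, CoxeterSystem.wordProd_cons, CoxeterSystem.simple_mul_simple_cancel_left]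
    have := M.toCoxeterSystem.length_wordProd_le u'
    omega
  obtain ⟨p, hp, hpe⟩ := exchange M.toCoxeterSystem hdesc
  have hpk : p < k + 1 := by rw [← h4]; exact hp
  have hπ : M.toCoxeterSystem.wordProd (j :: (v ++ [a]).eraseIdx p) =
      M.toCoxeterSystem.wordProd (v ++ [a]) := by
    rw [CoxeterSystem.wordProd_cons, ← hpe, CoxeterSystem.simple_mul_simple_cancel_left]
  have hlen : (j :: (v ++ [a]).eraseIdx p).length = k + 1 := by
    rw [List.length_cons, List.length_eraseIdx_of_lt hp, h4]
    omega
  have hred : M.toCoxeterSystem.IsReduced (j :: (v ++ [a]).eraseIdx p) := by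
    unfold CoxeterSystem.IsReduced
    rw [hπ, h1.eq, h4, hlen]
  have hF : ((j :: (v ++ [a]).eraseIdx p).map f).prod = ((j :: u').map f).prod :=
    same_first hk hred h2 (by rw [hπ, h3]) hlen
  by_cases hpk' : p < k
  · exfalso
    have e1 : (v ++ [a]).eraseIdx p = v.eraseIdx p ++ [a] :=
      List.eraseIdx_append_of_lt_length (by omega) [a]
    have e2 : j :: (v ++ [a]).eraseIdx p = (j :: v.eraseIdx p) ++ [a] := by rw [e1]; rfl
    rw [e2] at hred hπ hlen hF
    have := same_last hk hred h1 hπ hlen
    exact h5 (by rw [← this, hF])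
  · have hp' : p = k := by omega
    have e1 : (v ++ [a]).eraseIdx p = v := by
      rw [List.eraseIdx_append_of_length_le (by omega)]
      have : p - v.length = 0 := by omega
      rw [this]
      simp
    rw [e1] at hred hπ hlen hF
    exact ⟨hred, h1, hπ, hlen, by rw [hF]; exact fun hh => h5 hh.symm⟩

private theorem bad_alt {N : Type} [Monoid N] {f : V → N} {k : ℕ} (hk : Mat M f k) {ω ω' : List V}
    (h : Bad M f k ω ω') (r : ℕ) (hr : r ≤ k) : ∃ i j : V, ∃ v v' : List V, i ≠ j ∧
      Bad M f k (lalt i j (r + 1) ++ v) (lalt j i (r + 1) ++ v') := by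
  induction r with
  | zero =>
    have hlen' := bad_length h
    have hlen := h.2.2.2.1
    match ω, ω', h, hlen, hlen' with
    | [], _, _, hlen, _ => simp at hlen
    | _, [], _, _, hlen' => simp at hlen'
    | i :: u, j :: u', h, hlen, hlen' =>
      refine ⟨i, j, u, u', ?_, h⟩
      intro hij
      subst hij
      exact h.2.2.2.2 (same_first hk h.1 h.2.1 h.2.2.1 hlen)
  | succ r ih =>
    obtain ⟨i, j, v, v', hij, hb⟩ := ih (by omega)
    have hlen := hb.2.2.2.1
    rw [List.length_append, lalt_length] at hlen
    have hv : v ≠ [] := by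
      intro hh
      rw [hh, List.length_nil] at hlen
      omega
    obtain ⟨v₁, a, hva⟩ : ∃ v₁ a, v = v₁ ++ [a] :=
      ⟨v.dropLast, v.getLast hv, (List.dropLast_append_getLast hv).symm⟩
    have e1 : lalt i j (r + 1) ++ v = (lalt i j (r + 1) ++ v₁) ++ [a] := by rw [hva, List.append_assoc]
    have e2 : lalt j i (r + 1) ++ v' = j :: (lalt i j r ++ v') := by rw [lalt_succ]; rfl
    rw [e1, e2] at hb
    have hb2 := bad_step hk hb
    have e3 : j :: (lalt i j (r + 1) ++ v₁) = lalt j i (r + 1 + 1) ++ v₁ := by
      rw [lalt_succ j i (r + 1)]; rfl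
    obtain ⟨c, hc⟩ := lalt_snoc j i (r + 1)
    obtain ⟨x₁, b, hxb⟩ : ∃ x₁ b, c :: v₁ = x₁ ++ [b] :=
      ⟨(c :: v₁).dropLast, (c :: v₁).getLast (by simp), (List.dropLast_append_getLast (by simp)).symm⟩
    have e4 : lalt j i (r + 1 + 1) ++ v₁ = (lalt j i (r + 1) ++ x₁) ++ [b] := by
      rw [hc, List.append_assoc, List.append_assoc, ← hxb]
      rfl
    have e5 : (lalt i j (r + 1) ++ v₁) ++ [a] = i :: (lalt j i r ++ v₁ ++ [a]) := by
      rw [lalt_succ]; rfl
    rw [e3, e4, e5] at hb2
    have hb3 := bad_step hk hb2
    rw [← e4] at hb3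
    have e6 : i :: (lalt j i (r + 1) ++ x₁) = lalt i j (r + 1 + 1) ++ x₁ := by
      rw [lalt_succ i j (r + 1)]; rfl
    rw [e6] at hb3
    exact ⟨i, j, x₁, v₁, hij, hb3⟩

theorem matsumoto {N : Type} [Monoid N] (f : V → N)
    (hf : ∀ i j, i ≠ j → M i j ≠ 0 → ((CoxeterSystem.alternatingWord i j (M i j)).map f).prod =
      ((CoxeterSystem.alternatingWord j i (M i j)).map f).prod) {ω ω' : List V}
    (h : M.toCoxeterSystem.IsReduced ω) (h' : M.toCoxeterSystem.IsReduced ω')
    (he : M.toCoxeterSystem.wordProd ω = M.toCoxeterSystem.wordProd ω') :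
    (ω.map f).prod = (ω'.map f).prod := by
  have key : ∀ k, Mat M f k := by
    intro k
    induction k with
    | zero =>
      intro ω ω' h h' he hl
      have h1 : ω = [] := List.eq_nil_of_length_eq_zero hl
      have h2 : ω'.length = 0 := by rw [← h'.eq, ← he, h.eq, hl]
      have h3 : ω' = [] := List.eq_nil_of_length_eq_zero h2
      rw [h1, h3]
    | succ k hk =>
      intro ω ω' h h' he hl
      by_contra hne
      obtain ⟨i, j, v, v', hij, hb⟩ := bad_alt hk (show Bad M f k ω ω' from ⟨h, h', he, hl, hne⟩) k le_rfl
      have l1 := hb.2.2.2.1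
      have l2 := bad_length hb
      rw [List.length_append, lalt_length] at l1 l2
      have v1 : v = [] := List.eq_nil_of_length_eq_zero (by omega)
      have v2 : v' = [] := List.eq_nil_of_length_eq_zero (by omega)
      rw [v1, v2, List.append_nil, List.append_nil] at hb
      obtain ⟨b1, b2, b3, -, b5⟩ := hb
      have hpow := lalt_pow (M := M) i j (k + 1)
      rw [b3, mul_inv_cancel] at hpow
      have hdvd : M i j ∣ k + 1 := by
        rw [← orderOf_gn M hij]
        exact orderOf_dvd_of_pow_eq_one hpow.symm
      have hM0 : M i j ≠ 0 := by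
        intro h0
        rw [h0, zero_dvd_iff] at hdvd
        omega
      have hMle : M i j ≤ k + 1 := Nat.le_of_dvd (by omega) hdvd
      have hsym : M j i = M i j := M.symmetric i j ▸ rfl
      have hle : k + 1 ≤ M i j := by
        by_contra hlt
        rw [not_le] at hlt
        rw [lalt_eq] at b1
        by_cases hev : Even (k + 1)
        · rw [if_pos hev] at b1
          exact CoxeterSystem.not_isReduced_alternatingWord _ i j hM0 hlt b1
        · rw [if_neg hev] at b1
          exact CoxeterSystem.not_isReduced_alternatingWord _ j i (by rw [hsym]; exact hM0)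
            (by rw [hsym]; exact hlt) b1
      have heq : M i j = k + 1 := le_antisymm hMle hle
      have hbr := hf i j hij hM0
      rw [heq] at hbr
      apply b5
      rw [lalt_eq, lalt_eq]
      by_cases hev : Even (k + 1)
      · rw [if_pos hev, if_pos hev]
        exact hbr
      · rw [if_neg hev, if_neg hev]
        exact hbr.symm
  exact key ω.length ω ω' h h' he rfl

end SCG
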