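import Pool.Agent.SCG.Lab

/-!
# Project SCG (architect helper40), module PStep: the connected sum step

Let `F ∈ M`, `j = r F`, `d = inr j`, `c = inr (j+1)`, `H = HG Q M r`, `Q° = {x ∈ Q | x ∉ M}` (no element of `M`
is below an element of `Q`, so `x ∈ Q`, `x < F'` for some `F' ∈ M` implies `x ∈ Q°`).
For `x ∈ Q°` let `a x`: `x` is below some `F' ∈ M` with `r F' < j`; `b x`: `x < F`; `e x`: `x` is below some
`F' ∈ M` with `j < r F'`.  By `PD.two` and `PD.inj`: `b x → a x ∨ e x`.  If `x < y` then `a y → a x`,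
`b y → b x`, `e y → e x`.  Put (subsets of `Q°`)
`G₁ = {a ∧ b}`, `G₂ = {b ∧ e}`, `G₃ = {a ∧ e}`, `T = {a ∧ b ∧ e} = TT Q M r F`; pairwise intersections of
`G₁, G₂, G₃` are `T`.  In `H` (for `x ∈ Q°`): `d ~ x` iff `a ∧ (b ∨ e)` (`j ≤ r F'` means `F' = F` or
`j < r F'`), i.e. `x ∈ G₁ ∪ G₃`; `F ~ x` iff `b` iff `x ∈ G₁ ∪ G₂`; `c ~ x` iff `(a ∨ b) ∧ e` iff
`x ∈ G₂ ∪ G₃`; the elements of `M` are pairwise not adjacent and not adjacent to `c, d`; `c, d` are not adjacent.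

All sets below are sets of vertices of `H`; write `x` for `inl x`.
* `A = {d, F} ∪ G₁ ∪ G₂ ∪ G₃`, `B = KN (j+1)` (so `B = {F' ∈ M | j < r F'} ∪ {x ∈ Q° | e x}`).
* `A ∩ B = G₂ ∪ G₃` (an `x ∈ G₁` with `e x` is in `T ⊆ G₂`; `F ∉ B`).
* `A ∪ B = LN j` (`KN j = {F} ∪ {F' | j < r F'} ∪ {x ∈ Q° | b x ∨ e x}`, and `b x` implies `x ∈ G₁ ∪ G₂`).
* `NoE A B`: elements of `A \ B`: `d`, `F`, `x` with `a, b, ¬ e`; elements of `B \ A`: `F'` with `j < r F'`, `y`
  with `e, ¬ a, ¬ b`.  `d ~ y` needs `a y`; `F ~ y` needs `b y`; `x ~ F'` (i.e. `x < F'`) gives `e x`;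
  `x < y` gives `e x`; `y < x` gives `a y`.
* for `x ∈ A ∪ B`: `c ~ x` iff `x ∈ G₂ ∪ G₃`.  `c ∉ A`, `c ∉ B`.
* `insert c B = LN (j+1)`.
* `ZF H (insert c A)`: `insert c A = U₁ ∪ U₂ ∪ U₃`, `U₁ = {F, d} ∪ G₁`, `U₂ = {F, c} ∪ G₂`,
  `U₃ = {d, c} ∪ G₃`: suspensions, `zf_susp`.
  `U₁ ∩ U₂ = {F} ∪ T`: a cone (`F ~ T`), `zf_cone`; `NoE U₁ U₂`: `U₁ \ U₂ = {d} ∪ {a, b, ¬ e}`,
  `U₂ \ U₁ = {c} ∪ {b, e, ¬ a}`: `d ~ y` needs `a y`, `x ~ c` needs `e x`, `x < y` gives `e x`, `y < x` gives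
  `a y`.  So `ZF H (U₁ ∪ U₂)` by `zf_mv`.
  `(U₁ ∪ U₂) ∩ U₃ = {d, c} ∪ T`: suspension (`zf_susp`); `NoE (U₁ ∪ U₂) U₃`:
  `(U₁ ∪ U₂) \ U₃ = {F} ∪ {a, b, ¬ e} ∪ {b, e, ¬ a}`, `U₃ \ (U₁ ∪ U₂) = {a, e, ¬ b}`: `F ~ y` needs `b y`;
  `x < y` gives `a x` and `e x` (one of them is false), `y < x` gives `b y`.
  `ZF H T` (image under `inl`) follows from `ZF (cg P) T` by `zf_image` with `e = Sum.inl`.
* So `zf_csum` gives `ZF H (A ∪ B) = ZF H (LN j)`.
-/

namespace SCG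

open SNG Finset SCS

variable {P : Type} [PartialOrder P]

section wrap

variable {V : Type} {H : SimpleGraph V} {G : CoxeterMatrix V}

private theorem noe' (hz : ∀ u v, u ≠ v → ¬ H.Adj u v → G u v = 0) {A B : Finset V}
    (hn : SCS.NoE H A B) : NoE G A B := by
  intro x hx hx' y hy hy'
  exact hz x y (fun e => hx' (e ▸ hy)) (hn x hx hx' y hy hy')

private theorem csum' (hz : ∀ u v, u ≠ v → ¬ H.Adj u v → G u v = 0)
    {A B AB cA cB : Finset V} {c : V} (hc2 : ∀ x, H.Adj c x → G c x = 2) (hcA : c ∉ A) (hcB : c ∉ B)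
    (hc : ∀ x, x ∈ A ∨ x ∈ B → (H.Adj c x ↔ x ∈ A ∧ x ∈ B)) (hn : SCS.NoE H A B)
    (e1 : ∀ x, x ∈ cA ↔ x = c ∨ x ∈ A) (e2 : ∀ x, x ∈ cB ↔ x = c ∨ x ∈ B)
    (e3 : ∀ x, x ∈ AB ↔ x ∈ A ∨ x ∈ B) (h1 : ZG G cA) (h2 : ZG G cB) : ZG G AB := by
  classical
  have E1 : cA = insert c A := by
    ext x
    rw [mem_insert]
    exact e1 x
  have E2 : cB = insert c B := by
    ext x
    rw [mem_insert]
    exact e2 x
  have E3 : AB = A ∪ B := by
    ext x
    rw [mem_union]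
    exact e3 x
  subst E1 E2 E3
  refine zg_csum hcA hcB (fun x hx => hc2 x ?_) (fun x hx hx' => hz c x ?_ ?_) (noe' hz hn) h1 h2
  · exact (hc x (Or.inl (mem_inter.1 hx).1)).2 (mem_inter.1 hx)
  · rintro rfl
    rcases mem_union.1 hx with h | h
    · exact hcA h
    · exact hcB h
  · intro h
    exact hx' (mem_inter.2 ((hc x (mem_union.1 hx)).1 h))

private theorem mv' (hz : ∀ u v, u ≠ v → ¬ H.Adj u v → G u v = 0) {A B AB C : Finset V}
    (hn : SCS.NoE H A B) (e1 : ∀ x, x ∈ C ↔ x ∈ A ∧ x ∈ B)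
    (e3 : ∀ x, x ∈ AB ↔ x ∈ A ∨ x ∈ B) (h1 : ZG G A) (h2 : ZG G B) (h3 : ZG G C) : ZG G AB := by
  classical
  have E1 : C = A ∩ B := by
    ext x
    rw [mem_inter]
    exact e1 x
  have E3 : AB = A ∪ B := by
    ext x
    rw [mem_union]
    exact e3 x
  subst E1 E3
  exact zg_mv (noe' hz hn) h1 h2 h3

private theorem cone' {Y cY : Finset V} {c : V} (hcY : c ∉ Y)
    (hc2 : ∀ y ∈ Y, H.Adj c y → G c y = 2) (hc : ∀ y ∈ Y, H.Adj c y)
    (e1 : ∀ x, x ∈ cY ↔ x = c ∨ x ∈ Y) (h : ZG G Y) : ZG G cY := by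
  classical
  have E1 : cY = insert c Y := by
    ext x
    rw [mem_insert]
    exact e1 x
  subst E1
  exact zg_cone hcY (fun y hy => hc2 y hy (hc y hy)) h

private theorem susp' (hz : ∀ u v, u ≠ v → ¬ H.Adj u v → G u v = 0) {Y Z : Finset V} {a b : V}
    (ha2 : ∀ y ∈ Y, H.Adj a y → G a y = 2) (hb2 : ∀ y ∈ Y, H.Adj b y → G b y = 2)
    (ha : a ∉ Y) (hb : b ∉ Y) (hab : a ≠ b)
    (hn : ¬ H.Adj a b) (h : ∀ y ∈ Y, H.Adj a y ∧ H.Adj b y)
    (e1 : ∀ x, x ∈ Z ↔ x = a ∨ x = b ∨ x ∈ Y) : ZG G Z := by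
  classical
  have E1 : Z = insert a (insert b Y) := by
    ext x
    rw [mem_insert, mem_insert]
    exact e1 x
  subst E1
  exact zg_susp ha hb hab (hz a b hab hn) fun y hy => ⟨ha2 y hy (h y hy).1, hb2 y hy (h y hy).2⟩

end wrap

open Classical in
/-- the set with the vertices `inr j` (if `u`), `inr (j + 1)` (if `v`) and `inl x`, `x ∈ Q`, `w x` -/
private noncomputable def mkS (Q : Finset P) (j : ℕ) (u v : Prop) (w : P → Prop) :
    Finset (P ⊕ ℕ) :=
  ((if u then {Sum.inr j} else ∅) ∪ (if v then {Sum.inr (j + 1)} else ∅)) ∪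
    ((Q.filter w).image Sum.inl)

omit [PartialOrder P] in
private theorem mk_inl {Q : Finset P} {j : ℕ} {u v : Prop} {w : P → Prop} {x : P} :
    Sum.inl x ∈ mkS Q j u v w ↔ x ∈ Q ∧ w x := by
  classical
  unfold mkS
  by_cases hu : u <;> by_cases hv : v <;> simp [hu, hv]

omit [PartialOrder P] in
private theorem mk_inr {Q : Finset P} {j : ℕ} {u v : Prop} {w : P → Prop} {k : ℕ} :
    Sum.inr k ∈ mkS Q j u v w ↔ (u ∧ k = j) ∨ (v ∧ k = j + 1) := by
  classical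
  unfold mkS
  by_cases hu : u <;> by_cases hv : v <;> simp [hu, hv]

private def pa (M : Finset P) (r : P → ℕ) (F x : P) : Prop := ∃ F' ∈ M, r F' < r F ∧ x < F'

private def pe (M : Finset P) (r : P → ℕ) (F x : P) : Prop := ∃ F' ∈ M, r F < r F' ∧ x < F'

private def pm (M : Finset P) (r : P → ℕ) (F x : P) : Prop := x ∈ M ∧ r F < r x

section facts

variable {Q M : Finset P} {r : P → ℕ} {F : P}

private theorem pa_mono {x y : P} (h : x < y) (hy : pa M r F y) : pa M r F x := by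
  obtain ⟨F', h1, h2, h3⟩ := hy
  exact ⟨F', h1, h2, h.trans h3⟩

private theorem pe_mono {x y : P} (h : x < y) (hy : pe M r F y) : pe M r F x := by
  obtain ⟨F', h1, h2, h3⟩ := hy
  exact ⟨F', h1, h2, h.trans h3⟩

private theorem pa_notMem (h : PD Q M r) {x : P} (hx : pa M r F x) : x ∉ M := by
  obtain ⟨F', h1, h2, h3⟩ := hx
  intro hm
  exact h.max x hm F' (h.sub h1) h3

private theorem pe_notMem (h : PD Q M r) {x : P} (hx : pe M r F x) : x ∉ M := by
  obtain ⟨F', h1, h2, h3⟩ := hx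
  intro hm
  exact h.max x hm F' (h.sub h1) h3

private theorem pb_notMem (h : PD Q M r) (hF : F ∈ M) {x : P} (hx : x < F) : x ∉ M := by
  intro hm
  exact h.max x hm F (h.sub hF) hx

private theorem pb_or (h : PD Q M r) (hF : F ∈ M) {x : P} (hxQ : x ∈ Q) (hx : x < F) :
    pa M r F x ∨ pe M r F x := by
  obtain ⟨F1, h1, F2, h2, hne, hx1, hx2⟩ := h.two x hxQ (pb_notMem h hF hx)
  have key : ∀ F' ∈ M, F' ≠ F → x < F' → pa M r F x ∨ pe M r F x := by
    intro F' hF' hne' hx'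
    have : r F' ≠ r F := fun e => hne' (h.inj F' hF' F hF e)
    rcases lt_or_gt_of_ne this with h3 | h3
    · exact Or.inl ⟨F', hF', h3, hx'⟩
    · exact Or.inr ⟨F', hF', h3, hx'⟩
  by_cases e : F1 = F
  · exact key F2 h2 (fun e' => hne (e.trans e'.symm)) hx2
  · exact key F1 h1 e hx1

private theorem nn0 (h : PD Q M r) (hF : F ∈ M) {x : P} (hxQ : x ∈ Q) :
    NN Q M r (r F) x ↔ pa M r F x ∧ (x < F ∨ pe M r F x) := by
  constructor
  · rintro ⟨-, h1, F', h2, h3, h4⟩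
    refine ⟨h1, ?_⟩
    rcases h3.eq_or_lt with h5 | h5
    · left
      have := h.inj F hF F' h2 h5
      rwa [this]
    · exact Or.inr ⟨F', h2, h5, h4⟩
  · rintro ⟨h1, h2⟩
    refine ⟨hxQ, h1, ?_⟩
    rcases h2 with h2 | ⟨F', h2, h3, h4⟩
    · exact ⟨F, hF, le_rfl, h2⟩
    · exact ⟨F', h2, h3.le, h4⟩

private theorem nn1 (h : PD Q M r) (hF : F ∈ M) {x : P} (hxQ : x ∈ Q) :
    NN Q M r (r F + 1) x ↔ (pa M r F x ∨ x < F) ∧ pe M r F x := by
  constructor
  · rintro ⟨-, ⟨F', h2, h3, h4⟩, h1⟩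
    refine ⟨?_, h1⟩
    rcases (Nat.lt_succ_iff.1 h3).eq_or_lt with h5 | h5
    · right
      have := h.inj F' h2 F hF h5
      rwa [← this]
    · exact Or.inl ⟨F', h2, h5, h4⟩
  · rintro ⟨h2, h1⟩
    refine ⟨hxQ, ?_, h1⟩
    rcases h2 with ⟨F', h2, h3, h4⟩ | h2
    · exact ⟨F', h2, h3.trans (Nat.lt_succ_self _), h4⟩
    · exact ⟨F, hF, Nat.lt_succ_self _, h2⟩

private theorem kn1 {x : P} :
    x ∈ KN Q M r (r F + 1) ↔ x ∈ Q ∧ (pe M r F x ∨ pm M r F x) := by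
  classical
  unfold KN
  rw [mem_filter]
  refine and_congr_right fun hxQ => ?_
  constructor
  · rintro ⟨F', h1, h2, h3⟩
    rcases h3.eq_or_lt with rfl | h4
    · exact Or.inr ⟨h1, h2⟩
    · exact Or.inl ⟨F', h1, h2, h4⟩
  · rintro (⟨F', h1, h2, h3⟩ | ⟨h1, h2⟩)
    · exact ⟨F', h1, h2, h3.le⟩
    · exact ⟨x, h1, h2, le_rfl⟩

private theorem kn0 (h : PD Q M r) (hF : F ∈ M) {x : P} :
    x ∈ KN Q M r (r F) ↔ x ∈ Q ∧ (x = F ∨ x < F ∨ pe M r F x ∨ pm M r F x) := by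
  classical
  unfold KN
  rw [mem_filter]
  refine and_congr_right fun hxQ => ?_
  constructor
  · rintro ⟨F', h1, h2, h3⟩
    rcases h2.eq_or_lt with h5 | h5
    · have h6 := h.inj F hF F' h1 h5
      rw [← h6] at h3
      rcases h3.eq_or_lt with h4 | h4
      · exact Or.inl h4
      · exact Or.inr (Or.inl h4)
    · rcases h3.eq_or_lt with rfl | h4
      · exact Or.inr (Or.inr (Or.inr ⟨h1, h5⟩))
      · exact Or.inr (Or.inr (Or.inl ⟨F', h1, h5, h4⟩))
  · rintro (rfl | h1 | ⟨F', h1, h2, h3⟩ | ⟨h1, h2⟩)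
    · exact ⟨x, hF, le_rfl, le_rfl⟩
    · exact ⟨F, hF, le_rfl, h1.le⟩
    · exact ⟨F', h1, h2.le, h3.le⟩
    · exact ⟨x, h1, h2.le, le_rfl⟩

private theorem mem_LN {j : ℕ} {v : P ⊕ ℕ} :
    v ∈ LN Q M r j ↔ v = Sum.inr j ∨ ∃ x ∈ KN Q M r j, Sum.inl x = v := by
  classical
  unfold LN
  rw [mem_insert, mem_image]

end facts

theorem p_step {L : CoxeterMatrix P} (hL0 : LZ L) {Q M : Finset P} {r : P → ℕ} (h : PD Q M r)
    (hl : ∀ F ∈ M, ∀ x ∈ Q, x < F → L F x = 2) {F : P} (hF : F ∈ M)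
    (hT : ZG L (TT Q M r F)) (hL : ZG (HM L Q M r) (LN Q M r (r F + 1))) :
    ZG (HM L Q M r) (LN Q M r (r F)) := by
  classical
  have hz : ∀ u v, u ≠ v → ¬ (HG Q M r).Adj u v → HM L Q M r u v = 0 := fun u v => hm_zero hL0
  have h2r : ∀ (Y : Finset (P ⊕ ℕ)) (k : ℕ), ∀ y ∈ Y, (HG Q M r).Adj (Sum.inr k) y →
      HM L Q M r (Sum.inr k) y = 2 := fun _ k y _ => hm_cone
  have h2F : ∀ (w : P → Prop), ∀ y ∈ mkS Q (r F) False False w, (HG Q M r).Adj (Sum.inl F) y →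
      HM L Q M r (Sum.inl F) y = 2 := by
    intro w y hy
    refine hm_max h hl hF ?_
    rintro x rfl
    exact (mk_inl.1 hy).1
  have hFQ : F ∈ Q := h.sub hF
  have hFa : ¬ pa M r F F := fun h1 => pa_notMem h h1 hF
  have hFe : ¬ pe M r F F := fun h1 => pe_notMem h h1 hF
  have hFb : ¬ F < F := lt_irrefl F
  have hFm : ¬ pm M r F F := fun h1 => lt_irrefl _ h1.2
  -- adjacency
  have adj_ll : ∀ x y : P, (HG Q M r).Adj (Sum.inl x) (Sum.inl y) ↔ x < y ∨ y < x :=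
    fun _ _ => Iff.rfl
  have adj_lr : ∀ (x : P) (k : ℕ), (HG Q M r).Adj (Sum.inl x) (Sum.inr k) ↔ NN Q M r k x :=
    fun _ _ => Iff.rfl
  have adj_rl : ∀ (x : P) (k : ℕ), (HG Q M r).Adj (Sum.inr k) (Sum.inl x) ↔ NN Q M r k x :=
    fun _ _ => Iff.rfl
  have adj_rr : ∀ (k l : ℕ), ¬ (HG Q M r).Adj (Sum.inr k) (Sum.inr l) := fun _ _ h1 => h1
  -- the base `T`
  have hT0 : ZG (HM L Q M r) (mkS Q (r F) False False
      (fun x => pa M r F x ∧ x < F ∧ pe M r F x)) := by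
    have h1 := (zg_image (G := L) (G' := HM L Q M r) (S := TT Q M r F) Sum.inl
      (fun x _ y _ hxy => Sum.inl.inj hxy) (fun x _ y _ => rfl)).1 hT
    have h2 : (TT Q M r F).image Sum.inl = mkS Q (r F) False False
      (fun x => pa M r F x ∧ x < F ∧ pe M r F x) := by
      ext v
      rcases v with x | k
      · rw [mk_inl, mem_image]
        unfold TT
        constructor
        · rintro ⟨y, hy, hyx⟩
          obtain rfl := Sum.inl.inj hyx
          rw [mem_filter] at hy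
          exact ⟨hy.1, hy.2.2.1, hy.2.1, hy.2.2.2⟩
        · rintro ⟨h3, h4, h5, h6⟩
          exact ⟨x, mem_filter.2 ⟨h3, h5, h4, h6⟩, rfl⟩
      · rw [mk_inr, mem_image]
        constructor
        · rintro ⟨y, hy, hyx⟩
          cases hyx
        · rintro (⟨h3, -⟩ | ⟨h3, -⟩) <;> exact h3.elim
    rw [← h2]
    exact h1
  have hU1 : ZG (HM L Q M r) (mkS Q (r F) True False (fun x => x = F ∨ (pa M r F x ∧ x < F))) := by
    refine susp' hz (Y := mkS Q (r F) False False (fun x => pa M r F x ∧ x < F)) (a := Sum.inl F)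
      (b := Sum.inr (r F)) (h2F _) (h2r _ _) ?_ ?_ (by simp) ?_ ?_ ?_
    · rw [mk_inl]
      exact fun h1 => hFb h1.2.2
    · rw [mk_inr]
      simp
    · rw [adj_lr, nn0 h hF hFQ]
      exact fun h1 => hFa h1.1
    · rintro (y | k) hy
      · rw [mk_inl] at hy
        rw [adj_ll, adj_rl, nn0 h hF hy.1]
        exact ⟨Or.inr hy.2.2, hy.2.1, Or.inl hy.2.2⟩
      · rw [mk_inr] at hy
        simp at hy
    · rintro (y | k)
      · rw [mk_inl, mk_inl]
        constructor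
        · rintro ⟨h1, rfl | h2⟩
          · exact Or.inl rfl
          · exact Or.inr (Or.inr ⟨h1, h2⟩)
        · rintro (h1 | h1 | h1)
          · obtain rfl := Sum.inl.inj h1
            exact ⟨hFQ, Or.inl rfl⟩
          · cases h1
          · exact ⟨h1.1, Or.inr h1.2⟩
      · rw [mk_inr, mk_inr]
        simp
  have hU2 : ZG (HM L Q M r) (mkS Q (r F) False True (fun x => x = F ∨ (x < F ∧ pe M r F x))) := by
    refine susp' hz (Y := mkS Q (r F) False False (fun x => x < F ∧ pe M r F x)) (a := Sum.inl F)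
      (b := Sum.inr (r F + 1)) (h2F _) (h2r _ _) ?_ ?_ (by simp) ?_ ?_ ?_
    · rw [mk_inl]
      exact fun h1 => hFb h1.2.1
    · rw [mk_inr]
      simp
    · rw [adj_lr, nn1 h hF hFQ]
      exact fun h1 => hFe h1.2
    · rintro (y | k) hy
      · rw [mk_inl] at hy
        rw [adj_ll, adj_rl, nn1 h hF hy.1]
        exact ⟨Or.inr hy.2.1, Or.inr hy.2.1, hy.2.2⟩
      · rw [mk_inr] at hy
        simp at hy
    · rintro (y | k)
      · rw [mk_inl, mk_inl]
        constructor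
        · rintro ⟨h1, rfl | h2⟩
          · exact Or.inl rfl
          · exact Or.inr (Or.inr ⟨h1, h2⟩)
        · rintro (h1 | h1 | h1)
          · obtain rfl := Sum.inl.inj h1
            exact ⟨hFQ, Or.inl rfl⟩
          · cases h1
          · exact ⟨h1.1, Or.inr h1.2⟩
      · rw [mk_inr, mk_inr]
        simp
  have hsus : ∀ w : P → Prop, (∀ x ∈ Q, w x → pa M r F x ∧ pe M r F x) →
      ZG (HM L Q M r) (mkS Q (r F) True True w) := by
    intro w hw
    refine susp' hz (Y := mkS Q (r F) False False w) (a := Sum.inr (r F))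
      (b := Sum.inr (r F + 1)) (h2r _ _) (h2r _ _) ?_ ?_ (by simp) (adj_rr _ _) ?_ ?_
    · rw [mk_inr]
      simp
    · rw [mk_inr]
      simp
    · rintro (y | k) hy
      · rw [mk_inl] at hy
        have h1 := hw y hy.1 hy.2
        rw [adj_rl, adj_rl, nn0 h hF hy.1, nn1 h hF hy.1]
        exact ⟨⟨h1.1, Or.inr h1.2⟩, Or.inl h1.1, h1.2⟩
      · rw [mk_inr] at hy
        simp at hy
    · rintro (y | k)
      · rw [mk_inl, mk_inl]
        simp
      · rw [mk_inr, mk_inr]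
        simp
  have hC12 : ZG (HM L Q M r) (mkS Q (r F) False False
      (fun x => x = F ∨ (pa M r F x ∧ x < F ∧ pe M r F x))) := by
    refine cone' (H := HG Q M r) (c := Sum.inl F) ?_ (h2F _) ?_ ?_ hT0
    · rw [mk_inl]
      exact fun h1 => hFb h1.2.2.1
    · rintro (y | k) hy
      · rw [mk_inl] at hy
        rw [adj_ll]
        exact Or.inr hy.2.2.1
      · rw [mk_inr] at hy
        simp at hy
    · rintro (y | k)
      · rw [mk_inl, mk_inl]
        constructor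
        · rintro ⟨h1, rfl | h2⟩
          · exact Or.inl rfl
          · exact Or.inr ⟨h1, h2⟩
        · rintro (h1 | h1)
          · obtain rfl := Sum.inl.inj h1
            exact ⟨hFQ, Or.inl rfl⟩
          · exact ⟨h1.1, Or.inr h1.2⟩
      · rw [mk_inr, mk_inr]
        simp
  have hU12 : ZG (HM L Q M r) (mkS Q (r F) True True
      (fun x => x = F ∨ (pa M r F x ∧ x < F) ∨ (x < F ∧ pe M r F x))) := by
    refine mv' hz ?_ ?_ ?_ hU1 hU2 hC12
    · rintro (x | k) hx hx' (y | l) hy hy' hadj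
      · rw [mk_inl] at hx hx' hy hy'
        rw [adj_ll] at hadj
        have e1 : x ≠ F := fun e => hx' ⟨hx.1, Or.inl e⟩
        have e2 : y ≠ F := fun e => hy' ⟨hy.1, Or.inl e⟩
        have e3 : pa M r F x ∧ x < F := hx.2.resolve_left e1
        have e4 : y < F ∧ pe M r F y := hy.2.resolve_left e2
        rcases hadj with hlt | hlt
        · exact hx' ⟨hx.1, Or.inr ⟨e3.2, pe_mono hlt e4.2⟩⟩
        · exact hy' ⟨hy.1, Or.inr ⟨pa_mono hlt e3.1, e4.1⟩⟩
      · rw [mk_inl] at hx hx'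
        rw [mk_inr] at hy
        have e1 : l = r F + 1 := by simpa using hy
        subst e1
        rw [adj_lr, nn1 h hF hx.1] at hadj
        have e1 : x ≠ F := fun e => hx' ⟨hx.1, Or.inl e⟩
        have e3 : pa M r F x ∧ x < F := hx.2.resolve_left e1
        exact hx' ⟨hx.1, Or.inr ⟨e3.2, hadj.2⟩⟩
      · rw [mk_inl] at hy hy'
        rw [mk_inr] at hx
        have e1 : k = r F := by simpa using hx
        subst e1
        rw [adj_rl, nn0 h hF hy.1] at hadj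
        have e2 : y ≠ F := fun e => hy' ⟨hy.1, Or.inl e⟩
        have e4 : y < F ∧ pe M r F y := hy.2.resolve_left e2
        exact hy' ⟨hy.1, Or.inr ⟨hadj.1, e4.1⟩⟩
      · exact adj_rr _ _ hadj
    · rintro (x | k)
      · rw [mk_inl, mk_inl, mk_inl]
        constructor
        · rintro ⟨h1, h2 | h2⟩
          · exact ⟨⟨h1, Or.inl h2⟩, h1, Or.inl h2⟩
          · exact ⟨⟨h1, Or.inr ⟨h2.1, h2.2.1⟩⟩, h1, Or.inr ⟨h2.2.1, h2.2.2⟩⟩
        · rintro ⟨⟨h1, h2⟩, -, h3⟩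
          refine ⟨h1, ?_⟩
          rcases h2 with h2 | h2
          · exact Or.inl h2
          · rcases h3 with h3 | h3
            · exact Or.inl h3
            · exact Or.inr ⟨h2.1, h2.2, h3.2⟩
      · rw [mk_inr, mk_inr, mk_inr]
        simp only [true_and, false_and, or_false, false_or, false_iff, not_and]
        omega
    · rintro (x | k)
      · rw [mk_inl, mk_inl, mk_inl]
        tauto
      · rw [mk_inr, mk_inr, mk_inr]
        tauto
  have hcA : ZG (HM L Q M r) (mkS Q (r F) True True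
      (fun x => x = F ∨ (pa M r F x ∧ x < F) ∨ (x < F ∧ pe M r F x) ∨
        (pa M r F x ∧ pe M r F x))) := by
    refine mv' hz ?_ ?_ ?_ hU12 (hsus (fun x => pa M r F x ∧ pe M r F x) fun x _ hx => hx)
      (hsus (fun x => pa M r F x ∧ x < F ∧ pe M r F x) fun x _ hx => ⟨hx.1, hx.2.2⟩)
    · rintro (x | k) hx hx' (y | l) hy hy' hadj
      · rw [mk_inl] at hx hx' hy hy'
        rw [adj_ll] at hadj
        have e5 : pa M r F y ∧ pe M r F y := hy.2
        rcases hadj with hlt | hlt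
        · exact hx' ⟨hx.1, pa_mono hlt e5.1, pe_mono hlt e5.2⟩
        · rcases hx.2 with e | e | e
          · rw [e] at hlt
            exact hy' ⟨hy.1, Or.inr (Or.inl ⟨e5.1, hlt⟩)⟩
          · exact hy' ⟨hy.1, Or.inr (Or.inl ⟨e5.1, hlt.trans e.2⟩)⟩
          · exact hy' ⟨hy.1, Or.inr (Or.inl ⟨e5.1, hlt.trans e.1⟩)⟩
      · rw [mk_inr] at hy hy'
        exact hy' hy
      · rw [mk_inr] at hx hx'
        exact hx' hx
      · exact adj_rr _ _ hadj
    · rintro (x | k)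
      · rw [mk_inl, mk_inl, mk_inl]
        constructor
        · rintro ⟨h1, h2⟩
          exact ⟨⟨h1, Or.inr (Or.inl ⟨h2.1, h2.2.1⟩)⟩, h1, h2.1, h2.2.2⟩
        · rintro ⟨⟨h1, h2⟩, -, h3⟩
          refine ⟨h1, h3.1, ?_, h3.2⟩
          rcases h2 with h2 | h2 | h2
          · rw [h2] at h3
            exact absurd h3.1 hFa
          · exact h2.2
          · exact h2.1
      · rw [mk_inr, mk_inr, mk_inr]
        tauto
    · rintro (x | k)
      · rw [mk_inl, mk_inl, mk_inl]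
        tauto
      · rw [mk_inr, mk_inr, mk_inr]
        tauto
  refine csum' hz (c := Sum.inr (r F + 1)) (hc2 := fun _ => hm_cone)
    (A := mkS Q (r F) True False
      (fun x => x = F ∨ (pa M r F x ∧ x < F) ∨ (x < F ∧ pe M r F x) ∨
        (pa M r F x ∧ pe M r F x)))
    (B := mkS Q (r F) False False (fun x => pe M r F x ∨ pm M r F x)) ?_ ?_ ?_ ?_ ?_ ?_ ?_ hcA hL
  · rw [mk_inr]
    simp
  · rw [mk_inr]
    simp
  · rintro (x | k) hx
    · rw [mk_inl, mk_inl] at hx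
      have hxQ : x ∈ Q := hx.elim (fun h1 => h1.1) fun h1 => h1.1
      rw [adj_rl, nn1 h hF hxQ, mk_inl, mk_inl]
      constructor
      · rintro ⟨h1, h2⟩
        refine ⟨⟨hxQ, ?_⟩, hxQ, Or.inl h2⟩
        rcases h1 with h1 | h1
        · exact Or.inr (Or.inr (Or.inr ⟨h1, h2⟩))
        · exact Or.inr (Or.inr (Or.inl ⟨h1, h2⟩))
      · rintro ⟨⟨-, h1⟩, -, h2⟩
        have hxM : x = F ∨ x ∉ M := by
          rcases h1 with h1 | h1 | h1 | h1
          · exact Or.inl h1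
          · exact Or.inr (pa_notMem h h1.1)
          · exact Or.inr (pe_notMem h h1.2)
          · exact Or.inr (pa_notMem h h1.1)
        rcases hxM with rfl | hxM
        · rcases h2 with h2 | h2
          · exact absurd h2 hFe
          · exact absurd h2 hFm
        · have h3 : pe M r F x := h2.resolve_right fun h4 => hxM h4.1
          refine ⟨?_, h3⟩
          rcases h1 with h1 | h1 | h1 | h1
          · rw [h1] at hxM
            exact absurd hF hxM
          · exact Or.inl h1.1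
          · exact Or.inr h1.1
          · exact Or.inl h1.1
    · rw [mk_inr, mk_inr]
      constructor
      · intro h1
        exact absurd h1 (adj_rr _ _)
      · rintro ⟨-, h1⟩
        simp at h1
  · rintro (x | k) hx hx' (y | l) hy hy' hadj
    · rw [mk_inl] at hx hx' hy hy'
      rw [adj_ll] at hadj
      rcases hadj with hlt | hlt
      · rcases hy.2 with h1 | h1
        · exact hx' ⟨hx.1, Or.inl (pe_mono hlt h1)⟩
        · exact hx' ⟨hx.1, Or.inl ⟨y, h1.1, h1.2, hlt⟩⟩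
      · have hyM : y ∉ M := by
          rcases hx.2 with rfl | h1 | h1 | h1
          · exact pb_notMem h hF hlt
          · exact pa_notMem h (pa_mono hlt h1.1)
          · exact pe_notMem h (pe_mono hlt h1.2)
          · exact pa_notMem h (pa_mono hlt h1.1)
        have hye : pe M r F y := hy.2.resolve_right fun h4 => hyM h4.1
        rcases hx.2 with rfl | h1 | h1 | h1
        · exact hy' ⟨hy.1, Or.inr (Or.inr (Or.inl ⟨hlt, hye⟩))⟩
        · exact hy' ⟨hy.1, Or.inr (Or.inr (Or.inr ⟨pa_mono hlt h1.1, hye⟩))⟩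
        · exact hy' ⟨hy.1, Or.inr (Or.inr (Or.inl ⟨hlt.trans h1.1, hye⟩))⟩
        · exact hy' ⟨hy.1, Or.inr (Or.inr (Or.inr ⟨pa_mono hlt h1.1, hye⟩))⟩
    · rw [mk_inr] at hy
      simp at hy
    · rw [mk_inl] at hy hy'
      rw [mk_inr] at hx
      have e1 : k = r F := by simpa using hx
      subst e1
      rw [adj_rl, nn0 h hF hy.1] at hadj
      rcases hy.2 with h1 | h1
      · exact hy' ⟨hy.1, Or.inr (Or.inr (Or.inr ⟨hadj.1, h1⟩))⟩
      · exact pa_notMem h hadj.1 h1.1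
    · exact adj_rr _ _ hadj
  · rintro (x | k)
    · rw [mk_inl, mk_inl]
      simp
    · rw [mk_inr, mk_inr]
      simp
      tauto
  · rintro (x | k)
    · rw [mem_LN, mk_inl, ← kn1]
      simp
    · rw [mem_LN, mk_inr]
      simp
  · rintro (x | k)
    · rw [mem_LN, mk_inl, mk_inl]
      have e1 : (Sum.inl x = (Sum.inr (r F) : P ⊕ ℕ) ∨ ∃ y ∈ KN Q M r (r F),
          Sum.inl y = (Sum.inl x : P ⊕ ℕ)) ↔ x ∈ KN Q M r (r F) := by simp
      rw [e1, kn0 h hF]
      constructor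
      · rintro ⟨h1, h2 | h2 | h2 | h2⟩
        · exact Or.inl ⟨h1, Or.inl h2⟩
        · rcases pb_or h hF h1 h2 with h3 | h3
          · exact Or.inl ⟨h1, Or.inr (Or.inl ⟨h3, h2⟩)⟩
          · exact Or.inl ⟨h1, Or.inr (Or.inr (Or.inl ⟨h2, h3⟩))⟩
        · exact Or.inr ⟨h1, Or.inl h2⟩
        · exact Or.inr ⟨h1, Or.inr h2⟩
      · rintro (⟨h1, h2 | h2 | h2 | h2⟩ | ⟨h1, h2 | h2⟩)
        · exact ⟨h1, Or.inl h2⟩
        · exact ⟨h1, Or.inr (Or.inl h2.2)⟩
        · exact ⟨h1, Or.inr (Or.inl h2.1)⟩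
        · exact ⟨h1, Or.inr (Or.inr (Or.inl h2.2))⟩
        · exact ⟨h1, Or.inr (Or.inr (Or.inl h2))⟩
        · exact ⟨h1, Or.inr (Or.inr (Or.inr h2))⟩
    · rw [mem_LN, mk_inr, mk_inr]
      simp

end SCG
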