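import Pool.Agent.SCG.Pos
import Pool.Agent.SCS.ShR

/-!
# Project SCG (architect helper40), module ShR: the labelled face poset of a shellable sphere

`LO L`: `L τ σ = 2` whenever `∅ ≠ σ ⊂ τ` and `|τ|` is odd.  The face poset of a shellable sphere whose facets
have an odd number of vertices is in `RL L`: at every stage the maximal elements have odd cardinality.
-/

namespace SCG

open SNG Finset SCS

variable {ι : Type} [DecidableEq ι]

/-- The label is `2` if the larger set has odd cardinality. -/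
def LO (L : CoxeterMatrix (Finset ι)) : Prop :=
  ∀ τ σ : Finset ι, σ.Nonempty → σ < τ → Odd τ.card → L τ σ = 2

theorem rl_JB_aux {L : CoxeterMatrix (Finset ι)} (hL : LO L) :
    ∀ (n : ℕ) (R R' : Finset ι), R.card + R'.card = n → Disjoint R R' →
    R.Nonempty → R'.Nonempty → Odd (R.card + R'.card) → RL L (JB R R') := by
  intro n
  induction n using Nat.strong_induction_on with
  | _ n ih =>
    intro R R' hn hd h1 h2 ho
    have c1 := Finset.card_pos.2 h1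
    have c2 := Finset.card_pos.2 h2
    have h3 : 3 ≤ R.card + R'.card := by
      obtain ⟨k, hk⟩ := ho
      omega
    obtain ⟨ρ, N, hρ, hinj⟩ := jb_order (R ∪ R')
    refine RL.mk (JB R R') (jbM R R') (jbr R R' ρ N) (jb_PD hd h3 hρ hinj) ?_ ?_ ?_
    · obtain ⟨x, hx⟩ := h1
      obtain ⟨y, hy⟩ := h2
      have h4 : 2 ≤ R.card ∨ 2 ≤ R'.card := by omega
      rcases h4 with h4 | h4
      · obtain ⟨a, ha, b, hb, hab⟩ := Finset.one_lt_card.1 h4
        refine Finset.one_lt_card.2 ⟨jbF R R' a y, mem_jbM.2 ⟨a, ha, y, hy, rfl⟩,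
          jbF R R' b y, mem_jbM.2 ⟨b, hb, y, hy, rfl⟩, ?_⟩
        intro h
        have : b ∈ jbF R R' a y := mem_jbF.2 ⟨Or.inl hb, hab.symm, jb_ne hd hb hy⟩
        rw [h] at this
        exact (mem_jbF.1 this).2.1 rfl
      · obtain ⟨a, ha, b, hb, hab⟩ := Finset.one_lt_card.1 h4
        refine Finset.one_lt_card.2 ⟨jbF R R' x a, mem_jbM.2 ⟨x, hx, a, ha, rfl⟩,
          jbF R R' x b, mem_jbM.2 ⟨x, hx, b, hb, rfl⟩, ?_⟩
        intro h
        have : b ∈ jbF R R' x a := mem_jbF.2 ⟨Or.inr hb, (jb_ne hd hx hb).symm, hab.symm⟩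
        rw [h] at this
        exact (mem_jbF.1 this).2.2 rfl
    · intro σ hσ τ hτ hlt
      obtain ⟨x, hx, y, hy, rfl⟩ := mem_jbM.1 hσ
      have hc := jbF_card hd hx hy
      refine hL _ _ (mem_JB.1 hτ).2.1 hlt ?_
      obtain ⟨k, hk⟩ := ho
      exact ⟨k - 1, by omega⟩
    · rintro σ hσ ⟨σ1, hσ1, hr1⟩ ⟨σ2, hσ2, hr2⟩
      obtain ⟨x, hx, y, hy, rfl⟩ := mem_jbM.1 hσ
      obtain ⟨a, ha, b, hb, rfl⟩ := mem_jbM.1 hσ1
      obtain ⟨a', ha', b', hb', rfl⟩ := mem_jbM.1 hσ2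
      rw [jb_TT hd hρ hinj hx hy]
      have hcard : (jbL R R' ρ x y).card + (jbG R R' ρ x y).card + 2 =
          R.card + R'.card := by
        rw [← Finset.card_union_of_disjoint (jb_disj hd ρ x y), jb_union hd hinj hx hy]
        exact jbF_card hd hx hy
      refine ih _ (by omega) _ _ rfl (jb_disj hd ρ x y) ?_ ?_ ?_
      · rcases jb_early hd hρ hx hy ha hb hr1 with h | h
        · exact ⟨_, h⟩
        · exact ⟨_, h⟩
      · rcases jb_late hd hρ hx hy ha' hb' hr2 with h | h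
        · exact ⟨_, h⟩
        · exact ⟨_, h⟩
      · obtain ⟨k, hk⟩ := ho
        exact ⟨k - 1, by omega⟩

theorem rl_JB {L : CoxeterMatrix (Finset ι)} (hL : LO L) (R R' : Finset ι) (hd : Disjoint R R')
    (h1 : R.Nonempty) (h2 : R'.Nonempty) (ho : Odd (R.card + R'.card)) : RL L (JB R R') :=
  rl_JB_aux hL _ R R' rfl hd h1 h2 ho

theorem rl_fc {L : CoxeterMatrix (Finset ι)} (hL : LO L) {n m : ℕ} {F : Fin m → Finset ι}
    (h : ShS n m F) (hn : Odd n) (hm : 0 < m) : RL L (fc F) := by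
  classical
  have hn1 : 0 < n := hn.pos
  obtain ⟨r, hr⟩ : ∃ r : Finset ι → ℕ, ∀ i, r (F i) = (i : ℕ) :=
    ⟨Function.extend F (fun i => (i : ℕ)) 0, fun i => h.inj.extend_apply _ _ i⟩
  have hMm : ∀ i, F i ∈ univ.image F := fun i => mem_image_of_mem F (mem_univ i)
  have hM : ∀ τ, τ ∈ univ.image F → ∃ i, F i = τ := fun τ hτ => by
    obtain ⟨i, -, hi⟩ := mem_image.1 hτ
    exact ⟨i, hi⟩
  refine RL.mk (fc F) (univ.image F) r ⟨?_, ?_, ?_, ?_⟩ ?_ ?_ ?_
  · intro τ hτ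
    obtain ⟨i, rfl⟩ := hM τ hτ
    exact mem_fc.2 ⟨card_pos.1 (by rw [h.card]; exact hn1), i, Subset.refl _⟩
  · intro G hG τ hτ hlt
    obtain ⟨i, rfl⟩ := hM G hG
    obtain ⟨-, k, hk⟩ := mem_fc.1 hτ
    have h1 := card_lt_card hlt
    have h2 := card_le_card hk
    rw [h.card] at h1 h2
    omega
  · intro τ hτ hτM
    obtain ⟨-, i, hi⟩ := mem_fc.1 hτ
    have hne : ∀ k, τ ≠ F k := fun k hk => hτM (by rw [hk]; exact hMm k)
    obtain ⟨x, hx, hxτ⟩ := exists_of_ssubset (Finset.ssubset_iff_subset_ne.2 ⟨hi, hne i⟩)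
    obtain ⟨k, ⟨hki, hk⟩, -⟩ := h.ridge i x hx
    have hτk : τ ⊆ F k := fun y hy => hk (mem_erase.2 ⟨fun e => hxτ (e ▸ hy), hi hy⟩)
    exact ⟨F i, hMm i, F k, hMm k, fun e => hki (h.inj e).symm,
      (Finset.ssubset_iff_subset_ne.2 ⟨hi, hne i⟩),
      (Finset.ssubset_iff_subset_ne.2 ⟨hτk, hne k⟩)⟩
  · intro G hG G' hG' he
    obtain ⟨i, rfl⟩ := hM G hG
    obtain ⟨k, rfl⟩ := hM G' hG'
    rw [hr, hr] at he
    rw [Fin.ext he]
  · rw [card_image_of_injective _ h.inj, card_univ, Fintype.card_fin]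
    obtain ⟨x, hx⟩ : (F ⟨0, hm⟩).Nonempty := card_pos.1 (by rw [h.card]; exact hn1)
    obtain ⟨k, ⟨hk, -⟩, -⟩ := h.ridge ⟨0, hm⟩ x hx
    have h1 : (k : ℕ) ≠ 0 := fun e => hk (Fin.ext e)
    have h2 := k.2
    omega
  · intro G hG τ hτ hlt
    obtain ⟨j, rfl⟩ := hM G hG
    exact hL _ _ (mem_fc.1 hτ).1 hlt (by rw [h.card]; exact hn)
  · intro G hG h1 h2
    obtain ⟨j, rfl⟩ := hM G hG
    obtain ⟨G1, hG1, hlt1⟩ := h1
    obtain ⟨i1, rfl⟩ := hM G1 hG1
    obtain ⟨G2, hG2, hlt2⟩ := h2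
    obtain ⟨i2, rfl⟩ := hM G2 hG2
    rw [hr, hr] at hlt1 hlt2
    obtain ⟨R, hR⟩ : ∃ R : Finset ι, ∀ x, x ∈ R ↔ x ∈ F j ∧ ∃ k, k < j ∧ (F j).erase x ⊆ F k :=
      ⟨(F j).filter fun x => ∃ k, k < j ∧ (F j).erase x ⊆ F k, fun x => mem_filter⟩
    obtain ⟨R', hR'⟩ : ∃ R' : Finset ι, ∀ x, x ∈ R' ↔ x ∈ F j ∧ ∃ k, j < k ∧ (F j).erase x ⊆ F k :=
      ⟨(F j).filter fun x => ∃ k, j < k ∧ (F j).erase x ⊆ F k, fun x => mem_filter⟩
    have hU : R ∪ R' = F j := by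
      ext x
      rw [mem_union, hR, hR']
      constructor
      · rintro (h | h)
        · exact h.1
        · exact h.1
      · intro hx
        obtain ⟨k, ⟨hk, hs⟩, -⟩ := h.ridge j x hx
        rcases lt_or_gt_of_ne hk with h3 | h3
        · exact Or.inl ⟨hx, k, h3, hs⟩
        · exact Or.inr ⟨hx, k, h3, hs⟩
    have hd : Disjoint R R' := by
      rw [disjoint_left]
      intro x hx hx'
      obtain ⟨hxj, k, hk, hs⟩ := (hR x).1 hx
      obtain ⟨-, k', hk', hs'⟩ := (hR' x).1 hx'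
      have h3 := (h.ridge j x hxj).unique ⟨hk.ne, hs⟩ ⟨hk'.ne', hs'⟩
      rw [h3] at hk
      exact lt_asymm hk hk'
    have hcard : R.card + R'.card = n := by
      rw [← card_union_of_disjoint hd, hU, h.card]
    have hRne : R.Nonempty := by
      obtain ⟨k, hk, x, hx, hs, -⟩ := h.shell i1 j hlt1
      exact ⟨x, (hR x).2 ⟨hx, k, hk, hs⟩⟩
    have hRne' : R'.Nonempty := by
      obtain ⟨k, hk, x, hx, hs, -⟩ := rev_shell h (i := i2) (j := j) hlt2
      exact ⟨x, (hR' x).2 ⟨hx, k, hk, hs⟩⟩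
    have hTm : ∀ τ, τ ∈ TT (fc F) (univ.image F) r (F j) ↔ τ ∈ fc F ∧ τ < F j ∧
        (∃ F' ∈ univ.image F, r F' < r (F j) ∧ τ < F') ∧
        ∃ F' ∈ univ.image F, r (F j) < r F' ∧ τ < F' := by
      intro τ
      simp only [TT, Finset.mem_filter]
    have hTT : TT (fc F) (univ.image F) r (F j) = JB R R' := by
      ext τ
      rw [hTm τ]
      unfold JB
      rw [mem_filter, mem_powerset, hU, mem_fc]
      constructor
      · rintro ⟨⟨hne, -⟩, hτj, ⟨G1, hG1, hr1, hτ1⟩, G2, hG2, hr2, hτ2⟩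
        obtain ⟨i, rfl⟩ := hM G1 hG1
        obtain ⟨i', rfl⟩ := hM G2 hG2
        rw [hr, hr] at hr1 hr2
        have hτj' := hτj.1
        have hτ1' := hτ1.1
        have hτ2' := hτ2.1
        refine ⟨hτj', hne, ?_, ?_⟩
        · intro hsub
          obtain ⟨k, hk, x, hx, hs, hs2⟩ := h.shell i j hr1
          have hxτ := hsub ((hR x).2 ⟨hx, k, hk, hs⟩)
          exact h.not_mem hk.ne hs (hs2 (mem_inter.2 ⟨hτ1' hxτ, hx⟩))
        · intro hsub
          obtain ⟨k, hk, x, hx, hs, hs2⟩ := rev_shell h (i := i') (j := j) hr2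
          have hxτ := hsub ((hR' x).2 ⟨hx, k, hk, hs⟩)
          exact h.not_mem hk.ne' hs (hs2 (mem_inter.2 ⟨hτ2' hxτ, hx⟩))
      · rintro ⟨hτj, hne, hnR, hnR'⟩
        obtain ⟨x, hx, hxτ⟩ := not_subset.1 hnR
        obtain ⟨x', hx', hxτ'⟩ := not_subset.1 hnR'
        obtain ⟨hxj, k, hk, hs⟩ := (hR x).1 hx
        obtain ⟨hxj', k', hk', hs'⟩ := (hR' x').1 hx'
        have hlt : τ ⊂ F j := (ssubset_iff_of_subset hτj).2 ⟨x, hxj, hxτ⟩
        have hc := card_lt_card hlt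
        rw [h.card] at hc
        have hb : ∀ (y : ι) (l : Fin m), y ∉ τ → (F j).erase y ⊆ F l → τ < F l := by
          intro y l hy hsl
          refine (Finset.ssubset_iff_subset_ne.2 ⟨fun z hz =>
            hsl (mem_erase.2 ⟨fun e => hy (e ▸ hz), hτj hz⟩), fun e => ?_⟩)
          rw [e, h.card] at hc
          exact lt_irrefl _ hc
        refine ⟨⟨hne, j, hτj⟩, hlt, ⟨F k, hMm k, ?_, hb x k hxτ hs⟩,
          F k', hMm k', ?_, hb x' k' hxτ' hs'⟩
        · rw [hr, hr]; exact hk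
        · rw [hr, hr]; exact hk'
    rw [hTT]
    exact rl_JB hL R R' hd hRne hRne' (by rw [hcard]; exact hn)

end SCG
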