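import Pool.Agent.SCG.Loc
import Pool.Agent.SCG.MV

/-!
# Project SCG (architect helper40), module Span: the space `XX`

`E = A ∩ B`.  `XX G A B j` is the closed span of the localised elements `mu (g WS_E) x`, `x ∈ KK A B j`,
`g ∈ G.Group` (`trs g Y = g Y`).
* `XX_le`: `mu_HH` (`rinv_trs`, `rinv_WS`), `closed_HH`.
* `inv_XX`: `lam h (mu (trs g Y) x) = mu (trs (h * g) Y) (lam h x)` (`lam_mu`, `trs_mul`), `inv_KK`;
  pass to the closure (`Inv.cl`).
* `XX_gen`: an element `z` orthogonal to all generators is orthogonal to `XX`; conversely an element of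
  `XX` orthogonal to all generators is `0`.
* `mu_mem_XX`: let `x ∈ KK A B j` and `Z` be invariant under right multiplication by `E` (`RInv G E Z`).
  Then `mu Z x ∈ XX`.  Proof: `XX = XXᗮᗮ` (closed), so let `z ∈ XXᗮ`; show `⟪mu Z x, z⟫ = 0`.
  `⟪mu Z x, z⟫ = ∑'_q (mu Z x) q * z q` (`ell_hasSum`); sum over the fibres of
  `q ↦ (q.2 : G.Group ⧸ WS G E)` (`HasSum.tsum_fiberwise`): the fibre over the coset of `g` is
  `{q | q.2 ∈ trs g (WS G E)}` (`QuotientGroup.eq`); `Z` is constant on cosets (`RInv`, induction over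
  the subgroup), so the sum over the fibre is `0` if `g ∉ Z` and is
  `∑'_q (mu (trs g WS_E) x) q * z q = ⟪mu (trs g WS_E) x, z⟫ = 0` if `g ∈ Z`
  (`tsum_subtype` turns the sum over the fibre into a sum with an indicator function).
* `KK_le_XX`: `Z = univ`.
* `mu_XX`: for `Z` invariant under `E`: `mu Z` maps generators `mu (trs g WS_E) x` to
  `mu (Z ∩ trs g WS_E) x ∈ XX` (`mu_mem_XX`; intersection of invariant sets), and it is continuous and
  linear, so it maps `XX` to `XX`.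
* `rt_XX`: let `c` be adjacent to all elements of `E`.  Then
  `rt (sm c) (mu (trs g WS_E) x) = lam (g * sm c * g⁻¹) (mu (trs g WS_E) x)`: the value of the left side at
  `(T, h)` is `x (T, h * sm c)` if `g⁻¹ * h * sm c ∈ WS_E`, the value of the right side is
  `x (T, g * sm c * g⁻¹ * h)` if `sm c * g⁻¹ * h ∈ WS_E`.  If `g⁻¹ * h * sm c = w ∈ WS_E`, then
  `h = g * w * sm c = g * sm c * w` (`sm c` commutes with `WS_E`), so `sm c * g⁻¹ * h = w` and both values
  are `x (T, g * w)`; conversely the same.  So `rt (sm c)` maps generators to `XX` (`inv_XX`), and `XX` to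
  `XX` by continuity.
-/

namespace SCG

open SNG Finset SCS
open scoped InnerProductSpace

variable {V : Type} [Fintype V] [LinearOrder V] {G : CoxeterMatrix V}

/-- The generators of `XX`. -/
def XG (G : CoxeterMatrix V) (A B : Finset V) (j : ℕ) : Set (HW G) :=
  {y | ∃ g : G.Group, ∃ x ∈ KK G A B j, mu (trs g (WS G (A ∩ B) : Set G.Group)) x = y}

/-- The closed span of the localised elements of `KK`. -/
noncomputable def XX (G : CoxeterMatrix V) (A B : Finset V) (j : ℕ) : Submodule ℝ (HW G) :=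
  (Submodule.span ℝ (XG G A B j)).topologicalClosure

theorem XX_closed (A B : Finset V) (j : ℕ) : IsClosed (XX G A B j : Set (HW G)) :=
  Submodule.isClosed_topologicalClosure _

theorem XG_sub (A B : Finset V) (j : ℕ) {y : HW G} (h : y ∈ XG G A B j) : y ∈ XX G A B j :=
  Submodule.le_topologicalClosure _ (Submodule.subset_span h)

private theorem XX_le_of {A B : Finset V} {j : ℕ} {X : Submodule ℝ (HW G)}
    (hX : IsClosed (X : Set (HW G))) (h : ∀ y ∈ XG G A B j, y ∈ X) : XX G A B j ≤ X :=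
  Submodule.topologicalClosure_minimal _ (Submodule.span_le.2 h) hX

private theorem XX_map {A B : Finset V} {j : ℕ} (T : HW G →L[ℝ] HW G)
    (h : ∀ y ∈ XG G A B j, T y ∈ XX G A B j) {x : HW G} (hx : x ∈ XX G A B j) :
    T x ∈ XX G A B j := by
  have h1 : XX G A B j ≤ (XX G A B j).comap (T : HW G →ₗ[ℝ] HW G) :=
    XX_le_of ((XX_closed A B j).preimage T.continuous) h
  exact h1 hx

omit [Fintype V] [LinearOrder V] in
private theorem mul_WS {E : Finset V} {Z : Set G.Group} (hZ : RInv G E Z) {w : G.Group}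
    (hw : w ∈ WS G E) (g : G.Group) : g * w ∈ Z ↔ g ∈ Z := by
  induction hw using Subgroup.closure_induction_right with
  | one => rw [mul_one]
  | mul_right x hx y hy ih =>
    obtain ⟨s, hs, rfl⟩ := hy
    rw [← mul_assoc, hZ s hs, ih]
  | mul_inv_cancel x hx y hy ih =>
    obtain ⟨s, hs, rfl⟩ := hy
    rw [gn_inv, ← mul_assoc, hZ s hs, ih]

omit [Fintype V] [LinearOrder V] in
private theorem comm_WS {E : Finset V} {c : V} (hc : ∀ y ∈ E, G c y = 2) {w : G.Group}
    (hw : w ∈ WS G E) : gn G c * w = w * gn G c := by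
  induction hw using Subgroup.closure_induction_right with
  | one => rw [mul_one, one_mul]
  | mul_right x hx y hy ih =>
    obtain ⟨s, hs, rfl⟩ := hy
    rw [← mul_assoc, ih, mul_assoc, gn_comm (hc s hs), ← mul_assoc]
  | mul_inv_cancel x hx y hy ih =>
    obtain ⟨s, hs, rfl⟩ := hy
    rw [gn_inv, ← mul_assoc, ih, mul_assoc, gn_comm (hc s hs), ← mul_assoc]

theorem XX_le (A B : Finset V) (j : ℕ) : XX G A B j ≤ HH G (A ∩ B) j := by
  refine XX_le_of (closed_HH _ _) ?_
  rintro y ⟨g, x, hx, rfl⟩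
  exact mu_HH (rinv_trs (rinv_WS G _) g) hx.1.1

theorem inv_XX (A B : Finset V) (j : ℕ) : SCS.Inv (XX G A B j) := by
  intro h x hx
  refine XX_map (lam h) ?_ hx
  rintro y ⟨g, x, hx, rfl⟩
  rw [lam_mu, trs_mul]
  exact XG_sub A B j ⟨h * g, lam h x, inv_KK A B j h x hx, rfl⟩

theorem XX_orth {A B : Finset V} {j : ℕ} {z : HW G} (h : ∀ y ∈ XG G A B j, ⟪y, z⟫_ℝ = 0)
    (y : HW G) (hy : y ∈ XX G A B j) : ⟪y, z⟫_ℝ = 0 := by
  have h1 : XX G A B j ≤ (ℝ ∙ z)ᗮ :=
    XX_le_of (Submodule.isClosed_orthogonal _) fun y hy =>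
      Submodule.mem_orthogonal_singleton_iff_inner_left.2 (h y hy)
  exact Submodule.mem_orthogonal_singleton_iff_inner_left.1 (h1 hy)

theorem mu_mem_XX {A B : Finset V} {j : ℕ} {Z : Set G.Group} (hZ : RInv G (A ∩ B) Z) {x : HW G}
    (hx : x ∈ KK G A B j) : mu Z x ∈ XX G A B j := by
  classical
  have hcl : (XX G A B j)ᗮᗮ = XX G A B j := by
    rw [Submodule.orthogonal_orthogonal_eq_closure]
    exact (XX_closed A B j).submodule_topologicalClosure_eq
  rw [← hcl, Submodule.mem_orthogonal']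
  intro z hz
  have hz' : ∀ y ∈ XG G A B j, ⟪y, z⟫_ℝ = 0 := fun y hy => hz y (XG_sub A B j hy)
  have h1 := ell_hasSum (mu Z x) z
  have h2 := h1.tsum_fiberwise (fun q : Finset V × G.Group => (q.2 : G.Group ⧸ WS G (A ∩ B)))
  have h3 : ∀ q : G.Group ⧸ WS G (A ∩ B),
      ∑' b : (fun q : Finset V × G.Group => (q.2 : G.Group ⧸ WS G (A ∩ B))) ⁻¹' {q},
        (mu Z x) b.1 * z b.1 = 0 := by
    intro q
    obtain ⟨g, rfl⟩ := QuotientGroup.mk_surjective q
    rw [tsum_subtype ((fun q : Finset V × G.Group => (q.2 : G.Group ⧸ WS G (A ∩ B))) ⁻¹'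
      {(g : G.Group ⧸ WS G (A ∩ B))}) fun b => (mu Z x) b * z b]
    have hfib : ∀ b : Finset V × G.Group,
        b ∈ (fun q : Finset V × G.Group => (q.2 : G.Group ⧸ WS G (A ∩ B))) ⁻¹'
          {(g : G.Group ⧸ WS G (A ∩ B))} ↔ g⁻¹ * b.2 ∈ WS G (A ∩ B) := by
      intro b
      rw [Set.mem_preimage, Set.mem_singleton_iff, eq_comm, QuotientGroup.eq]
    by_cases hg : g ∈ Z
    · rw [← hz' (mu (trs g (WS G (A ∩ B) : Set G.Group)) x) ⟨g, x, hx, rfl⟩, ell_inner]
      refine tsum_congr fun b => ?_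
      by_cases hb : g⁻¹ * b.2 ∈ WS G (A ∩ B)
      · rw [Set.indicator_of_mem ((hfib b).2 hb), mu_apply, mu_apply, if_pos, if_pos]
        · exact hb
        · have h4 := (mul_WS hZ hb g).2 hg
          rw [mul_inv_cancel_left] at h4
          exact h4
      · rw [Set.indicator_of_notMem fun h => hb ((hfib b).1 h), mu_apply, if_neg, zero_mul]
        exact hb
    · rw [← tsum_zero (α := ℝ) (β := Finset V × G.Group)]
      refine tsum_congr fun b => ?_
      by_cases hb : g⁻¹ * b.2 ∈ WS G (A ∩ B)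
      · rw [Set.indicator_of_mem ((hfib b).2 hb), mu_apply, if_neg, zero_mul]
        intro h4
        refine hg ((mul_WS hZ hb g).1 ?_)
        rw [mul_inv_cancel_left]
        exact h4
      · rw [Set.indicator_of_notMem fun h => hb ((hfib b).1 h)]
  have h4 : (fun q : G.Group ⧸ WS G (A ∩ B) =>
      ∑' b : (fun q : Finset V × G.Group => (q.2 : G.Group ⧸ WS G (A ∩ B))) ⁻¹' {q},
        (mu Z x) b.1 * z b.1) = fun _ => 0 := funext h3
  rw [h4] at h2
  exact h2.unique hasSum_zero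

theorem KK_le_XX (A B : Finset V) (j : ℕ) : KK G A B j ≤ XX G A B j := by
  classical
  intro x hx
  have h1 : mu (Set.univ : Set G.Group) x = x := ell_ext fun q => by
    rw [mu_apply, if_pos (Set.mem_univ _)]
  rw [← h1]
  exact mu_mem_XX (fun s _ g => ⟨fun _ => Set.mem_univ _, fun _ => Set.mem_univ _⟩) hx

theorem mu_XX {A B : Finset V} {j : ℕ} {Z : Set G.Group} (hZ : RInv G (A ∩ B) Z) {x : HW G}
    (hx : x ∈ XX G A B j) : mu Z x ∈ XX G A B j := by
  classical
  refine XX_map (mu Z) ?_ hx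
  rintro y ⟨g, x, hx, rfl⟩
  have h1 : mu Z (mu (trs g (WS G (A ∩ B) : Set G.Group)) x) =
      mu (Z ∩ trs g (WS G (A ∩ B) : Set G.Group)) x := by
    refine ell_ext fun q => ?_
    rw [mu_apply, mu_apply, mu_apply]
    by_cases h2 : q.2 ∈ Z
    · by_cases h3 : q.2 ∈ trs g (WS G (A ∩ B) : Set G.Group)
      · rw [if_pos h2, if_pos h3, if_pos ⟨h2, h3⟩]
      · rw [if_pos h2, if_neg h3, if_neg fun h => h3 h.2]
    · rw [if_neg h2, if_neg fun h => h2 h.1]
  rw [h1]
  refine mu_mem_XX (fun s hs h => ?_) hx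
  have h2 := rinv_trs (rinv_WS G (A ∩ B)) g s hs h
  exact and_congr (hZ s hs h) h2

theorem rt_XX {A B : Finset V} {j : ℕ} {c : V} (hc : ∀ y ∈ A ∩ B, G c y = 2) {x : HW G}
    (hx : x ∈ XX G A B j) : rt (gn G c) x ∈ XX G A B j := by
  classical
  refine XX_map (rt (gn G c)) ?_ hx
  rintro y ⟨g, x, hx, rfl⟩
  have h1 : rt (gn G c) (mu (trs g (WS G (A ∩ B) : Set G.Group)) x) =
      lam (g * gn G c * g⁻¹) (mu (trs g (WS G (A ∩ B) : Set G.Group)) x) := by
    refine ell_ext fun q => ?_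
    rw [rt_apply, lam_apply, mu_apply, mu_apply]
    have e1 : (g * gn G c * g⁻¹)⁻¹ * q.2 = g * (gn G c * (g⁻¹ * q.2)) := by
      rw [mul_inv_rev, mul_inv_rev, inv_inv, gn_inv]
      simp only [mul_assoc]
    have e2 : q.2 * gn G c = g * (g⁻¹ * q.2 * gn G c) := by
      rw [mul_assoc, mul_inv_cancel_left]
    have e3 : ∀ w : G.Group, w ∈ WS G (A ∩ B) → gn G c * w * gn G c = w := by
      intro w hw
      rw [comm_WS hc hw, mul_assoc, gn_mul_self, mul_one]
    have key : g⁻¹ * q.2 * gn G c ∈ WS G (A ∩ B) ∨ gn G c * (g⁻¹ * q.2) ∈ WS G (A ∩ B) →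
        g⁻¹ * q.2 * gn G c = gn G c * (g⁻¹ * q.2) := by
      rintro (h | h)
      · have h2 := e3 _ h
        rw [← mul_assoc, mul_assoc (gn G c * (g⁻¹ * q.2)), gn_mul_self, mul_one] at h2
        exact h2.symm
      · have h2 := e3 _ h
        rw [← mul_assoc, gn_mul_self, one_mul] at h2
        exact h2
    change (if q.2 * gn G c ∈ trs g (WS G (A ∩ B) : Set G.Group) then x (q.1, q.2 * gn G c) else 0) =
      if (g * gn G c * g⁻¹)⁻¹ * q.2 ∈ trs g (WS G (A ∩ B) : Set G.Group) then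
        x (q.1, (g * gn G c * g⁻¹)⁻¹ * q.2) else 0
    rw [e1, e2]
    have m1 : g * (g⁻¹ * q.2 * gn G c) ∈ trs g (WS G (A ∩ B) : Set G.Group) ↔
        g⁻¹ * q.2 * gn G c ∈ WS G (A ∩ B) := by
      change g⁻¹ * (g * (g⁻¹ * q.2 * gn G c)) ∈ WS G (A ∩ B) ↔ _
      rw [inv_mul_cancel_left]
    have m2 : g * (gn G c * (g⁻¹ * q.2)) ∈ trs g (WS G (A ∩ B) : Set G.Group) ↔
        gn G c * (g⁻¹ * q.2) ∈ WS G (A ∩ B) := by
      change g⁻¹ * (g * (gn G c * (g⁻¹ * q.2))) ∈ WS G (A ∩ B) ↔ _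
      rw [inv_mul_cancel_left]
    by_cases h : g⁻¹ * q.2 * gn G c ∈ WS G (A ∩ B)
    · have h2 := key (Or.inl h)
      rw [← h2]
    · by_cases h' : gn G c * (g⁻¹ * q.2) ∈ WS G (A ∩ B)
      · have h2 := key (Or.inr h')
        rw [h2] at h
        exact absurd h' h
      · rw [if_neg fun h1 => h (m1.1 h1), if_neg fun h1 => h' (m2.1 h1)]
  rw [h1]
  exact inv_XX A B j _ _ (XG_sub A B j ⟨g, x, hx, rfl⟩)

end SCG
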