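import Pool.Agent.SCS.TBase
import Pool.Agent.SCG.Chn2

/-!
# Project SCG (architect helper40), module Trans: change of the Coxeter system

`e : V' ↪ V` with `M (e x) (e y) = M' x y`, `φ : M'.Group →* M.Group` injective with
`φ (gn M' x) = gn M (e x)` (`exists_emb`), `ε` from `exists_eps` (change of the order).
`qq g (T, w) = (T.map e, g * φ w)` is injective.  `js g F (T, w) = ε T * F (T.map e, g * φ w)` and
`jj g k`: the extension by `0` of `ε T * k (T, w)` along `qq g`; they are adjoint to each other, commute with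
the boundary and map chains to chains.
-/

namespace SCG

open SNG Finset SCS
open scoped InnerProductSpace

variable {V V' : Type} {M : CoxeterMatrix V} {M' : CoxeterMatrix V'}

/-- The embedding of the cells. -/
def qq (e : V' ↪ V) (φ : M'.Group →* M.Group) (g : M.Group) (q : Finset V' × M'.Group) :
    Finset V × M.Group := (q.1.map e, g * φ q.2)

theorem qq_inj (e : V' ↪ V) {φ : M'.Group →* M.Group} (hφ : Function.Injective φ) (g : M.Group) :
    Function.Injective (qq e φ g) := by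
  intro a b hab
  have h1 : a.1.map e = b.1.map e := congrArg Prod.fst hab
  have h2 : g * φ a.2 = g * φ b.2 := congrArg Prod.snd hab
  exact Prod.ext (map_injective e h1) (hφ (mul_left_cancel h2))

section

variable (e : V' ↪ V) {φ : M'.Group →* M.Group} (hφ : Function.Injective φ) (g : M.Group)
  {ε : Finset V' → ℝ} (hε : ∀ T, ε T ^ 2 = 1)

/-- restriction -/
noncomputable def js (F : HW M) : HW M' :=
  mkE (fun q => ε q.1 * F (qq e φ g q)) (by
    refine ((ell_summable F).comp_injective (qq_inj e hφ g)).congr fun q => ?_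
    change F (qq e φ g q) ^ 2 = (ε q.1 * F (qq e φ g q)) ^ 2
    rw [mul_pow, hε, one_mul])

theorem js_apply (F : HW M) (T : Finset V') (w : M'.Group) :
    js e hφ g hε F (T, w) = ε T * F (T.map e, g * φ w) := rfl

/-- the function defining the extension -/
noncomputable def jf (e : V' ↪ V) (φ : M'.Group →* M.Group) (g : M.Group) (ε : Finset V' → ℝ)
    (k : HW M') : Finset V × M.Group → ℝ :=
  Function.extend (qq e φ g) (fun q => ε q.1 * k q) fun _ => 0

include hφ in
theorem jf_apply (k : HW M') (q : Finset V' × M'.Group) :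
    jf e φ g ε k (qq e φ g q) = ε q.1 * k q :=
  (qq_inj e hφ g).extend_apply _ _ q

theorem jf_zero (k : HW M') {p : Finset V × M.Group} (h : ¬ ∃ q, qq e φ g q = p) :
    jf e φ g ε k p = 0 := Function.extend_apply' _ _ _ h

/-- extension by zero -/
noncomputable def jj (k : HW M') : HW M :=
  mkE (jf e φ g ε k) (by
    rw [← (qq_inj e hφ g).summable_iff]
    · refine (ell_summable k).congr fun q => ?_
      change k q ^ 2 = jf e φ g ε k (qq e φ g q) ^ 2
      rw [jf_apply e hφ, mul_pow, hε, one_mul]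
    · intro p hp
      rw [jf_zero e g k (fun h => hp h)]
      norm_num)

theorem jj_apply (k : HW M') (T : Finset V') (w : M'.Group) :
    jj e hφ g hε k (T.map e, g * φ w) = ε T * k (T, w) := jf_apply e hφ g k (T, w)

theorem jj_zero (k : HW M') {p : Finset V × M.Group} (h : ¬ ∃ q, qq e φ g q = p) :
    jj e hφ g hε k p = 0 := jf_zero e g k h

theorem jj_inner (k : HW M') (F : HW M) :
    ⟪jj e hφ g hε k, F⟫_ℝ = ⟪k, js e hφ g hε F⟫_ℝ := by
  rw [ell_inner, ell_inner, ← (qq_inj e hφ g).tsum_eq]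
  · refine tsum_congr ?_
    rintro ⟨T, w⟩
    change jj e hφ g hε k (T.map e, g * φ w) * F (T.map e, g * φ w) = k (T, w) * js e hφ g hε F (T, w)
    rw [jj_apply, js_apply]
    ring
  · intro p hp
    by_contra h
    rw [Function.mem_support, jj_zero e hφ g hε k (fun h1 => h h1), zero_mul] at hp
    exact hp rfl

end

variable [Fintype V] [LinearOrder V] [Fintype V'] [LinearOrder V']

private theorem tr_val {V : Type} [Fintype V] [LinearOrder V] {G : CoxeterMatrix V} (f : HW G)
    (T : Finset V) (g : G.Group) :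
    bD G f (T, g) = ∑ s ∈ Tᶜ, sg T s * f (insert s T, g) := bD_apply f T g

section

variable (e : V' ↪ V) (hM : ∀ x y, M (e x) (e y) = M' x y) {φ : M'.Group →* M.Group}
  (hφ : Function.Injective φ) (hφs : ∀ x, φ (gn M' x) = gn M (e x)) (g : M.Group)
  {ε : Finset V' → ℝ} (hε : ∀ T, ε T ^ 2 = 1)
  (hεs : ∀ T s, s ∉ T → sg (T.map e) (e s) = sg T s * ε T * ε (insert s T))

include hM hφs in
omit [LinearOrder V] [LinearOrder V'] [Fintype V] in
theorem jj_CC {j : ℕ} {k : HW M'} (hk : k ∈ CC M' univ j) :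
    jj e hφ g hε k ∈ CC M (univ.map e) j := by
  rw [mem_CC] at hk ⊢
  obtain ⟨hk1, hk2⟩ := hk
  refine ⟨fun T' hT' g' => ?_, fun T' s' hs' g' => ?_⟩
  · by_cases h : ∃ q, qq e φ g q = (T', g')
    · obtain ⟨⟨T, w⟩, hq⟩ := h
      have h1 : T.map e = T' := congrArg Prod.fst hq
      have h2 : g * φ w = g' := congrArg Prod.snd hq
      rw [← h1, ← h2, jj_apply, hk1, mul_zero]
      rintro ⟨-, h3, h4⟩
      refine hT' ⟨?_, ?_, ?_⟩
      · rw [← h1]
        exact map_subset_map.2 (subset_univ T)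
      · rw [← h1]
        exact (sph_iff e hM T).2 h3
      · rw [← h1, card_map, h4]
    · exact jj_zero e hφ g hε k h
  · by_cases h : ∃ q, qq e φ g q = (T', g')
    · obtain ⟨⟨T, w⟩, hq⟩ := h
      have h1 : T.map e = T' := congrArg Prod.fst hq
      have h2 : g * φ w = g' := congrArg Prod.snd hq
      rw [← h1] at hs'
      obtain ⟨s, hs, rfl⟩ := mem_map.1 hs'
      rw [← h1, ← h2, mul_assoc, ← hφs, ← map_mul, jj_apply, jj_apply, hk2 T s hs, mul_neg]
    · rw [jj_zero e hφ g hε k h, jj_zero e hφ g hε k, neg_zero]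
      rintro ⟨⟨T, w⟩, hq⟩
      have h1 : T.map e = T' := congrArg Prod.fst hq
      have h2 : g * φ w = g' * gn M s' := congrArg Prod.snd hq
      rw [← h1] at hs'
      obtain ⟨s, hs, rfl⟩ := mem_map.1 hs'
      refine h ⟨(T, w * gn M' s), Prod.ext h1 ?_⟩
      change g * φ (w * gn M' s) = g'
      rw [map_mul, hφs, ← mul_assoc, h2, mul_assoc, gn_mul_self, mul_one]

include hM hφs in
omit [LinearOrder V] [LinearOrder V'] [Fintype V] in
theorem js_CC {j : ℕ} {F : HW M} (hF : F ∈ CC M (univ.map e) j) :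
    js e hφ g hε F ∈ CC M' univ j := by
  rw [mem_CC] at hF ⊢
  obtain ⟨hF1, hF2⟩ := hF
  refine ⟨fun T hT w => ?_, fun T s hs w => ?_⟩
  · rw [js_apply, hF1, mul_zero]
    rintro ⟨-, h3, h4⟩
    exact hT ⟨subset_univ T, (sph_iff e hM T).1 h3, by rwa [card_map] at h4⟩
  · rw [js_apply, js_apply, map_mul, hφs, ← mul_assoc, hF2 _ _ (mem_map_of_mem e hs)]
    ring

include hεs in
theorem bD_jj (k : HW M') : bD M (jj e hφ g hε k) = jj e hφ g hε (bD M' k) := by
  have hε1 : ∀ T, ε T * ε T = 1 := fun T => by rw [← sq, hε]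
  refine ell_ext ?_
  rintro ⟨T', g'⟩
  rw [tr_val]
  by_cases h : ∃ q, qq e φ g q = (T', g')
  · obtain ⟨⟨T, w⟩, hq⟩ := h
    have h1 : T.map e = T' := congrArg Prod.fst hq
    have h2 : g * φ w = g' := congrArg Prod.snd hq
    rw [← h1, ← h2, jj_apply, tr_val]
    have h3 : (Tᶜ).map e ⊆ (T.map e)ᶜ := by
      intro y hy
      obtain ⟨x, hx, rfl⟩ := mem_map.1 hy
      rw [mem_compl, mem_map' e]
      exact mem_compl.1 hx
    rw [← sum_subset h3, sum_map, mul_sum]
    · refine sum_congr rfl fun s hs => ?_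
      rw [hεs T s (mem_compl.1 hs), ← map_insert, jj_apply]
      linear_combination (sg T s * ε T * k (insert s T, w)) * hε1 (insert s T)
    · intro y _ hy'
      rw [jj_zero e hφ g hε k, mul_zero]
      rintro ⟨⟨T₁, w₁⟩, hq₁⟩
      have h4 : T₁.map e = insert y (T.map e) := congrArg Prod.fst hq₁
      have h5 : y ∈ T₁.map e := by
        rw [h4]
        exact mem_insert_self _ _
      obtain ⟨x, -, rfl⟩ := mem_map.1 h5
      apply hy'
      rw [mem_map' e, mem_compl]
      intro h6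
      rename_i hy
      exact mem_compl.1 hy (mem_map_of_mem e h6)
  · rw [jj_zero e hφ g hε _ h]
    refine sum_eq_zero fun s _ => ?_
    rw [jj_zero e hφ g hε k, mul_zero]
    rintro ⟨⟨T₁, w₁⟩, hq₁⟩
    have h4 : T₁.map e = insert s T' := congrArg Prod.fst hq₁
    have h5 : g * φ w₁ = g' := congrArg Prod.snd hq₁
    have h6 : T' ⊆ T₁.map e := by
      rw [h4]
      exact subset_insert _ _
    obtain ⟨T, _, h7⟩ := subset_map_iff.1 h6
    exact h ⟨(T, w₁), Prod.ext h7.symm h5⟩

include hεs in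
theorem bD_js {j : ℕ} {F : HW M} (hF : F ∈ CC M (univ.map e) j) :
    bD M' (js e hφ g hε F) = js e hφ g hε (bD M F) := by
  have hε1 : ∀ T, ε T * ε T = 1 := fun T => by rw [← sq, hε]
  rw [mem_CC] at hF
  refine ell_ext ?_
  rintro ⟨T, w⟩
  rw [tr_val, js_apply, tr_val]
  have h3 : (Tᶜ).map e ⊆ (T.map e)ᶜ := by
    intro y hy
    obtain ⟨x, hx, rfl⟩ := mem_map.1 hy
    rw [mem_compl, mem_map' e]
    exact mem_compl.1 hx
  rw [← sum_subset h3, sum_map, mul_sum]
  · refine sum_congr rfl fun s hs => ?_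
    rw [js_apply, hεs T s (mem_compl.1 hs), map_insert]
    linear_combination (- sg T s * ε (insert s T) * F (insert (e s) (T.map e), g * φ w)) * hε1 T
  · intro y hy hy'
    rw [hF.1, mul_zero]
    rintro ⟨h4, -, -⟩
    obtain ⟨x, -, rfl⟩ := mem_map.1 (h4 (mem_insert_self _ _))
    apply hy'
    rw [mem_map' e, mem_compl]
    intro h6
    exact mem_compl.1 hy (mem_map_of_mem e h6)

end

theorem mem_HH {V : Type} [Fintype V] [LinearOrder V] {G : CoxeterMatrix V} {S : Finset V} {j : ℕ}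
    {f : HW G} : f ∈ HH G S j ↔ f ∈ CC G S j ∧ bD G f = 0 ∧
      ∀ h ∈ CC G S (j + 1), ⟪bD G h, f⟫_ℝ = 0 := by
  unfold HH
  rw [Submodule.mem_inf, Submodule.mem_inf, mem_kr, Submodule.mem_orthogonal, and_assoc]
  refine and_congr Iff.rfl (and_congr Iff.rfl ?_)
  constructor
  · intro h x hx
    exact h _ (mem_im.2 ⟨x, hx, rfl⟩)
  · intro h y hy
    obtain ⟨x, hx, rfl⟩ := mem_im.1 hy
    exact h x hx

theorem hh_to (e : V' ↪ V) (hM : ∀ x y, M (e x) (e y) = M' x y)
    (h : ∀ j, HH M' univ j = ⊥) (j : ℕ) : HH M (univ.map e) j = ⊥ := by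
  obtain ⟨φ, hφs, hφ⟩ := exists_emb (M := M) (M' := M') e e.injective hM
  obtain ⟨ε, hε, hεs⟩ := exists_eps e
  rw [eq_bot_iff]
  intro F hF
  rw [mem_HH] at hF
  obtain ⟨hF1, hF2, hF3⟩ := hF
  have key : ∀ g, js e hφ g hε F = 0 := by
    intro g
    have h1 : js e hφ g hε F ∈ HH M' univ j := by
      rw [mem_HH]
      refine ⟨js_CC e hM hφ hφs g hε hF1, ?_, fun k hk => ?_⟩
      · rw [bD_js e hφ g hε hεs hF1, hF2]
        refine ell_ext ?_
        rintro ⟨T, w⟩
        rw [js_apply, ell_zero, ell_zero, mul_zero]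
      · rw [← jj_inner, ← bD_jj e hφ g hε hεs]
        exact hF3 _ (jj_CC e hM hφ hφs g hε hk)
    rwa [h j, Submodule.mem_bot] at h1
  refine (Submodule.mem_bot ℝ).2 (ell_ext ?_)
  rintro ⟨T', g⟩
  rw [ell_zero]
  by_cases hT : T' ⊆ univ.map e
  · obtain ⟨T, _, rfl⟩ := subset_map_iff.1 hT
    have h1 : js e hφ g hε F (T, 1) = 0 := by
      rw [key g]
      rfl
    rw [js_apply, map_one, mul_one] at h1
    have h2 : ε T ≠ 0 := fun h3 => by
      have := hε T
      rw [h3] at this
      norm_num at this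
    exact (mul_eq_zero.1 h1).resolve_left h2
  · exact (mem_CC.1 hF1).1 T' (fun h1 => hT h1.1) g

theorem hh_from (e : V' ↪ V) (hM : ∀ x y, M (e x) (e y) = M' x y)
    (h : ∀ j, HH M (univ.map e) j = ⊥) (j : ℕ) : HH M' univ j = ⊥ := by
  obtain ⟨φ, hφs, hφ⟩ := exists_emb (M := M) (M' := M') e e.injective hM
  obtain ⟨ε, hε, hεs⟩ := exists_eps e
  rw [eq_bot_iff]
  intro f hf
  rw [mem_HH] at hf
  obtain ⟨hf1, hf2, hf3⟩ := hf
  have key : jj e hφ 1 hε f = 0 := by
    have h1 : jj e hφ 1 hε f ∈ HH M (univ.map e) j := by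
      rw [mem_HH]
      refine ⟨jj_CC e hM hφ hφs 1 hε hf1, ?_, fun k hk => ?_⟩
      · rw [bD_jj e hφ 1 hε hεs, hf2]
        refine ell_ext fun p => ?_
        by_cases hp : ∃ q, qq e φ 1 q = p
        · obtain ⟨⟨T, w⟩, rfl⟩ := hp
          have h2 : jj e hφ 1 hε (0 : HW M') (T.map e, 1 * φ w) = 0 := by
            rw [jj_apply, ell_zero, mul_zero]
          exact h2
        · exact jj_zero e hφ 1 hε _ hp
      · rw [real_inner_comm, jj_inner, ← bD_js e hφ 1 hε hεs hk, real_inner_comm]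
        exact hf3 _ (js_CC e hM hφ hφs 1 hε hk)
    rwa [h j, Submodule.mem_bot] at h1
  refine (Submodule.mem_bot ℝ).2 (ell_ext ?_)
  rintro ⟨T, w⟩
  have h1 : jj e hφ 1 hε f (T.map e, 1 * φ w) = 0 := by
    rw [key]
    rfl
  rw [jj_apply] at h1
  have h2 : ε T ≠ 0 := fun h3 => by
    have := hε T
    rw [h3] at this
    norm_num at this
  exact (mul_eq_zero.1 h1).resolve_left h2

end SCG
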